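import Pool.Agent.Lib.MP_863a8d_al.Ker

/-!
# JOB CR: the kernel `cr`

`cr N (u, a) (v, b) = -(N((ua)⁻¹ v b) - N((ua)⁻¹ v) - N(u⁻¹ v b) + N(u⁻¹ v)) / 2`.
`cr_psd`: for coefficients `c` on pairs `(u, a)` put `d = ∑ c (u, a) (δ_{u a} - δ_u)` (total mass zero);
the form of `cr` is `-½ ∑ d x d y N(x⁻¹ y) ≥ 0` by `neg_of_exp` applied to `ν x y = N (x⁻¹ y)`.
(Alternatively use `neg_of_exp` on the index set `X × Bool` via `PSDk.comp`.)
`second_diff`: `N(s g s') - N(s g) - N(g s') + N g = -2 cr (1, s⁻¹) (g, s')`.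
-/

set_option autoImplicit false

namespace Pool.SpecDense

universe u

variable {G : Type u} [Group G] {W : Walk G} {N : G → ℝ}

theorem cr_psd (hN : NData W N) : PSDk (cr N) := by
  classical
  refine ⟨fun x y => ?_, fun F c => ?_⟩
  · unfold cr
    rw [← hN.inv ((x.1 * x.2)⁻¹ * (y.1 * y.2)), ← hN.inv ((x.1 * x.2)⁻¹ * y.1),
      ← hN.inv (x.1⁻¹ * (y.1 * y.2)), ← hN.inv (x.1⁻¹ * y.1)]
    have e : ∀ a b : G, (a⁻¹ * b)⁻¹ = b⁻¹ * a := fun a b => by group
    rw [e, e, e, e]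
    ring
  · obtain ⟨f, hf⟩ : ∃ f : (G × G) × Bool → G, f = fun p => if p.2 then p.1.1 * p.1.2 else p.1.1 :=
      ⟨_, rfl⟩
    have hft : ∀ x : G × G, f (x, true) = x.1 * x.2 := fun x => by rw [hf]; simp
    have hff : ∀ x : G × G, f (x, false) = x.1 := fun x => by rw [hf]; simp
    obtain ⟨d, hd⟩ : ∃ d : (G × G) × Bool → ℝ, d = fun p => if p.2 then c p.1 else -c p.1 :=
      ⟨_, rfl⟩
    have hdt : ∀ x : G × G, d (x, true) = c x := fun x => by rw [hd]; simp
    have hdf : ∀ x : G × G, d (x, false) = -c x := fun x => by rw [hd]; simp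
    have h1 := neg_of_exp (ν := fun p q : (G × G) × Bool => N ((f p)⁻¹ * f q))
      (fun t ht => PSDk.comp (hN.exp_pd t ht) f) (F ×ˢ (Finset.univ : Finset Bool)) d (by
        rw [Finset.sum_product]
        apply Finset.sum_eq_zero
        intro x _
        rw [Fintype.sum_bool, hdt, hdf]
        ring)
    rw [Finset.sum_product] at h1
    simp only [Finset.sum_product, Fintype.sum_bool, hdt, hdf, hft, hff] at h1
    have h2 : ∑ x ∈ F, ∑ y ∈ F, c x * c y * cr N x y =
        -(1 / 2) * ∑ x ∈ F, (∑ y ∈ F, (c x * c y * N ((x.1 * x.2)⁻¹ * (y.1 * y.2)) +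
            c x * -c y * N ((x.1 * x.2)⁻¹ * y.1)) +
          ∑ y ∈ F, (-c x * c y * N (x.1⁻¹ * (y.1 * y.2)) +
            -c x * -c y * N (x.1⁻¹ * y.1))) := by
      rw [Finset.mul_sum]
      refine Finset.sum_congr rfl fun x _ => ?_
      rw [← Finset.sum_add_distrib, Finset.mul_sum]
      refine Finset.sum_congr rfl fun y _ => ?_
      unfold cr
      ring
    rw [h2]
    linarith

theorem cr_sq_psd (hN : NData W N) : PSDk (fun x y => cr N x y ^ 2) := by
  have h := (cr_psd hN).mul (cr_psd hN)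
  simp only [← sq] at h
  exact h

theorem cr_comm (hN : NData W N) (x y : G × G) : cr N x y = cr N y x := (cr_psd hN).1 x y

theorem cr_act (N : G → ℝ) (g : G) (x y : G × G) :
    cr N (g * x.1, x.2) (g * y.1, y.2) = cr N x y := by
  unfold cr
  have e1 : (g * x.1 * x.2)⁻¹ * (g * y.1 * y.2) = (x.1 * x.2)⁻¹ * (y.1 * y.2) := by group
  have e2 : (g * x.1 * x.2)⁻¹ * (g * y.1) = (x.1 * x.2)⁻¹ * y.1 := by group
  have e3 : (g * x.1)⁻¹ * (g * y.1 * y.2) = x.1⁻¹ * (y.1 * y.2) := by group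
  have e4 : (g * x.1)⁻¹ * (g * y.1) = x.1⁻¹ * y.1 := by group
  simp only [e1, e2, e3, e4]

theorem cr_self (hN : NData W N) (u a : G) : cr N (u, a) (u, a) = N a := by
  unfold cr
  have e1 : (u * a)⁻¹ * (u * a) = 1 := by group
  have e2 : (u * a)⁻¹ * u = a⁻¹ := by group
  have e3 : u⁻¹ * (u * a) = a := by group
  have e4 : u⁻¹ * u = 1 := by group
  simp only [e1, e2, e3, e4, hN.one, hN.inv]
  ring

theorem cr_sq_le (hN : NData W N) (x y : G × G) : cr N x y ^ 2 ≤ N x.2 * N y.2 := by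
  have h := (cr_psd hN).sq_le x y
  have h1 : cr N x x = N x.2 := cr_self hN x.1 x.2
  have h2 : cr N y y = N y.2 := cr_self hN y.1 y.2
  rwa [h1, h2] at h

/-- cocycle identity in the last variable -/
theorem cr_mul (N : G → ℝ) (x : G × G) (v b b' : G) :
    cr N x (v, b * b') = cr N x (v, b) + cr N x (v * b, b') := by
  unfold cr
  simp only [← mul_assoc]
  ring

theorem cr_one (N : G → ℝ) (x : G × G) (v : G) : cr N x (v, 1) = 0 := by
  unfold cr
  simp only [mul_one]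
  ring

/-- harmonicity -/
theorem cr_harm (hN : NData W N) (x : G × G) (v : G) : W.E (fun s => cr N x (v, s)) = 0 := by
  have h1 : W.E (fun s => cr N x (v, s)) =
      W.E (fun s => (-(1 / 2) * N ((x.1 * x.2)⁻¹ * v * s) + (1 / 2) * N (x.1⁻¹ * v * s)) +
        (N ((x.1 * x.2)⁻¹ * v) - N (x.1⁻¹ * v)) / 2) := by
    apply W.E_congr
    intro s _
    unfold cr
    simp only [← mul_assoc]
    ring
  rw [h1, W.E_add, W.E_add, W.E_const, W.E_mul, W.E_mul, hN.harm, hN.harm]
  ring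

theorem second_diff (N : G → ℝ) (s g s' : G) :
    N (s * g * s') - N (s * g) - N (g * s') + N g = -2 * cr N (1, s⁻¹) (g, s') := by
  unfold cr
  simp only [one_mul, inv_inv, inv_one, ← mul_assoc]
  ring

/-- left harmonicity -/
theorem N_harm_left (hN : NData W N) (g : G) : W.E (fun s => N (s * g)) = N g + 2 := by
  have h1 : W.E (fun s => N (s * g)) = W.E (fun s => N (g⁻¹ * s⁻¹)) := by
    apply W.E_congr
    intro s _
    rw [← hN.inv (s * g), mul_inv_rev]
  rw [h1, W.E_inv (fun s => N (g⁻¹ * s)), hN.harm, hN.inv]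

end Pool.SpecDense
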