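import Pool.Agent.Lib.MP_863a8d_al.Key
import Pool.Agent.Lib.MP_863a8d_al.Cr

/-!
# JOB CASEA: the weakly mixing case

Apply `key` with `Φ t g = exp (-(t N g / 2))`, `α = N / 2`, `γ = N² / 8`, `a = 1`.
Expansion: `|exp (-x) - 1 + x - x²/2| ≤ x³` for `x ≥ 0`. `DR α = -1` by `NData.harm`.
Condition on `γ`: by `ev_mul_X_sq`, `ev (q² X²) γ = ev (q²) (DL DR γ)`, and with
`A s = N(s g) - N g`, `C s' = N(g s') - N g`, `B s s' = N(s g s') - N(s g) - N(g s') + N g` one has
`E E B = 0` in each variable separately, `E A = E C = 2`, and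
`N(s g s')² - N(s g)² - N(g s')² + N g² = 2 A C + 2 N(g) B + 2 A B + 2 C B + B²`, so
`DL DR N² g = 8 + E E B² = 8 + 4 E E cr(1, s⁻¹)(g, s')²` (`second_diff`), and
`E_s E_s' cr(1, s⁻¹)(g, s')² = E_s' E_s cr(g, s')(1, s)²` (`E_inv`, `cr_comm`, `E_E_comm`).
Hence `ev (q² X²) γ = 1 + ½ ev (q²) r`, where `r` is the function in `hA`.
-/

set_option autoImplicit false

open Filter Topology

namespace Pool.SpecDense

universe u

variable {G : Type u} [Group G]

private theorem caseA_exp {x : ℝ} (hx : 0 ≤ x) : |Real.exp (-x) - (1 - x + x ^ 2 / 2)| ≤ x ^ 3 := by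
  rcases le_or_gt x 1 with h | h
  · have hn : |(-x)| ≤ 1 := by rw [abs_neg, abs_of_nonneg hx]; exact h
    have h1 := Real.exp_bound hn (n := 3) (by norm_num)
    have e : ∑ m ∈ Finset.range 3, (-x) ^ m / (m.factorial : ℝ) = 1 - x + x ^ 2 / 2 := by
      simp only [Finset.sum_range_succ, Finset.sum_range_zero, Nat.factorial]
      push_cast
      ring
    rw [e, abs_neg, abs_of_nonneg hx] at h1
    refine h1.trans ?_
    have h3 : 0 ≤ x ^ 3 := by positivity
    have h4 : (((Nat.succ 3 : ℕ) : ℝ) / (((Nat.factorial 3 : ℕ) : ℝ) * ((3 : ℕ) : ℝ))) ≤ 1 := by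
      norm_num [Nat.factorial]
    nlinarith
  · have h1 : 0 < Real.exp (-x) := Real.exp_pos _
    have h2 : Real.exp (-x) ≤ 1 := Real.exp_le_one_iff.2 (by linarith)
    have h3 : x ^ 2 ≤ x ^ 3 := by nlinarith [sq_nonneg x]
    have h4 : x ≤ x ^ 2 := by nlinarith
    rw [abs_le]
    constructor <;> nlinarith

private theorem caseA_ev_const (W : Walk G) (p : Polynomial ℝ) :
    W.ev p (fun _ => 1) = p.eval 0 := by
  have h0 : W.DR (fun _ => 1) = 0 := by
    funext g
    rw [Walk.DR_apply, W.E_const, sub_self]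
    rfl
  have h1 : W.ev (p.divX * Polynomial.X) (fun _ => 1) = 0 := by
    rw [W.ev_mul_X, h0]
    unfold Walk.ev
    rw [map_zero]
    rfl
  have h2 : W.ev (Polynomial.C (p.coeff 0)) (fun _ => 1) = p.coeff 0 := by
    have h3 := W.ev_C_mul (p.coeff 0) 1 (fun _ => 1)
    rw [mul_one, W.ev_one, mul_one] at h3
    exact h3
  have h4 : p.divX * Polynomial.X + Polynomial.C (p.coeff 0) = p := Polynomial.divX_mul_X_add p
  calc W.ev p (fun _ => 1) = W.ev (p.divX * Polynomial.X + Polynomial.C (p.coeff 0)) (fun _ => 1) := by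
        rw [h4]
    _ = p.coeff 0 := by rw [W.ev_add_left, h1, h2, zero_add]
    _ = p.eval 0 := Polynomial.coeff_zero_eq_eval_zero p

private theorem caseA_DLDR (W : Walk G) {N : G → ℝ} (hN : NData W N) (g : G) :
    W.DL (W.DR (fun g => N g ^ 2 / 8)) g =
      1 + (1 / 2) * W.E (fun s' => W.E (fun s => cr N (g, s') (1, s) ^ 2)) := by
  rw [Walk.DL_DR_apply]
  obtain ⟨B, hB⟩ : ∃ B : G → G → ℝ, B = fun s s' => cr N (1, s⁻¹) (g, s') := ⟨_, rfl⟩
  have hBs : ∀ s s', N (s * g * s') = N (s * g) + N (g * s') - N g - 2 * B s s' := by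
    intro s s'
    have := second_diff N s g s'
    rw [hB]
    linarith
  -- averages
  have hB1 : ∀ s, W.E (fun s' => B s s') = 0 := fun s => by
    rw [hB]
    exact cr_harm hN (1, s⁻¹) g
  have hB2 : ∀ s', W.E (fun s => B s s') = 0 := fun s' => by
    have h1 : W.E (fun s => N (s * (g * s'))) =
        W.E (fun s => (N (s * g) + (N (g * s') - N g)) - 2 * B s s') := by
      apply W.E_congr
      intro s _
      rw [← mul_assoc, hBs]
      ring
    rw [N_harm_left hN, W.E_sub, W.E_add, W.E_const, N_harm_left hN, W.E_mul] at h1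
    linarith
  have hA : W.E (fun s => N (s * g) - N g) = 2 := by
    rw [W.E_sub, N_harm_left hN, W.E_const]
    ring
  have hC : W.E (fun s' => N (g * s') - N g) = 2 := by
    rw [W.E_sub, hN.harm, W.E_const]
    ring
  have e1 : ∀ s s', N g ^ 2 / 8 - N (s * g) ^ 2 / 8 - N (g * s') ^ 2 / 8 +
      N (s * g * s') ^ 2 / 8 =
      (1 / 4) * ((N (s * g) - N g) * (N (g * s') - N g)) +
      (-(1 / 2) * N g - (1 / 2) * (N (s * g) - N g)) * B s s' +
      (-(1 / 2)) * ((N (g * s') - N g) * B s s') + (1 / 2) * B s s' ^ 2 := by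
    intro s s'
    rw [hBs]
    ring
  have e2 : W.E (fun s => W.E (fun s' => N g ^ 2 / 8 - N (s * g) ^ 2 / 8 - N (g * s') ^ 2 / 8 +
      N (s * g * s') ^ 2 / 8)) =
      W.E (fun s => W.E (fun s' => (1 / 4) * ((N (s * g) - N g) * (N (g * s') - N g)) +
      (-(1 / 2) * N g - (1 / 2) * (N (s * g) - N g)) * B s s' +
      (-(1 / 2)) * ((N (g * s') - N g) * B s s') + (1 / 2) * B s s' ^ 2)) :=
    W.E_congr fun s _ => W.E_congr fun s' _ => e1 s s'
  rw [e2]
  have e3 : ∀ s, W.E (fun s' => (1 / 4) * ((N (s * g) - N g) * (N (g * s') - N g)) +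
      (-(1 / 2) * N g - (1 / 2) * (N (s * g) - N g)) * B s s' +
      (-(1 / 2)) * ((N (g * s') - N g) * B s s') + (1 / 2) * B s s' ^ 2) =
      (1 / 2) * (N (s * g) - N g) + (-(1 / 2)) * W.E (fun s' => (N (g * s') - N g) * B s s') +
      (1 / 2) * W.E (fun s' => B s s' ^ 2) := by
    intro s
    rw [W.E_add, W.E_add, W.E_add, W.E_mul, W.E_mul, W.E_mul, W.E_mul, W.E_mul, hC, hB1]
    ring
  rw [W.E_congr (fun s _ => e3 s), W.E_add, W.E_add, W.E_mul, W.E_mul, W.E_mul, hA]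
  have e4 : W.E (fun s => W.E (fun s' => (N (g * s') - N g) * B s s')) = 0 := by
    rw [W.E_E_comm (fun s s' => (N (g * s') - N g) * B s s')]
    have e5 : ∀ s', W.E (fun s => (N (g * s') - N g) * B s s') = 0 := fun s' => by
      rw [W.E_mul, hB2, mul_zero]
    rw [W.E_congr (fun s' _ => e5 s'), W.E_const]
  have e6 : W.E (fun s => W.E (fun s' => B s s' ^ 2)) =
      W.E (fun s' => W.E (fun s => cr N (g, s') (1, s) ^ 2)) := by
    rw [W.E_E_comm (fun s s' => B s s' ^ 2)]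
    apply W.E_congr
    intro s' _
    rw [← W.E_inv (fun s => cr N (g, s') (1, s) ^ 2)]
    apply W.E_congr
    intro s _
    rw [hB, cr_comm hN]
  rw [e4, e6]
  ring

theorem caseA (W : Walk G) (hF : Folner G) {N : G → ℝ} (hN : NData W N)
    (hA : ∀ η : ℝ, 0 < η → ∃ q : Polynomial ℝ, q.eval 0 = 1 ∧
      W.ev (q ^ 2) (fun g => W.E (fun s' => W.E (fun s => cr N (g, s') (1, s) ^ 2))) ≤ η) :
    W.DenseTop := by
  refine key W hF (fun t g => Real.exp (-(t / 2 * N g))) (fun g => N g / 2) (fun g => N g ^ 2 / 8) 1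
    one_pos ?_ ?_ ?_ ?_ ?_
  · intro t ht _
    exact hN.exp_pd (t / 2) (by linarith)
  · intro t _ _
    simp only [hN.one, mul_zero, neg_zero, Real.exp_zero]
  · intro g
    refine ⟨(N g / 2) ^ 3, fun t ht _ => ?_⟩
    have h0 : 0 ≤ t / 2 * N g := mul_nonneg (by linarith) (hN.nonneg g)
    have h1 := caseA_exp h0
    have e1 : 1 - t * (N g / 2) + t ^ 2 * (N g ^ 2 / 8) =
        1 - t / 2 * N g + (t / 2 * N g) ^ 2 / 2 := by ring
    have e2 : (N g / 2) ^ 3 * t ^ 3 = (t / 2 * N g) ^ 3 := by ring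
    show |Real.exp (-(t / 2 * N g)) - (1 - t * (N g / 2) + t ^ 2 * (N g ^ 2 / 8))| ≤ _
    rw [e1, e2]
    exact h1
  · intro g
    rw [Walk.DR_apply]
    have h1 : W.E (fun s => N (g * s) / 2) = W.E (fun s => (1 / 2) * N (g * s)) :=
      W.E_congr fun s _ => by ring
    rw [h1, W.E_mul, hN.harm]
    ring
  · intro η hη
    obtain ⟨q, hq0, hq⟩ := hA η hη
    refine ⟨q, hq0, ?_⟩
    rw [Walk.ev_mul_X_sq]
    have h1 : W.DL (W.DR (fun g => N g ^ 2 / 8)) = (fun _ => (1 : ℝ)) +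
        (1 / 2 : ℝ) • (fun g => W.E (fun s' => W.E (fun s => cr N (g, s') (1, s) ^ 2))) := by
      funext g
      rw [caseA_DLDR W hN, Pi.add_apply, Pi.smul_apply, smul_eq_mul]
    rw [h1, W.ev_add_right, W.ev_smul_right, caseA_ev_const, Polynomial.eval_pow, hq0]
    linarith

end Pool.SpecDense
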