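import Pool.Agent.Lib.MP_863a8d_al.CaseB1

/-!
# JOB CASEB2: the fourth order term

`gamma_two`: by `DL_DR_apply` and invariance (`h ↦ s h` in the terms with `s g`): for fixed `h` put
`y = be h g`, `A s = be h s⁻¹`, `C s' = be (g⁻¹ h) s'`. One has `be (s h) (s g) = y - A s`,
`be h (g s') = y + C s'`, `be (s h) (s g s') = y - A s + C s'`, `E A = E C = 0` and
`E E [y⁴ - (y - A)⁴ - (y + C)⁴ + (y - A + C)⁴] = 6 E A² E C²` with `E A² = fB h` (`E_inv`),
`E C² = fB (g⁻¹ h)` (`cr_act`).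
`rho_step`: `DR (g ↦ m (h ↦ f h * f' (g⁻¹ h))) = (g ↦ m (h ↦ f h * (DL f') (g⁻¹ h)))` (`E_inv`), then
induction on the polynomial. `gamma_ev`: `ev_mul_X_sq`, `gamma_two`, `rho_step` and
`IsMean.mul_aeval_DL`.
-/

set_option autoImplicit false

open Filter Topology

namespace Pool.SpecDense

universe u

variable {G : Type u} [Group G] {W : Walk G} {N : G → ℝ}

private theorem caseB2_E_E_poly (hN : NData W N) (s₀ h g : G) :
    W.E (fun s => W.E (fun s' => be N s₀ h g ^ 4 - (be N s₀ h g - be N s₀ h s⁻¹) ^ 4 -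
      (be N s₀ h g + be N s₀ (g⁻¹ * h) s') ^ 4 +
      (be N s₀ h g - be N s₀ h s⁻¹ + be N s₀ (g⁻¹ * h) s') ^ 4)) =
      6 * (fB W N s₀ h * fB W N s₀ (g⁻¹ * h)) := by
  obtain ⟨y, hy⟩ : ∃ y, be N s₀ h g = y := ⟨_, rfl⟩
  rw [hy]
  have hC : W.E (fun s' => be N s₀ (g⁻¹ * h) s') = 0 := be_harm hN s₀ _
  have hA : W.E (fun s => be N s₀ h s⁻¹) = 0 := by
    rw [W.E_inv (fun s => be N s₀ h s)]
    exact be_harm hN s₀ h
  have hC2 : W.E (fun s' => be N s₀ (g⁻¹ * h) s' ^ 2) = fB W N s₀ (g⁻¹ * h) := rfl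
  have hA2 : W.E (fun s => be N s₀ h s⁻¹ ^ 2) = fB W N s₀ h := by
    rw [W.E_inv (fun s => be N s₀ h s ^ 2)]
    rfl
  have h1 : ∀ s : G, W.E (fun s' => y ^ 4 - (y - be N s₀ h s⁻¹) ^ 4 -
      (y + be N s₀ (g⁻¹ * h) s') ^ 4 +
      (y - be N s₀ h s⁻¹ + be N s₀ (g⁻¹ * h) s') ^ 4) =
      (6 * fB W N s₀ (g⁻¹ * h)) * be N s₀ h s⁻¹ ^ 2 +
        (-12 * y * fB W N s₀ (g⁻¹ * h) - 4 * W.E (fun s' => be N s₀ (g⁻¹ * h) s' ^ 3)) *
          be N s₀ h s⁻¹ := by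
    intro s
    obtain ⟨a, ha⟩ : ∃ a, be N s₀ h s⁻¹ = a := ⟨_, rfl⟩
    rw [ha]
    have h2 : W.E (fun s' => y ^ 4 - (y - a) ^ 4 -
        (y + be N s₀ (g⁻¹ * h) s') ^ 4 + (y - a + be N s₀ (g⁻¹ * h) s') ^ 4) =
        W.E (fun s' => (4 * ((y - a) ^ 3 - y ^ 3)) * be N s₀ (g⁻¹ * h) s' +
          ((6 * ((y - a) ^ 2 - y ^ 2)) * be N s₀ (g⁻¹ * h) s' ^ 2 +
          (-4 * a) * be N s₀ (g⁻¹ * h) s' ^ 3)) :=
      W.E_congr fun s' _ => by ring
    rw [h2, W.E_add, W.E_add, W.E_mul, W.E_mul, W.E_mul, hC, hC2]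
    ring
  rw [W.E_congr (fun s _ => h1 s), W.E_add, W.E_mul, W.E_mul, hA, hA2]
  ring

theorem gamma_two (hN : NData W N) {m : (G → ℝ) → ℝ} (hm : IsMean m) (s₀ g : G) :
    W.DL (W.DR (fun g => m (fun h => be N s₀ h g ^ 4) / 24)) g =
      m (fun h => fB W N s₀ h * fB W N s₀ (g⁻¹ * h)) / 4 := by
  rw [Walk.DL_DR_apply]
  have hinv : ∀ h s : G, be N s₀ (s * h) s = -be N s₀ h s⁻¹ := by
    intro h s
    have h1 := be_sub N s₀ h s 1
    rw [mul_one, be_one, zero_sub] at h1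
    rw [h1, neg_neg]
  have b1 : ∀ g : G, Bdd (fun h => be N s₀ h g) := be_bdd hN s₀
  -- the terms
  have e1 : ∀ s : G, m (fun h => be N s₀ h (s * g) ^ 4) =
      m (fun h => (be N s₀ h g - be N s₀ h s⁻¹) ^ 4) := by
    intro s
    rw [← hm.inv s (fun h => be N s₀ h (s * g) ^ 4) ((b1 _).pow 4)]
    congr 1
    funext h
    rw [be_mul, inv_mul_cancel_left, hinv]
    ring
  have e2 : ∀ s' : G, m (fun h => be N s₀ h (g * s') ^ 4) =
      m (fun h => (be N s₀ h g + be N s₀ (g⁻¹ * h) s') ^ 4) := by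
    intro s'
    congr 1
    funext h
    rw [be_mul]
  have e3 : ∀ s s' : G, m (fun h => be N s₀ h (s * g * s') ^ 4) =
      m (fun h => (be N s₀ h g - be N s₀ h s⁻¹ + be N s₀ (g⁻¹ * h) s') ^ 4) := by
    intro s s'
    rw [← hm.inv s (fun h => be N s₀ h (s * g * s') ^ 4) ((b1 _).pow 4)]
    congr 1
    funext h
    rw [be_mul, be_mul, inv_mul_cancel_left, hinv, mul_inv_rev,
      show g⁻¹ * s⁻¹ * (s * h) = g⁻¹ * h by group]
    ring
  have c0 : Bdd (fun h => be N s₀ h g ^ 4) := (b1 g).pow 4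
  have c1 : ∀ s : G, Bdd (fun h => (be N s₀ h g - be N s₀ h s⁻¹) ^ 4) :=
    fun s => ((b1 g).sub (b1 _)).pow 4
  have bC : ∀ s' : G, Bdd (fun h => be N s₀ (g⁻¹ * h) s') :=
    fun s' => (b1 s').comp (fun h => g⁻¹ * h)
  have c2 : ∀ s' : G, Bdd (fun h => (be N s₀ h g + be N s₀ (g⁻¹ * h) s') ^ 4) :=
    fun s' => ((b1 g).add (bC s')).pow 4
  have c3 : ∀ s s' : G,
      Bdd (fun h => (be N s₀ h g - be N s₀ h s⁻¹ + be N s₀ (g⁻¹ * h) s') ^ 4) :=
    fun s s' => (((b1 g).sub (b1 _)).add (bC s')).pow 4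
  have c4 : ∀ s s' : G, Bdd (fun h => be N s₀ h g ^ 4 - (be N s₀ h g - be N s₀ h s⁻¹) ^ 4 -
      (be N s₀ h g + be N s₀ (g⁻¹ * h) s') ^ 4 +
      (be N s₀ h g - be N s₀ h s⁻¹ + be N s₀ (g⁻¹ * h) s') ^ 4) :=
    fun s s' => ((c0.sub (c1 s)).sub (c2 s')).add (c3 s s')
  have e4 : ∀ s s' : G, m (fun h => be N s₀ h g ^ 4) / 24 - m (fun h => be N s₀ h (s * g) ^ 4) / 24 -
      m (fun h => be N s₀ h (g * s') ^ 4) / 24 + m (fun h => be N s₀ h (s * g * s') ^ 4) / 24 =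
      (1 / 24) * m (fun h => be N s₀ h g ^ 4 - (be N s₀ h g - be N s₀ h s⁻¹) ^ 4 -
      (be N s₀ h g + be N s₀ (g⁻¹ * h) s') ^ 4 +
      (be N s₀ h g - be N s₀ h s⁻¹ + be N s₀ (g⁻¹ * h) s') ^ 4) := by
    intro s s'
    rw [e1, e2, e3, hm.add _ _ ((c0.sub (c1 s)).sub (c2 s')) (c3 s s'),
      hm.sub (c0.sub (c1 s)) (c2 s'), hm.sub c0 (c1 s)]
    ring
  have e5 : W.E (fun s => W.E (fun s' =>
      m (fun h => be N s₀ h g ^ 4) / 24 - m (fun h => be N s₀ h (s * g) ^ 4) / 24 -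
      m (fun h => be N s₀ h (g * s') ^ 4) / 24 + m (fun h => be N s₀ h (s * g * s') ^ 4) / 24)) =
      (1 / 24) * m (fun h => W.E (fun s => W.E (fun s' =>
        be N s₀ h g ^ 4 - (be N s₀ h g - be N s₀ h s⁻¹) ^ 4 -
        (be N s₀ h g + be N s₀ (g⁻¹ * h) s') ^ 4 +
        (be N s₀ h g - be N s₀ h s⁻¹ + be N s₀ (g⁻¹ * h) s') ^ 4))) := by
    rw [hm.E W (F := fun s h => W.E (fun s' =>
        be N s₀ h g ^ 4 - (be N s₀ h g - be N s₀ h s⁻¹) ^ 4 -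
        (be N s₀ h g + be N s₀ (g⁻¹ * h) s') ^ 4 +
        (be N s₀ h g - be N s₀ h s⁻¹ + be N s₀ (g⁻¹ * h) s') ^ 4))
        (fun s _ => Bdd.E W (F := fun s' h => be N s₀ h g ^ 4 -
          (be N s₀ h g - be N s₀ h s⁻¹) ^ 4 -
          (be N s₀ h g + be N s₀ (g⁻¹ * h) s') ^ 4 +
          (be N s₀ h g - be N s₀ h s⁻¹ + be N s₀ (g⁻¹ * h) s') ^ 4) (fun s' _ => c4 s s')),
      ← W.E_mul]
    apply W.E_congr
    intro s _
    rw [hm.E W (F := fun s' h => be N s₀ h g ^ 4 -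
          (be N s₀ h g - be N s₀ h s⁻¹) ^ 4 -
          (be N s₀ h g + be N s₀ (g⁻¹ * h) s') ^ 4 +
          (be N s₀ h g - be N s₀ h s⁻¹ + be N s₀ (g⁻¹ * h) s') ^ 4) (fun s' _ => c4 s s'),
      ← W.E_mul]
    apply W.E_congr
    intro s' _
    exact e4 s s'
  rw [e5]
  have e6 : (fun h => W.E (fun s => W.E (fun s' =>
        be N s₀ h g ^ 4 - (be N s₀ h g - be N s₀ h s⁻¹) ^ 4 -
        (be N s₀ h g + be N s₀ (g⁻¹ * h) s') ^ 4 +
        (be N s₀ h g - be N s₀ h s⁻¹ + be N s₀ (g⁻¹ * h) s') ^ 4))) =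
      fun h => 6 * (fB W N s₀ h * fB W N s₀ (g⁻¹ * h)) := by
    funext h
    exact caseB2_E_E_poly hN s₀ h g
  rw [e6, hm.mul _ _ ((fB_bdd hN s₀).mul ((fB_bdd hN s₀).comp _))]
  ring

private theorem caseB2_rho_one {m : (G → ℝ) → ℝ} (hm : IsMean m) {f f' : G → ℝ} (hf : Bdd f)
    (hf' : Bdd f') : W.DR (fun g => m (fun h => f h * f' (g⁻¹ * h))) =
      fun g => m (fun h => f h * W.DL f' (g⁻¹ * h)) := by
  funext g
  rw [Walk.DR_apply]
  have b0 : Bdd (fun h => f h * f' (g⁻¹ * h)) := hf.mul (hf'.comp _)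
  have b1 : ∀ s : G, Bdd (fun h => f h * f' (s * (g⁻¹ * h))) :=
    fun s => hf.mul (hf'.comp (fun h => s * (g⁻¹ * h)))
  have h1 : W.E (fun s => m (fun h => f h * f' ((g * s)⁻¹ * h))) =
      W.E (fun s => m (fun h => f h * f' (s * (g⁻¹ * h)))) := by
    rw [← W.E_inv (fun s => m (fun h => f h * f' (s * (g⁻¹ * h))))]
    apply W.E_congr
    intro s _
    congr 1
    funext h
    rw [mul_inv_rev, mul_assoc]
  rw [h1, ← hm.E W (F := fun s h => f h * f' (s * (g⁻¹ * h))) (fun s _ => b1 s),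
    ← hm.sub b0 (Bdd.E W (F := fun s h => f h * f' (s * (g⁻¹ * h))) (fun s _ => b1 s))]
  congr 1
  funext h
  rw [Walk.DL_apply, W.E_mul]
  ring

theorem rho_step {m : (G → ℝ) → ℝ} (hm : IsMean m) {f f' : G → ℝ} (hf : Bdd f) (hf' : Bdd f')
    (p : Polynomial ℝ) :
    Polynomial.aeval W.DR p (fun g => m (fun h => f h * f' (g⁻¹ * h))) =
      fun g => m (fun h => f h * Polynomial.aeval W.DL p f' (g⁻¹ * h)) := by
  induction p using Polynomial.induction_on' with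
  | add p q hp hq =>
      rw [map_add, LinearMap.add_apply, hp, hq]
      funext g
      rw [Pi.add_apply, ← hm.add _ _ (hf.mul ((hf'.aeval_DL W p).comp _))
        (hf.mul ((hf'.aeval_DL W q).comp _))]
      congr 1
      funext h
      rw [map_add, LinearMap.add_apply, Pi.add_apply]
      ring
  | monomial n a =>
      have hn : ∀ n : ℕ, Bdd ((W.DL ^ n) f') ∧
          (W.DR ^ n) (fun g => m (fun h => f h * f' (g⁻¹ * h))) =
          fun g => m (fun h => f h * (W.DL ^ n) f' (g⁻¹ * h)) := by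
        intro n
        induction n with
        | zero =>
            simp only [pow_zero, Module.End.one_apply]
            exact ⟨hf', trivial⟩
        | succ n ih =>
            obtain ⟨ih1, ih2⟩ := ih
            have e1 : (W.DL ^ (n + 1)) f' = W.DL ((W.DL ^ n) f') := by
              rw [pow_succ', Module.End.mul_apply]
            have e2 : (W.DR ^ (n + 1)) (fun g => m (fun h => f h * f' (g⁻¹ * h))) =
                W.DR ((W.DR ^ n) (fun g => m (fun h => f h * f' (g⁻¹ * h)))) := by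
              rw [pow_succ', Module.End.mul_apply]
            refine ⟨by rw [e1]; exact ih1.DL W, ?_⟩
            rw [e2, ih2, caseB2_rho_one hm hf ih1, e1]
      obtain ⟨h1, h2⟩ := hn n
      rw [Polynomial.aeval_monomial, Polynomial.aeval_monomial, Module.End.mul_apply,
        Module.End.mul_apply, h2]
      funext g
      rw [Module.algebraMap_end_apply, Pi.smul_apply, smul_eq_mul,
        ← hm.mul _ _ (hf.mul (h1.comp _))]
      congr 1
      funext h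
      rw [Module.algebraMap_end_apply, Pi.smul_apply, smul_eq_mul]
      ring

theorem gamma_ev (hN : NData W N) {m : (G → ℝ) → ℝ} (hm : IsMean m) (s₀ : G) (q : Polynomial ℝ) :
    W.ev (q ^ 2 * Polynomial.X ^ 2) (fun g => m (fun h => be N s₀ h g ^ 4) / 24) =
      m (fun h => (Polynomial.aeval W.DL q (fB W N s₀) h) ^ 2) / 4 := by
  rw [Walk.ev_mul_X_sq]
  have h1 : W.DL (W.DR (fun g => m (fun h => be N s₀ h g ^ 4) / 24)) =
      (1 / 4 : ℝ) • (fun g => m (fun h => fB W N s₀ h * fB W N s₀ (g⁻¹ * h))) := by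
    funext g
    rw [gamma_two hN hm, Pi.smul_apply, smul_eq_mul]
    ring
  rw [h1, Walk.ev_smul_right]
  unfold Walk.ev
  rw [rho_step hm (fB_bdd hN s₀) (fB_bdd hN s₀)]
  simp only [inv_one, one_mul]
  rw [hm.mul_aeval_DL W (fB_bdd hN s₀) q]
  ring

end Pool.SpecDense
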