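import Pool.Agent.Lib.MP_863a8d_al.Key
import Pool.Agent.Lib.MP_863a8d_al.CaseB2

/-!
# JOB CASEB: the compact case

Let `m` be an invariant mean. For every `η > 0`, with `q` from `hB` and `Z_s' = q(DL) (fB s')`:
`m (fB s') = m (Z_s') ≥ Z_s' 1 - η N s'` (`IsMean.aeval_DL`, `IsMean.mono`), so
`E s' ↦ m (fB s') ≥ θ - η E N = θ - 2 η` for all `η` (`NData.harm` at `1`), and there is `s₀ ∈ S` with
`Q = m (fB s₀) ≥ θ > 0`.
Apply `key` with `Φ t g = m (cos (sqrt t be h g))`, `a = Q / 2`, `α`, `γ` as in CaseB1; condition on `γ`: by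
`gamma_ev`, `ev (q² X²) γ = m (Z²) / 4`, `m Z = Q`, `|Z h - Z 1| ≤ η' N s₀` so `|Z h - Q| ≤ 2 η' N s₀` and
`m (Z²) = Q² + m ((Z - Q)²) ≤ Q² + 4 η'² (N s₀)²`.
-/

set_option autoImplicit false

open Filter Topology

namespace Pool.SpecDense

universe u

variable {G : Type u} [Group G]

theorem caseB (W : Walk G) (hF : Folner G) {N : G → ℝ} (hN : NData W N)
    (hB : ∃ θ : ℝ, 0 < θ ∧ ∀ η : ℝ, 0 < η → ∃ q : Polynomial ℝ, q.eval 0 = 1 ∧
      θ ≤ W.E (fun s' => Polynomial.aeval W.DL q (fB W N s') 1) ∧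
      ∀ (s' h : G), |Polynomial.aeval W.DL q (fB W N s') h -
        Polynomial.aeval W.DL q (fB W N s') 1| ≤ η * N s') : W.DenseTop := by
  obtain ⟨m, hm⟩ := exists_mean hF
  obtain ⟨θ, hθ, hB⟩ := hB
  have hmZ : ∀ (q : Polynomial ℝ) (s' : G), q.eval 0 = 1 →
      m (Polynomial.aeval W.DL q (fB W N s')) = m (fB W N s') := by
    intro q s' hq
    rw [hm.aeval_DL W (fB_bdd hN s') q, hq, one_mul]
  -- the sum of the means
  have hEN : W.E N = 2 := by
    have h := hN.harm 1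
    simp only [one_mul, hN.one, zero_add] at h
    exact h
  have hsum : θ ≤ W.E (fun s' => m (fB W N s')) := by
    apply le_of_forall_pos_le_add
    intro ε hε
    obtain ⟨q, hq0, hq1, hq2⟩ := hB (ε / 2) (by linarith)
    have h1 : W.E (fun s' => Polynomial.aeval W.DL q (fB W N s') 1) ≤
        W.E (fun s' => m (fB W N s') + ε / 2 * N s') := by
      apply W.E_mono
      intro s' _
      have h2 : m (fun _ => Polynomial.aeval W.DL q (fB W N s') 1 - ε / 2 * N s') ≤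
          m (Polynomial.aeval W.DL q (fB W N s')) := by
        apply hm.mono (Bdd.const _) ((fB_bdd hN s').aeval_DL W q)
        intro h
        have h3 := (abs_le.1 (hq2 s' h)).1
        linarith
      rw [hm.const, hmZ q s' hq0] at h2
      linarith
    rw [W.E_add, W.E_mul, hEN] at h1
    linarith
  obtain ⟨s₀, hs₀⟩ : ∃ s₀ : G, 0 < m (fB W N s₀) := by
    by_contra hcon
    push Not at hcon
    have h1 : W.E (fun s' => m (fB W N s')) ≤ W.E (fun _ => 0) := W.E_mono fun s' _ => hcon s'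
    rw [W.E_const] at h1
    linarith
  obtain ⟨Q, hQ⟩ : ∃ Q, m (fB W N s₀) = Q := ⟨_, rfl⟩
  rw [hQ] at hs₀
  refine key W hF (fun t g => m (fun h => Real.cos (Real.sqrt t * be N s₀ h g)))
    (fun g => m (fun h => be N s₀ h g ^ 2) / 2) (fun g => m (fun h => be N s₀ h g ^ 4) / 24)
    (Q / 2) (by linarith) ?_ ?_ ?_ ?_ ?_
  · intro t _ _
    exact psi_pd hN hm s₀ t
  · intro t _ _
    exact psi_one N hm s₀ t
  · intro g
    exact psi_exp hN hm s₀ g
  · intro g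
    rw [alpha_harm hN hm, hQ]
  · intro η hη
    have hNs : 0 ≤ N s₀ := hN.nonneg s₀
    obtain ⟨η', hη', hη2⟩ : ∃ η' : ℝ, 0 < η' ∧ (η' * N s₀) ^ 2 ≤ η := by
      refine ⟨Real.sqrt η / (N s₀ + 1), by positivity, ?_⟩
      have h1 : Real.sqrt η / (N s₀ + 1) * N s₀ ≤ Real.sqrt η := by
        rw [div_mul_eq_mul_div, div_le_iff₀ (by linarith)]
        have := Real.sqrt_nonneg η
        nlinarith
      calc (Real.sqrt η / (N s₀ + 1) * N s₀) ^ 2 ≤ Real.sqrt η ^ 2 :=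
            pow_le_pow_left₀ (by positivity) h1 2
        _ = η := Real.sq_sqrt hη.le
    obtain ⟨q, hq0, -, hq2⟩ := hB η' hη'
    refine ⟨q, hq0, ?_⟩
    rw [gamma_ev hN hm]
    obtain ⟨Z, hZ⟩ : ∃ Z, Polynomial.aeval W.DL q (fB W N s₀) = Z := ⟨_, rfl⟩
    have hZb : Bdd Z := hZ ▸ (fB_bdd hN s₀).aeval_DL W q
    have hmQ : m Z = Q := by rw [← hZ, hmZ q s₀ hq0, hQ]
    rw [hZ]
    have hZ1 : ∀ h, |Z h - Z 1| ≤ η' * N s₀ := fun h => by
      have := hq2 s₀ h
      rwa [hZ] at this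
    have hQ1 : |Q - Z 1| ≤ η' * N s₀ := by
      have h1 : m (fun h => Z h - Z 1) = Q - Z 1 := by
        rw [hm.sub hZb (Bdd.const _), hm.const, hmQ]
      rw [← h1]
      exact hm.abs_le (hZb.sub (Bdd.const _)) hZ1
    have hZQ : ∀ h, |(Z h - Q) ^ 2| ≤ (2 * (η' * N s₀)) ^ 2 := by
      intro h
      rw [abs_pow]
      apply pow_le_pow_left₀ (abs_nonneg _)
      calc |Z h - Q| = |(Z h - Z 1) - (Q - Z 1)| := by congr 1; ring
        _ ≤ |Z h - Z 1| + |Q - Z 1| := abs_sub _ _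
        _ ≤ 2 * (η' * N s₀) := by linarith [hZ1 h]
    have hZQb : Bdd (fun h => Z h - Q) := hZb.sub (Bdd.const _)
    have h5 : m (fun h => (Z h - Q) ^ 2) ≤ (2 * (η' * N s₀)) ^ 2 :=
      (le_abs_self _).trans (hm.abs_le (hZQb.pow 2) hZQ)
    have h6 : m (fun h => Z h ^ 2) = Q ^ 2 + m (fun h => (Z h - Q) ^ 2) := by
      have e1 : (fun h => Z h ^ 2) = fun h => ((Z h - Q) ^ 2 + 2 * Q * Z h) - Q ^ 2 := by
        funext h
        ring
      rw [e1, hm.sub ((hZQb.pow 2).add (hZb.const_mul _)) (Bdd.const _), hm.const,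
        hm.add _ _ (hZQb.pow 2) (hZb.const_mul _), hm.mul _ _ hZb, hmQ]
      ring
    rw [h6]
    nlinarith

end Pool.SpecDense
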