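import Pool.Agent.Lib.MP_863a8d_al.Defs

/-!
# JOB MEAN: invariant means and their properties

`exists_mean`: let `F i` (`i : Finset G × ℕ`) be a Folner set for `(K, 1/(n+1))`; for bounded `f` the averages
`(∑ x ∈ F i, f x) / #(F i)` have a limit along an ultrafilter finer than `atTop`
(`limUnder`); invariance: `∑_{x ∈ F} f (g x) - ∑_{x ∈ F} f x` is bounded by `2 sup|f| #(gF \ F)`.
The other lemmas are formal. `m_mul_DL`: `m (f · f'(s ·)) = m (f(s⁻¹ ·) · f')` and `W.E_inv`.
-/

set_option autoImplicit false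

open Filter Topology

namespace Pool.SpecDense

universe u

/-- Bounded real functions. -/
def Bdd {G : Type u} (f : G → ℝ) : Prop := ∃ C : ℝ, ∀ x, |f x| ≤ C

/-- Left invariant means. -/
structure IsMean {G : Type u} [Group G] (m : (G → ℝ) → ℝ) : Prop where
  add : ∀ f f', Bdd f → Bdd f' → m (fun x => f x + f' x) = m f + m f'
  mul : ∀ (c : ℝ) (f : G → ℝ), Bdd f → m (fun x => c * f x) = c * m f
  one : m (fun _ => 1) = 1
  nonneg : ∀ f, Bdd f → (∀ x, 0 ≤ f x) → 0 ≤ m f
  inv : ∀ (g : G) (f : G → ℝ), Bdd f → m (fun x => f (g * x)) = m f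

variable {G : Type u} [Group G]

theorem exists_mean (hF : Folner G) : ∃ m : (G → ℝ) → ℝ, IsMean m := by
  classical
  have hF' : ∀ i : Finset G × ℕ, ∃ F : Finset G, F.Nonempty ∧
      ∀ k ∈ i.1, ((((fun x => k * x) '' (F : Set G)) \ (F : Set G)).ncard : ℝ) <
        (1 / ((i.2 : ℝ) + 1)) * (F.card : ℝ) := fun i => hF i.1 _ (by positivity)
  choose F hFne hFk using hF'
  have hcard : ∀ i, (0 : ℝ) < ((F i).card : ℝ) := fun i => by
    exact_mod_cast Finset.card_pos.2 (hFne i)
  let U : Ultrafilter (Finset G × ℕ) := Ultrafilter.of atTop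
  let avg : (G → ℝ) → (Finset G × ℕ) → ℝ := fun f i => (∑ x ∈ F i, f x) / ((F i).card : ℝ)
  have hbd : ∀ (f : G → ℝ) (C : ℝ), (∀ x, |f x| ≤ C) → ∀ i, |avg f i| ≤ C := by
    intro f C hC i
    have h1 : |∑ x ∈ F i, f x| ≤ C * ((F i).card : ℝ) := by
      calc |∑ x ∈ F i, f x| ≤ ∑ x ∈ F i, |f x| := Finset.abs_sum_le_sum_abs _ _
        _ ≤ ∑ x ∈ F i, C := Finset.sum_le_sum fun x _ => hC x
        _ = C * ((F i).card : ℝ) := by rw [Finset.sum_const, nsmul_eq_mul, mul_comm]
    change |(∑ x ∈ F i, f x) / ((F i).card : ℝ)| ≤ C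
    rw [abs_div, abs_of_pos (hcard i), div_le_iff₀ (hcard i)]
    exact h1
  have hlim : ∀ f : G → ℝ, Bdd f →
      Tendsto (avg f) (U : Filter (Finset G × ℕ)) (𝓝 (limUnder (U : Filter (Finset G × ℕ)) (avg f))) := by
    rintro f ⟨C, hC⟩
    apply tendsto_nhds_limUnder
    have hmem : Set.Icc (-C) C ∈ U.map (avg f) := by
      refine Filter.mem_map.2 (Filter.Eventually.of_forall fun i => ?_)
      exact abs_le.1 (hbd f C hC i)
    obtain ⟨a, -, ha⟩ := isCompact_Icc.ultrafilter_le_nhds' (U.map (avg f)) hmem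
    exact ⟨a, ha⟩
  refine ⟨fun f => limUnder (U : Filter (Finset G × ℕ)) (avg f), ?_, ?_, ?_, ?_, ?_⟩
  · intro f f' hf hf'
    have hb : Bdd (fun x => f x + f' x) := by
      obtain ⟨C, hC⟩ := hf
      obtain ⟨C', hC'⟩ := hf'
      exact ⟨C + C', fun x => (abs_add_le _ _).trans (add_le_add (hC x) (hC' x))⟩
    refine tendsto_nhds_unique (hlim _ hb) ?_
    refine ((hlim f hf).add (hlim f' hf')).congr fun i => ?_
    change (∑ x ∈ F i, f x) / ((F i).card : ℝ) + (∑ x ∈ F i, f' x) / ((F i).card : ℝ) =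
      (∑ x ∈ F i, (f x + f' x)) / ((F i).card : ℝ)
    rw [Finset.sum_add_distrib, add_div]
  · intro c f hf
    have hb : Bdd (fun x => c * f x) := by
      obtain ⟨C, hC⟩ := hf
      exact ⟨|c| * C, fun x => by rw [abs_mul]; exact mul_le_mul_of_nonneg_left (hC x) (abs_nonneg c)⟩
    refine tendsto_nhds_unique (hlim _ hb) ?_
    refine ((hlim f hf).const_mul c).congr fun i => ?_
    change c * ((∑ x ∈ F i, f x) / ((F i).card : ℝ)) = (∑ x ∈ F i, (c * f x)) / ((F i).card : ℝ)
    rw [← Finset.mul_sum, mul_div_assoc]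
  · have hb : Bdd (fun _ : G => (1 : ℝ)) := ⟨|1|, fun _ => le_refl _⟩
    refine tendsto_nhds_unique (hlim _ hb) ?_
    refine (tendsto_const_nhds (x := (1 : ℝ))).congr fun i => ?_
    change (1 : ℝ) = (∑ x ∈ F i, (1 : ℝ)) / ((F i).card : ℝ)
    rw [Finset.sum_const, nsmul_eq_mul, mul_one, div_self (hcard i).ne']
  · intro f hf h0
    refine ge_of_tendsto' (hlim f hf) fun i => ?_
    exact div_nonneg (Finset.sum_nonneg fun x _ => h0 x) (hcard i).le
  · intro g f hf
    have hb : Bdd (fun x => f (g * x)) := by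
      obtain ⟨C, hC⟩ := hf
      exact ⟨C, fun x => hC _⟩
    refine tendsto_nhds_unique (hlim _ hb) ?_
    obtain ⟨C, hC⟩ := hf
    have hC0 : 0 ≤ C := (abs_nonneg _).trans (hC 1)
    have hdiff : ∀ i : Finset G × ℕ, g ∈ i.1 →
        |avg (fun x => f (g * x)) i - avg f i| ≤ 2 * C * (1 / ((i.2 : ℝ) + 1)) := by
      intro i hg
      have hinj : Set.InjOn (fun x => g * x) (F i : Set G) := fun x _ y _ h => mul_left_cancel h
      set gF : Finset G := (F i).image (fun x => g * x) with hgF
      have hs1 : ∑ x ∈ F i, f (g * x) = ∑ y ∈ gF, f y := by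
        rw [hgF, Finset.sum_image hinj]
      have hc1 : gF.card = (F i).card := Finset.card_image_of_injOn hinj
      have hs2 : ∑ y ∈ gF, f y = ∑ y ∈ gF \ F i, f y + ∑ y ∈ gF ∩ F i, f y := by
        rw [← Finset.sum_sdiff (Finset.inter_subset_left : gF ∩ F i ⊆ gF), Finset.sdiff_inter_self_left]
      have hs3 : ∑ y ∈ F i, f y = ∑ y ∈ F i \ gF, f y + ∑ y ∈ gF ∩ F i, f y := by
        rw [← Finset.sum_sdiff (Finset.inter_subset_right : gF ∩ F i ⊆ F i),
          Finset.sdiff_inter_self_right]
      have hc2 : (F i \ gF).card = (gF \ F i).card := Finset.card_sdiff_comm hc1.symm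
      have hset : (((fun x => g * x) '' (F i : Set G)) \ (F i : Set G)) = ((gF \ F i : Finset G) : Set G) := by
        rw [Finset.coe_sdiff, hgF, Finset.coe_image]
      have hk := hFk i g hg
      rw [hset, Set.ncard_coe_finset] at hk
      have hb1 : ∀ T : Finset G, |∑ y ∈ T, f y| ≤ C * (T.card : ℝ) := by
        intro T
        calc |∑ x ∈ T, f x| ≤ ∑ x ∈ T, |f x| := Finset.abs_sum_le_sum_abs _ _
          _ ≤ ∑ x ∈ T, C := Finset.sum_le_sum fun x _ => hC x
          _ = C * (T.card : ℝ) := by rw [Finset.sum_const, nsmul_eq_mul, mul_comm]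
      have hb2 : |∑ x ∈ F i, f (g * x) - ∑ x ∈ F i, f x| ≤ 2 * C * ((gF \ F i).card : ℝ) := by
        rw [hs1, hs2, hs3]
        have e : ∑ y ∈ gF \ F i, f y + ∑ y ∈ gF ∩ F i, f y -
            (∑ y ∈ F i \ gF, f y + ∑ y ∈ gF ∩ F i, f y) =
            ∑ y ∈ gF \ F i, f y - ∑ y ∈ F i \ gF, f y := by ring
        rw [e]
        have h1 := hb1 (gF \ F i)
        have h2 := hb1 (F i \ gF)
        rw [hc2] at h2
        have h3 := abs_sub (∑ y ∈ gF \ F i, f y) (∑ y ∈ F i \ gF, f y)
        linarith
      change |(∑ x ∈ F i, f (g * x)) / ((F i).card : ℝ) - (∑ x ∈ F i, f x) / ((F i).card : ℝ)| ≤ _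
      rw [← sub_div, abs_div, abs_of_pos (hcard i), div_le_iff₀ (hcard i)]
      calc |∑ x ∈ F i, f (g * x) - ∑ x ∈ F i, f x| ≤ 2 * C * ((gF \ F i).card : ℝ) := hb2
        _ ≤ 2 * C * (1 / ((i.2 : ℝ) + 1) * ((F i).card : ℝ)) :=
            mul_le_mul_of_nonneg_left hk.le (by linarith)
        _ = 2 * C * (1 / ((i.2 : ℝ) + 1)) * ((F i).card : ℝ) := by ring
    have hUle : (U : Filter (Finset G × ℕ)) ≤ atTop := Ultrafilter.of_le atTop
    have hev : ∀ᶠ i : Finset G × ℕ in (U : Filter (Finset G × ℕ)), g ∈ i.1 := by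
      refine hUle ?_
      refine (eventually_ge_atTop (({g}, 0) : Finset G × ℕ)).mono fun i hi => ?_
      exact hi.1 (Finset.mem_singleton_self g)
    have hlim0 : Tendsto (fun i : Finset G × ℕ => 2 * C * (1 / ((i.2 : ℝ) + 1)))
        (U : Filter (Finset G × ℕ)) (𝓝 0) := by
      have h1 : Tendsto (fun i : Finset G × ℕ => i.2) (U : Filter (Finset G × ℕ)) atTop := by
        refine Tendsto.mono_left ?_ hUle
        rw [← prod_atTop_atTop_eq]
        exact tendsto_snd
      have h2 := (tendsto_one_div_add_atTop_nhds_zero_nat (𝕜 := ℝ)).comp h1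
      have h3 := h2.const_mul (2 * C)
      rw [mul_zero] at h3
      exact h3
    have hd0 : Tendsto (fun i => avg (fun x => f (g * x)) i - avg f i)
        (U : Filter (Finset G × ℕ)) (𝓝 0) :=
      squeeze_zero_norm' (hev.mono fun i hi => by rw [Real.norm_eq_abs]; exact hdiff i hi) hlim0
    have := hd0.add (hlim f ⟨C, hC⟩)
    rw [zero_add] at this
    exact this.congr fun i => sub_add_cancel _ _

theorem Bdd.add {f f' : G → ℝ} (h : Bdd f) (h' : Bdd f') : Bdd (fun x => f x + f' x) := by
  obtain ⟨C, hC⟩ := h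
  obtain ⟨C', hC'⟩ := h'
  exact ⟨C + C', fun x => (abs_add_le _ _).trans (add_le_add (hC x) (hC' x))⟩

theorem Bdd.sub {f f' : G → ℝ} (h : Bdd f) (h' : Bdd f') : Bdd (fun x => f x - f' x) := by
  obtain ⟨C, hC⟩ := h
  obtain ⟨C', hC'⟩ := h'
  exact ⟨C + C', fun x => (abs_sub _ _).trans (add_le_add (hC x) (hC' x))⟩

theorem Bdd.mul {f f' : G → ℝ} (h : Bdd f) (h' : Bdd f') : Bdd (fun x => f x * f' x) := by
  obtain ⟨C, hC⟩ := h
  obtain ⟨C', hC'⟩ := h'
  exact ⟨C * C', fun x => by
    rw [abs_mul]
    exact mul_le_mul (hC x) (hC' x) (abs_nonneg _) ((abs_nonneg _).trans (hC x))⟩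

theorem Bdd.pow {f : G → ℝ} (h : Bdd f) (n : ℕ) : Bdd (fun x => f x ^ n) := by
  obtain ⟨C, hC⟩ := h
  exact ⟨C ^ n, fun x => by
    rw [abs_pow]
    exact pow_le_pow_left₀ (abs_nonneg _) (hC x) n⟩

theorem Bdd.const_mul {f : G → ℝ} (h : Bdd f) (c : ℝ) : Bdd (fun x => c * f x) := by
  obtain ⟨C, hC⟩ := h
  exact ⟨|c| * C, fun x => by rw [abs_mul]; exact mul_le_mul_of_nonneg_left (hC x) (abs_nonneg c)⟩

theorem Bdd.const (c : ℝ) : Bdd (fun _ : G => c) := by
  exact ⟨|c|, fun _ => le_refl _⟩

theorem Bdd.comp {f : G → ℝ} (h : Bdd f) (e : G → G) : Bdd (fun x => f (e x)) := by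
  obtain ⟨C, hC⟩ := h
  exact ⟨C, fun x => hC _⟩

theorem Bdd.E (W : Walk G) {F : G → G → ℝ} (h : ∀ s ∈ W.S, Bdd (F s)) :
    Bdd (fun x => W.E (fun s => F s x)) := by
  classical
  choose! C hC using h
  refine ⟨W.E C, fun x => ?_⟩
  unfold Walk.E
  refine (Finset.abs_sum_le_sum_abs _ _).trans (Finset.sum_le_sum fun s hs => ?_)
  rw [abs_mul, abs_of_pos (W.pos s hs)]
  exact mul_le_mul_of_nonneg_left (hC s hs x) (W.pos s hs).le

theorem Bdd.DL (W : Walk G) {f : G → ℝ} (h : Bdd f) : Bdd (W.DL f) := by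
  have h1 : Bdd (fun x => W.E (fun s => f (s * x))) :=
    Bdd.E W (F := fun s x => f (s * x)) fun s _ => h.comp (fun x => s * x)
  exact h.sub h1

theorem Bdd.aeval_DL (W : Walk G) {f : G → ℝ} (h : Bdd f) (q : Polynomial ℝ) :
    Bdd (Polynomial.aeval W.DL q f) := by
  induction q using Polynomial.induction_on' with
  | add p q hp hq =>
      rw [map_add]
      exact hp.add hq
  | monomial n a =>
      rw [Polynomial.aeval_monomial]
      have h1 : ∀ k : ℕ, Bdd ((W.DL ^ k) f) := by
        intro k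
        induction k with
        | zero => exact h
        | succ k ih =>
            rw [pow_succ']
            exact ih.DL W
      exact (h1 n).const_mul a

private lemma mean_bdd_sum {ι : Type*} (I : Finset ι) {F : ι → G → ℝ} (h : ∀ i ∈ I, Bdd (F i)) :
    Bdd (fun x => ∑ i ∈ I, F i x) := by
  classical
  choose! C hC using h
  refine ⟨∑ i ∈ I, C i, fun x => ?_⟩
  exact (Finset.abs_sum_le_sum_abs _ _).trans (Finset.sum_le_sum fun i hi => hC i hi x)

private lemma mean_sum {m : (G → ℝ) → ℝ} (hm : IsMean m) {ι : Type*} (I : Finset ι)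
    {F : ι → G → ℝ} (h : ∀ i ∈ I, Bdd (F i)) :
    m (fun x => ∑ i ∈ I, F i x) = ∑ i ∈ I, m (F i) := by
  classical
  induction I using Finset.induction_on with
  | empty =>
      simp only [Finset.sum_empty]
      have h := hm.mul 0 (fun _ => 1) (Bdd.const 1)
      simp only [zero_mul] at h
      exact h
  | insert a I ha ih =>
      have hI : ∀ i ∈ I, Bdd (F i) := fun i hi => h i (Finset.mem_insert_of_mem hi)
      have hbs : Bdd (fun x => ∑ i ∈ I, F i x) := mean_bdd_sum I hI
      simp only [Finset.sum_insert ha]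
      rw [hm.add (F a) (fun x => ∑ i ∈ I, F i x) (h a (Finset.mem_insert_self a I)) hbs, ih hI]

namespace IsMean

variable {m : (G → ℝ) → ℝ} (hm : IsMean m)

include hm

theorem const (c : ℝ) : m (fun _ => c) = c := by
  have h := hm.mul c (fun _ => 1) (Bdd.const 1)
  simp only [mul_one] at h
  rw [h, hm.one, mul_one]

theorem sub {f f' : G → ℝ} (h : Bdd f) (h' : Bdd f') : m (fun x => f x - f' x) = m f - m f' := by
  have h1 := hm.add f (fun x => (-1) * f' x) h (h'.const_mul (-1))
  have h2 := hm.mul (-1) f' h'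
  have e : (fun x => f x - f' x) = fun x => f x + (-1) * f' x := by
    funext x
    ring
  rw [e, h1, h2]
  ring

theorem mono {f f' : G → ℝ} (h : Bdd f) (h' : Bdd f') (hle : ∀ x, f x ≤ f' x) : m f ≤ m f' := by
  have h1 := hm.nonneg (fun x => f' x - f x) (h'.sub h) fun x => sub_nonneg.2 (hle x)
  rw [hm.sub h' h] at h1
  linarith

theorem abs_le {f : G → ℝ} (h : Bdd f) {C : ℝ} (hC : ∀ x, |f x| ≤ C) : |m f| ≤ C := by
  rw [_root_.abs_le]
  constructor
  · have h1 := hm.mono (Bdd.const (-C)) h fun x => (_root_.abs_le.1 (hC x)).1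
    rw [hm.const] at h1
    exact h1
  · have h1 := hm.mono h (Bdd.const C) fun x => (_root_.abs_le.1 (hC x)).2
    rw [hm.const] at h1
    exact h1

theorem sum {ι : Type} (I : Finset ι) {F : ι → G → ℝ} (h : ∀ i ∈ I, Bdd (F i)) :
    m (fun x => ∑ i ∈ I, F i x) = ∑ i ∈ I, m (F i) := by
  classical
  induction I using Finset.induction_on with
  | empty =>
      simp only [Finset.sum_empty]
      exact hm.const 0
  | insert a I ha ih =>
      have hI : ∀ i ∈ I, Bdd (F i) := fun i hi => h i (Finset.mem_insert_of_mem hi)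
      have hbs : Bdd (fun x => ∑ i ∈ I, F i x) := mean_bdd_sum I hI
      simp only [Finset.sum_insert ha]
      rw [hm.add (F a) (fun x => ∑ i ∈ I, F i x) (h a (Finset.mem_insert_self a I)) hbs, ih hI]

theorem E (W : Walk G) {F : G → G → ℝ} (h : ∀ s ∈ W.S, Bdd (F s)) :
    m (fun x => W.E (fun s => F s x)) = W.E (fun s => m (F s)) := by
  unfold Walk.E
  rw [mean_sum hm W.S (F := fun s x => W.μ s * F s x) fun s hs => (h s hs).const_mul _]
  exact Finset.sum_congr rfl fun s hs => hm.mul _ _ (h s hs)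

theorem DL (W : Walk G) {f : G → ℝ} (h : Bdd f) : m (W.DL f) = 0 := by
  have h1 : ∀ s ∈ W.S, Bdd ((fun s x => f (s * x)) s) := fun s _ => h.comp (fun x => s * x)
  have h2 := hm.E W (F := fun s x => f (s * x)) h1
  have h3 := hm.sub h (Bdd.E W (F := fun s x => f (s * x)) h1)
  change m (fun x => f x - W.E (fun s => f (s * x))) = 0
  rw [h3, h2]
  have h4 : W.E (fun s => m (fun x => f (s * x))) = W.E (fun _ => m f) :=
    W.E_congr fun s _ => hm.inv s f h
  rw [h4, W.E_const, sub_self]

theorem mul_DL (W : Walk G) {f f' : G → ℝ} (h : Bdd f) (h' : Bdd f') :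
    m (fun x => f x * W.DL f' x) = m (fun x => W.DL f x * f' x) := by
  have hb1 : ∀ s ∈ W.S, Bdd ((fun s x => f x * f' (s * x)) s) :=
    fun s _ => h.mul (h'.comp (fun x => s * x))
  have hb2 : ∀ s ∈ W.S, Bdd ((fun s x => f (s * x) * f' x) s) :=
    fun s _ => (h.comp (fun x => s * x)).mul h'
  have hb3 : ∀ s ∈ W.S, Bdd ((fun s x => f (s⁻¹ * x) * f' x) s) :=
    fun s _ => (h.comp (fun x => s⁻¹ * x)).mul h'
  have e1 : (fun x => f x * W.DL f' x) =
      fun x => f x * f' x - W.E (fun s => f x * f' (s * x)) := by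
    funext x
    rw [W.DL_apply, W.E_mul]
    ring
  have e2 : (fun x => W.DL f x * f' x) =
      fun x => f x * f' x - W.E (fun s => f (s * x) * f' x) := by
    funext x
    rw [W.DL_apply]
    have : W.E (fun s => f (s * x) * f' x) = f' x * W.E (fun s => f (s * x)) := by
      rw [← W.E_mul]
      exact W.E_congr fun s _ => mul_comm _ _
    rw [this]
    ring
  rw [e1, e2, hm.sub (h.mul h') (Bdd.E W (F := fun s x => f x * f' (s * x)) hb1),
    hm.sub (h.mul h') (Bdd.E W (F := fun s x => f (s * x) * f' x) hb2),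
    hm.E W (F := fun s x => f x * f' (s * x)) hb1, hm.E W (F := fun s x => f (s * x) * f' x) hb2]
  congr 1
  rw [← W.E_inv (fun s => m (fun x => f (s * x) * f' x))]
  refine W.E_congr fun s _ => ?_
  rw [← hm.inv s (fun x => f (s⁻¹ * x) * f' x) ((h.comp (fun x => s⁻¹ * x)).mul h')]
  simp only [inv_mul_cancel_left]

theorem aeval_DL (W : Walk G) {f : G → ℝ} (h : Bdd f) (q : Polynomial ℝ) :
    m (Polynomial.aeval W.DL q f) = q.eval 0 * m f := by
  induction q using Polynomial.induction_on' with
  | add p q hp hq =>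
      rw [map_add, Polynomial.eval_add, add_mul, ← hp, ← hq]
      exact hm.add _ _ (h.aeval_DL W p) (h.aeval_DL W q)
  | monomial n a =>
      rw [Polynomial.aeval_monomial, Polynomial.eval_monomial]
      have h1 : ∀ k : ℕ, Bdd ((W.DL ^ k) f) := by
        intro k
        induction k with
        | zero => exact h
        | succ k ih =>
            rw [pow_succ']
            exact ih.DL W
      have h2 := hm.mul a ((W.DL ^ n) f) (h1 n)
      have h3 : m ((W.DL ^ n) f) = 0 ^ n * m f := by
        cases n with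
        | zero =>
            rw [pow_zero, pow_zero, one_mul]
            rfl
        | succ k =>
            rw [pow_succ', zero_pow (Nat.succ_ne_zero k), zero_mul]
            exact hm.DL W (h1 k)
      rw [h3] at h2
      rw [mul_assoc, ← h2]
      rfl

theorem mul_aeval_DL (W : Walk G) {f : G → ℝ} (h : Bdd f) (q : Polynomial ℝ) :
    m (fun x => f x * Polynomial.aeval W.DL (q ^ 2) f x) =
      m (fun x => (Polynomial.aeval W.DL q f x) ^ 2) := by
  have key : ∀ (q : Polynomial ℝ) (f f' : G → ℝ), Bdd f → Bdd f' →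
      m (fun x => f x * Polynomial.aeval W.DL q f' x) =
        m (fun x => Polynomial.aeval W.DL q f x * f' x) := by
    intro q
    induction q using Polynomial.induction_on' with
    | add p q hp hq =>
        intro f f' hf hf'
        have e1 : (fun x => f x * Polynomial.aeval W.DL (p + q) f' x) =
            fun x => f x * Polynomial.aeval W.DL p f' x + f x * Polynomial.aeval W.DL q f' x := by
          funext x
          rw [map_add, LinearMap.add_apply, Pi.add_apply, mul_add]
        have e2 : (fun x => Polynomial.aeval W.DL (p + q) f x * f' x) =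
            fun x => Polynomial.aeval W.DL p f x * f' x + Polynomial.aeval W.DL q f x * f' x := by
          funext x
          rw [map_add, LinearMap.add_apply, Pi.add_apply, add_mul]
        rw [e1, e2, hm.add _ _ (hf.mul (hf'.aeval_DL W p)) (hf.mul (hf'.aeval_DL W q)),
          hm.add _ _ ((hf.aeval_DL W p).mul hf') ((hf.aeval_DL W q).mul hf'),
          hp f f' hf hf', hq f f' hf hf']
    | monomial n a =>
        have h1 : ∀ (k : ℕ) (f : G → ℝ), Bdd f → Bdd ((W.DL ^ k) f) := by
          intro k f hf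
          induction k with
          | zero => exact hf
          | succ k ih =>
              rw [pow_succ']
              exact ih.DL W
        have h2 : ∀ (k : ℕ) (f f' : G → ℝ), Bdd f → Bdd f' →
            m (fun x => f x * (W.DL ^ k) f' x) = m (fun x => (W.DL ^ k) f x * f' x) := by
          intro k
          induction k with
          | zero =>
              intro f f' _ _
              rfl
          | succ k ih =>
              intro f f' hf hf'
              have e1 : (fun x => f x * (W.DL ^ (k + 1)) f' x) =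
                  fun x => f x * W.DL ((W.DL ^ k) f') x := by
                funext x
                rw [pow_succ']
                rfl
              have e2 : (fun x => (W.DL ^ (k + 1)) f x * f' x) =
                  fun x => (W.DL ^ k) (W.DL f) x * f' x := by
                funext x
                rw [pow_succ]
                rfl
              rw [e1, e2, hm.mul_DL W hf (h1 k f' hf'), ih (W.DL f) f' (hf.DL W) hf']
        intro f f' hf hf'
        have e1 : (fun x => f x * Polynomial.aeval W.DL (Polynomial.monomial n a) f' x) =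
            fun x => a * (f x * (W.DL ^ n) f' x) := by
          funext x
          rw [Polynomial.aeval_monomial, Module.End.mul_apply, Module.algebraMap_end_apply,
            Pi.smul_apply, smul_eq_mul]
          ring
        have e2 : (fun x => Polynomial.aeval W.DL (Polynomial.monomial n a) f x * f' x) =
            fun x => a * ((W.DL ^ n) f x * f' x) := by
          funext x
          rw [Polynomial.aeval_monomial, Module.End.mul_apply, Module.algebraMap_end_apply,
            Pi.smul_apply, smul_eq_mul]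
          ring
        rw [e1, e2, hm.mul a _ (hf.mul (h1 n f' hf')), hm.mul a _ ((h1 n f hf).mul hf'),
          h2 n f f' hf hf']
  have e : (fun x => f x * Polynomial.aeval W.DL (q ^ 2) f x) =
      fun x => f x * Polynomial.aeval W.DL q (Polynomial.aeval W.DL q f) x := by
    funext x
    rw [pow_two, map_mul, Module.End.mul_apply]
  rw [e, key q f _ h (h.aeval_DL W q)]
  congr 1
  funext x
  ring

end IsMean

end Pool.SpecDense
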