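import Pool.Agent.Lib.MP_863a8d_al.Cr
import Pool.Agent.Lib.MP_863a8d_al.Mean

/-!
# JOB CASEB1: the functions `ψ t`

Fix `s₀` and write `β h g = cr N (h, s₀) (1, g)`. Then `|β h g| ≤ sqrt (N s₀ N g)` (`cr_sq_le`) and
`β h (g g') = β h g + β (g⁻¹ h) g'` (`cr_mul`, `cr_act`). In particular `β h (x⁻¹ y) = β (x h) y - β (x h) x`.
`psi_pd`: by invariance of `m` under `h ↦ x h` the value at `x⁻¹ y` is
`m (cos (sqrt t (β h y - β h x))) = m (cos cos + sin sin)`.
`psi_exp`: `|cos θ - 1 + θ²/2 - θ⁴/24| ≤ 3 θ⁶` for all real `θ` (for `|θ| ≤ 1` from `Complex.exp_bound`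
with `n = 6`, otherwise trivially).
`alpha_harm`: `E β(g s)² = β(g)² + E β_{g⁻¹h}(s)²` by `cr_harm`, and invariance.
-/

set_option autoImplicit false

open Filter Topology

namespace Pool.SpecDense

universe u

variable {G : Type u} [Group G] {W : Walk G} {N : G → ℝ}

/-- `be N s₀ h g` = inner product of `π(h) b(s₀)` and `b(g)` -/
noncomputable def be (N : G → ℝ) (s₀ h g : G) : ℝ := cr N (h, s₀) (1, g)

/-- `fB W N s₀ h = E s ↦ (be N s₀ h s)²` -/
noncomputable def fB (W : Walk G) (N : G → ℝ) (s₀ h : G) : ℝ :=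
  W.E (fun s => cr N (h, s₀) (1, s) ^ 2)

theorem be_mul (N : G → ℝ) (s₀ h g g' : G) :
    be N s₀ h (g * g') = be N s₀ h g + be N s₀ (g⁻¹ * h) g' := by
  unfold be
  rw [cr_mul N (h, s₀) 1 g g']
  congr 1
  have h1 := cr_act N g⁻¹ (h, s₀) (1 * g, g')
  simp only [one_mul, inv_mul_cancel] at h1
  rw [one_mul]
  exact h1.symm

theorem be_one (N : G → ℝ) (s₀ h : G) : be N s₀ h 1 = 0 := by
  unfold be
  exact cr_one N (h, s₀) 1

private theorem caseB1_be_inv (N : G → ℝ) (s₀ h x : G) :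
    be N s₀ h x⁻¹ = -be N s₀ (x * h) x := by
  have h1 := be_mul N s₀ (x * h) x x⁻¹
  rw [mul_inv_cancel, be_one, inv_mul_cancel_left] at h1
  linarith

theorem be_sub (N : G → ℝ) (s₀ h x y : G) :
    be N s₀ h (x⁻¹ * y) = be N s₀ (x * h) y - be N s₀ (x * h) x := by
  rw [be_mul, inv_inv, caseB1_be_inv]
  ring

private theorem caseB1_be_sq_le (hN : NData W N) (s₀ h g : G) :
    be N s₀ h g ^ 2 ≤ N s₀ * N g := cr_sq_le hN (h, s₀) (1, g)

theorem be_bdd (hN : NData W N) (s₀ g : G) : Bdd (fun h => be N s₀ h g) :=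
  ⟨Real.sqrt (N s₀ * N g), fun h => Real.abs_le_sqrt (caseB1_be_sq_le hN s₀ h g)⟩

theorem be_harm (hN : NData W N) (s₀ h : G) : W.E (fun s => be N s₀ h s) = 0 :=
  cr_harm hN (h, s₀) 1

theorem fB_bdd (hN : NData W N) (s₀ : G) : Bdd (fB W N s₀) := by
  have h := Bdd.E W (F := fun s h => be N s₀ h s ^ 2) (fun s _ => (be_bdd hN s₀ s).pow 2)
  exact h

private theorem caseB1_sum {m : (G → ℝ) → ℝ} (hm : IsMean m) {ι : Type*} (I : Finset ι)
    {F : ι → G → ℝ} (h : ∀ i ∈ I, Bdd (F i)) :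
    Bdd (fun x => ∑ i ∈ I, F i x) ∧ m (fun x => ∑ i ∈ I, F i x) = ∑ i ∈ I, m (F i) := by
  classical
  induction I using Finset.induction_on with
  | empty =>
      simp only [Finset.sum_empty]
      exact ⟨Bdd.const 0, hm.const 0⟩
  | insert a I ha ih =>
      obtain ⟨h1, h2⟩ := ih (fun i hi => h i (Finset.mem_insert_of_mem hi))
      have h3 := h a (Finset.mem_insert_self a I)
      simp only [Finset.sum_insert ha]
      exact ⟨h3.add h1, by rw [hm.add _ _ h3 h1, h2]⟩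

private theorem caseB1_cos_bdd {f : G → ℝ} : Bdd (fun h => Real.cos (f h)) :=
  ⟨1, fun h => Real.abs_cos_le_one _⟩

private theorem caseB1_sin_bdd {f : G → ℝ} : Bdd (fun h => Real.sin (f h)) :=
  ⟨1, fun h => Real.abs_sin_le_one _⟩

private theorem caseB1_key {m : (G → ℝ) → ℝ} (hm : IsMean m) (N : G → ℝ) (s₀ : G) (c : ℝ)
    (x y : G) : m (fun h => Real.cos (c * be N s₀ h (x⁻¹ * y))) =
      m (fun h => Real.cos (c * be N s₀ h x) * Real.cos (c * be N s₀ h y) +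
        Real.sin (c * be N s₀ h x) * Real.sin (c * be N s₀ h y)) := by
  have h1 := hm.inv x (fun h => Real.cos (c * be N s₀ h x) * Real.cos (c * be N s₀ h y) +
        Real.sin (c * be N s₀ h x) * Real.sin (c * be N s₀ h y))
    ((caseB1_cos_bdd.mul caseB1_cos_bdd).add (caseB1_sin_bdd.mul caseB1_sin_bdd))
  rw [← h1]
  congr 1
  funext h
  rw [be_sub, mul_sub, Real.cos_sub]
  ring

theorem psi_pd (hN : NData W N) {m : (G → ℝ) → ℝ} (hm : IsMean m) (s₀ : G) (t : ℝ) :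
    PD (fun g => m (fun h => Real.cos (Real.sqrt t * be N s₀ h g))) := by
  obtain ⟨c, hc⟩ : ∃ c, Real.sqrt t = c := ⟨_, rfl⟩
  rw [hc]
  refine ⟨fun x y => ?_, fun F a => ?_⟩
  · show m _ = m _
    rw [caseB1_key hm N s₀ c x y, caseB1_key hm N s₀ c y x]
    congr 1
    funext h
    ring
  · have e1 : ∀ x y : G, a x * a y * m (fun h => Real.cos (c * be N s₀ h (x⁻¹ * y))) =
        m (fun h => a x * a y * (Real.cos (c * be N s₀ h x) * Real.cos (c * be N s₀ h y) +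
          Real.sin (c * be N s₀ h x) * Real.sin (c * be N s₀ h y))) := by
      intro x y
      rw [caseB1_key hm N s₀ c x y, hm.mul _ _
        ((caseB1_cos_bdd.mul caseB1_cos_bdd).add (caseB1_sin_bdd.mul caseB1_sin_bdd))]
    have hb : ∀ x y : G, Bdd (fun h => a x * a y * (Real.cos (c * be N s₀ h x) *
        Real.cos (c * be N s₀ h y) + Real.sin (c * be N s₀ h x) * Real.sin (c * be N s₀ h y))) :=
      fun x y =>
        ((caseB1_cos_bdd.mul caseB1_cos_bdd).add (caseB1_sin_bdd.mul caseB1_sin_bdd)).const_mul _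
    have e2 : ∀ x : G, ∑ y ∈ F, a x * a y * m (fun h => Real.cos (c * be N s₀ h (x⁻¹ * y))) =
        m (fun h => ∑ y ∈ F, a x * a y * (Real.cos (c * be N s₀ h x) * Real.cos (c * be N s₀ h y) +
          Real.sin (c * be N s₀ h x) * Real.sin (c * be N s₀ h y))) := by
      intro x
      rw [(caseB1_sum hm F (fun y _ => hb x y)).2]
      exact Finset.sum_congr rfl fun y _ => e1 x y
    have e3 : ∑ x ∈ F, ∑ y ∈ F, a x * a y * m (fun h => Real.cos (c * be N s₀ h (x⁻¹ * y))) =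
        m (fun h => ∑ x ∈ F, ∑ y ∈ F, a x * a y * (Real.cos (c * be N s₀ h x) *
          Real.cos (c * be N s₀ h y) + Real.sin (c * be N s₀ h x) *
          Real.sin (c * be N s₀ h y))) := by
      rw [(caseB1_sum hm F (fun x _ => (caseB1_sum hm F (fun y _ => hb x y)).1)).2]
      exact Finset.sum_congr rfl fun x _ => e2 x
    rw [e3]
    apply hm.nonneg
    · exact (caseB1_sum hm F (fun x _ => (caseB1_sum hm F (fun y _ => hb x y)).1)).1
    · intro h
      have e4 : ∑ x ∈ F, ∑ y ∈ F, a x * a y * (Real.cos (c * be N s₀ h x) *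
          Real.cos (c * be N s₀ h y) + Real.sin (c * be N s₀ h x) *
          Real.sin (c * be N s₀ h y)) =
          (∑ x ∈ F, a x * Real.cos (c * be N s₀ h x)) ^ 2 +
          (∑ x ∈ F, a x * Real.sin (c * be N s₀ h x)) ^ 2 := by
        rw [sq, sq, Finset.sum_mul_sum, Finset.sum_mul_sum, ← Finset.sum_add_distrib]
        refine Finset.sum_congr rfl fun x _ => ?_
        rw [← Finset.sum_add_distrib]
        exact Finset.sum_congr rfl fun y _ => by ring
      rw [e4]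
      positivity

theorem psi_one (N : G → ℝ) {m : (G → ℝ) → ℝ} (hm : IsMean m) (s₀ : G) (t : ℝ) :
    m (fun h => Real.cos (Real.sqrt t * be N s₀ h 1)) = 1 := by
  simp only [be_one, mul_zero, Real.cos_zero]
  exact hm.one

private theorem caseB1_cos (θ : ℝ) :
    |Real.cos θ - 1 + θ ^ 2 / 2 - θ ^ 4 / 24| ≤ 3 * θ ^ 6 := by
  rcases le_or_gt |θ| 1 with h | h
  · have hn : ‖(θ : ℂ) * Complex.I‖ ≤ 1 := by
      rw [norm_mul, Complex.norm_I, mul_one, Complex.norm_real, Real.norm_eq_abs]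
      exact h
    have h1 := Complex.exp_bound hn (n := 6) (by norm_num)
    have h2 := (Complex.abs_re_le_norm _).trans h1
    have h3 : (Complex.exp ((θ : ℂ) * Complex.I) -
        ∑ m ∈ Finset.range 6, ((θ : ℂ) * Complex.I) ^ m / (m.factorial : ℂ)).re =
        Real.cos θ - 1 + θ ^ 2 / 2 - θ ^ 4 / 24 := by
      rw [Complex.sub_re, Complex.exp_ofReal_mul_I_re]
      have e : (∑ m ∈ Finset.range 6, ((θ : ℂ) * Complex.I) ^ m / (m.factorial : ℂ)) =
          ((1 - θ ^ 2 / 2 + θ ^ 4 / 24 : ℝ) : ℂ) +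
          ((θ - θ ^ 3 / 6 + θ ^ 5 / 120 : ℝ) : ℂ) * Complex.I := by
        have i2 : Complex.I ^ 2 = -1 := Complex.I_sq
        have i3 : Complex.I ^ 3 = -Complex.I := by rw [pow_succ, i2]; ring
        have i4 : Complex.I ^ 4 = 1 := Complex.I_pow_four
        have i5 : Complex.I ^ 5 = Complex.I := by rw [pow_succ, i4, one_mul]
        simp only [Finset.sum_range_succ, Finset.sum_range_zero, mul_pow, i2, i3, i4, i5,
          Nat.factorial]
        push_cast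
        ring
      rw [e, Complex.add_re, Complex.ofReal_re, Complex.re_ofReal_mul, Complex.I_re, mul_zero]
      ring
    rw [h3] at h2
    have h4 : ‖(θ : ℂ) * Complex.I‖ ^ 6 = θ ^ 6 := by
      rw [norm_mul, Complex.norm_I, mul_one, Complex.norm_real, Real.norm_eq_abs]
      have : |θ| ^ 6 = (|θ| ^ 2) ^ 3 := by ring
      rw [this, sq_abs]
      ring
    rw [h4] at h2
    have h5 : 0 ≤ θ ^ 6 := by positivity
    refine h2.trans ?_
    have h6 : (((Nat.succ 6 : ℕ) : ℝ) * (((Nat.factorial 6 : ℕ) : ℝ) * ((6 : ℕ) : ℝ))⁻¹) ≤ 3 := by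
      norm_num [Nat.factorial]
    nlinarith
  · have h1 : 1 < θ ^ 2 := by
      rw [← sq_abs]
      nlinarith [abs_nonneg θ]
    have h4 : θ ^ 4 = (θ ^ 2) ^ 2 := by ring
    have h6 : θ ^ 6 = (θ ^ 2) ^ 3 := by ring
    have hc1 := Real.neg_one_le_cos θ
    have hc2 := Real.cos_le_one θ
    rw [h4, h6]
    obtain ⟨u, hu⟩ : ∃ u, θ ^ 2 = u := ⟨_, rfl⟩
    rw [hu] at h1 ⊢
    have h7 : u ^ 2 ≤ u ^ 3 := by nlinarith [sq_nonneg u]
    have h8 : u ≤ u ^ 3 := by nlinarith [sq_nonneg u]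
    have h9 : 1 ≤ u ^ 3 := by nlinarith
    rw [abs_le]
    constructor <;> nlinarith [sq_nonneg u]

theorem psi_exp (hN : NData W N) {m : (G → ℝ) → ℝ} (hm : IsMean m) (s₀ g : G) :
    ∃ C : ℝ, ∀ t, 0 < t → t ≤ 1 →
      |m (fun h => Real.cos (Real.sqrt t * be N s₀ h g)) -
        (1 - t * (m (fun h => be N s₀ h g ^ 2) / 2) + t ^ 2 * (m (fun h => be N s₀ h g ^ 4) / 24))| ≤
      C * t ^ 3 := by
  refine ⟨3 * (N s₀ * N g) ^ 3, fun t ht _ => ?_⟩
  have hb := be_bdd hN s₀ g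
  have hb2 : Bdd (fun h => t / 2 * be N s₀ h g ^ 2) := (hb.pow 2).const_mul _
  have hb4 : Bdd (fun h => t ^ 2 / 24 * be N s₀ h g ^ 4) := (hb.pow 4).const_mul _
  have hc : Bdd (fun h => Real.cos (Real.sqrt t * be N s₀ h g)) := caseB1_cos_bdd
  have e1 : m (fun h => Real.cos (Real.sqrt t * be N s₀ h g)) -
        (1 - t * (m (fun h => be N s₀ h g ^ 2) / 2) + t ^ 2 * (m (fun h => be N s₀ h g ^ 4) / 24)) =
      m (fun h => (Real.cos (Real.sqrt t * be N s₀ h g) - 1) +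
        (t / 2 * be N s₀ h g ^ 2 - t ^ 2 / 24 * be N s₀ h g ^ 4)) := by
    rw [hm.add _ _ (hc.sub (Bdd.const 1)) (hb2.sub hb4), hm.sub hc (Bdd.const 1),
      hm.sub hb2 hb4, hm.const, hm.mul _ _ (hb.pow 2), hm.mul _ _ (hb.pow 4)]
    ring
  rw [e1]
  apply hm.abs_le ((hc.sub (Bdd.const 1)).add (hb2.sub hb4))
  intro h
  have h1 := caseB1_cos (Real.sqrt t * be N s₀ h g)
  have hs : Real.sqrt t ^ 2 = t := Real.sq_sqrt ht.le
  have e2 : (Real.sqrt t * be N s₀ h g) ^ 2 = t * be N s₀ h g ^ 2 := by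
    rw [mul_pow, hs]
  have e4 : (Real.sqrt t * be N s₀ h g) ^ 4 = t ^ 2 * be N s₀ h g ^ 4 := by
    rw [mul_pow, show Real.sqrt t ^ 4 = (Real.sqrt t ^ 2) ^ 2 by ring, hs]
  have e6 : (Real.sqrt t * be N s₀ h g) ^ 6 = t ^ 3 * (be N s₀ h g ^ 2) ^ 3 := by
    rw [mul_pow, show Real.sqrt t ^ 6 = (Real.sqrt t ^ 2) ^ 3 by ring, hs]
    ring
  rw [e2, e4, e6] at h1
  have h2 : (be N s₀ h g ^ 2) ^ 3 ≤ (N s₀ * N g) ^ 3 :=
    pow_le_pow_left₀ (sq_nonneg _) (caseB1_be_sq_le hN s₀ h g) 3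
  have h3 : 0 ≤ t ^ 3 := by positivity
  calc |(Real.cos (Real.sqrt t * be N s₀ h g) - 1) +
        (t / 2 * be N s₀ h g ^ 2 - t ^ 2 / 24 * be N s₀ h g ^ 4)|
      = |Real.cos (Real.sqrt t * be N s₀ h g) - 1 + t * be N s₀ h g ^ 2 / 2 -
          t ^ 2 * be N s₀ h g ^ 4 / 24| := by congr 1; ring
    _ ≤ 3 * (t ^ 3 * (be N s₀ h g ^ 2) ^ 3) := h1
    _ ≤ 3 * (t ^ 3 * (N s₀ * N g) ^ 3) := by
        apply mul_le_mul_of_nonneg_left _ (by norm_num)
        exact mul_le_mul_of_nonneg_left h2 h3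
    _ = 3 * (N s₀ * N g) ^ 3 * t ^ 3 := by ring

theorem alpha_harm (hN : NData W N) {m : (G → ℝ) → ℝ} (hm : IsMean m) (s₀ g : G) :
    W.DR (fun g => m (fun h => be N s₀ h g ^ 2) / 2) g = -(m (fB W N s₀) / 2) := by
  rw [Walk.DR_apply]
  have h1 : W.E (fun s => m (fun h => be N s₀ h (g * s) ^ 2)) =
      m (fun h => be N s₀ h g ^ 2) + m (fB W N s₀) := by
    rw [← hm.E W (F := fun s h => be N s₀ h (g * s) ^ 2)
      (fun s _ => (be_bdd hN s₀ (g * s)).pow 2)]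
    have h2 : (fun h => W.E (fun s => be N s₀ h (g * s) ^ 2)) =
        fun h => be N s₀ h g ^ 2 + fB W N s₀ (g⁻¹ * h) := by
      funext h
      have h3 : W.E (fun s => be N s₀ h (g * s) ^ 2) =
          W.E (fun s => (be N s₀ h g ^ 2 + 2 * be N s₀ h g * be N s₀ (g⁻¹ * h) s) +
            be N s₀ (g⁻¹ * h) s ^ 2) := by
        apply W.E_congr
        intro s _
        rw [be_mul]
        ring
      rw [h3, W.E_add, W.E_add, W.E_const, W.E_mul, be_harm hN, mul_zero, add_zero]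
      rfl
    rw [h2, hm.add _ _ ((be_bdd hN s₀ g).pow 2) ((fB_bdd hN s₀).comp _),
      hm.inv g⁻¹ _ (fB_bdd hN s₀)]
  have h4 : W.E (fun s => m (fun h => be N s₀ h (g * s) ^ 2) / 2) =
      W.E (fun s => (1 / 2) * m (fun h => be N s₀ h (g * s) ^ 2)) :=
    W.E_congr fun s _ => by ring
  rw [h4, W.E_mul, h1]
  ring

end Pool.SpecDense
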