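import Mathlib

/-!
# Sets of small doubling and positive definite functions with concentrated mass
-/

set_option autoImplicit false

namespace Pool.SpecDense

universe u

variable {G : Type u} [Group G]

/-- A symmetric finite set `A` such that `A A` lies in a set with less than `3 |A| / 2` elements:
`A A` is closed under products. -/
theorem dbl_closed [DecidableEq G] {A B : Finset G} (hinv : ∀ a ∈ A, a⁻¹ ∈ A)
    (hAB : ∀ a ∈ A, ∀ b ∈ A, a * b ∈ B) (hcard : 2 * B.card < 3 * A.card) {x y : G}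
    (hx : ∃ a ∈ A, ∃ b ∈ A, a * b = x) (hy : ∃ a ∈ A, ∃ b ∈ A, a * b = y) :
    ∃ a ∈ A, ∃ b ∈ A, a * b = x * y := by
  have key : ∀ x : G, (∃ a ∈ A, ∃ b ∈ A, a * b = x) →
      A.card < 2 * (A.filter (fun z => x * z ∈ A)).card := by
    rintro _ ⟨a, ha, b, hb, rfl⟩
    have h1 : (A.image (fun z => b * z)).card = A.card :=
      Finset.card_image_of_injective _ (mul_right_injective b)
    have h2 : (A.image (fun z => a⁻¹ * z)).card = A.card :=
      Finset.card_image_of_injective _ (mul_right_injective a⁻¹)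
    have h3 : (A.image (fun z => b * z) ∪ A.image (fun z => a⁻¹ * z)).card ≤ B.card := by
      refine Finset.card_le_card ?_
      intro z hz
      rcases Finset.mem_union.1 hz with hz | hz
      · obtain ⟨w, hw, rfl⟩ := Finset.mem_image.1 hz
        exact hAB b hb w hw
      · obtain ⟨w, hw, rfl⟩ := Finset.mem_image.1 hz
        exact hAB a⁻¹ (hinv a ha) w hw
    have h4 := Finset.card_union_add_card_inter (A.image (fun z => b * z))
      (A.image (fun z => a⁻¹ * z))
    have h5 : (A.image (fun z => b * z) ∩ A.image (fun z => a⁻¹ * z)).card ≤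
        (A.filter (fun z => a * b * z ∈ A)).card := by
      refine Finset.card_le_card_of_injOn (fun z => b⁻¹ * z) ?_
        (fun z _ z' _ h => mul_left_cancel h)
      intro z hz
      rw [Finset.mem_coe, Finset.mem_inter, Finset.mem_image, Finset.mem_image] at hz
      obtain ⟨⟨w, hw, rfl⟩, ⟨w', hw', h⟩⟩ := hz
      rw [Finset.mem_coe, Finset.mem_filter]
      refine ⟨by simpa using hw, ?_⟩
      have : a * b * (b⁻¹ * (b * w)) = w' := by
        rw [← h]; group
      rw [this]
      exact hw'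
    omega
  have hy' : ∃ a ∈ A, ∃ b ∈ A, a * b = y⁻¹ := by
    obtain ⟨a, ha, b, hb, rfl⟩ := hy
    exact ⟨b⁻¹, hinv b hb, a⁻¹, hinv a ha, by rw [mul_inv_rev]⟩
  have h1 := key x hx
  have h2 := key y⁻¹ hy'
  have h3 := Finset.card_union_add_card_inter (A.filter (fun z => x * z ∈ A))
    (A.filter (fun z => y⁻¹ * z ∈ A))
  have h4 : (A.filter (fun z => x * z ∈ A) ∪ A.filter (fun z => y⁻¹ * z ∈ A)).card ≤ A.card :=
    Finset.card_le_card (Finset.union_subset (Finset.filter_subset _ _) (Finset.filter_subset _ _))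
  have h5 : 0 < (A.filter (fun z => x * z ∈ A) ∩ A.filter (fun z => y⁻¹ * z ∈ A)).card := by omega
  obtain ⟨z, hz⟩ := Finset.card_pos.1 h5
  rw [Finset.mem_inter, Finset.mem_filter, Finset.mem_filter] at hz
  exact ⟨x * z, hz.1.2, (y⁻¹ * z)⁻¹, hinv _ hz.2.2, by group⟩

/-- Such a set exists in a group generated by it only if the group is finite. -/
theorem dbl_finite {A B : Finset G} (hinv : ∀ a ∈ A, a⁻¹ ∈ A)
    (hAB : ∀ a ∈ A, ∀ b ∈ A, a * b ∈ B) (hcard : 2 * B.card < 3 * A.card) (h1 : (1 : G) ∈ A)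
    (hgen : Subgroup.closure (A : Set G) = ⊤) : Finite G := by
  classical
  let H : Subgroup G :=
    { carrier := {x | ∃ a ∈ A, ∃ b ∈ A, a * b = x}
      mul_mem' := fun hx hy => dbl_closed hinv hAB hcard hx hy
      one_mem' := ⟨1, h1, 1, h1, mul_one 1⟩
      inv_mem' := by
        rintro _ ⟨a, ha, b, hb, rfl⟩
        exact ⟨b⁻¹, hinv b hb, a⁻¹, hinv a ha, by rw [mul_inv_rev]⟩ }
  have hH : H = ⊤ := by
    rw [eq_top_iff, ← hgen, Subgroup.closure_le]
    intro a ha
    exact ⟨a, ha, 1, h1, mul_one a⟩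
  have hfin : (H : Set G).Finite := by
    refine B.finite_toSet.subset ?_
    rintro _ ⟨a, ha, b, hb, rfl⟩
    exact hAB a ha b hb
  rw [hH] at hfin
  exact Set.finite_univ_iff.1 (by simpa using hfin)

/-- counting: `φ` of total square mass at most `1 / t` and cube mass at least `(1 - δ) / t` -/
theorem dbl_count {φ : G → ℝ} {t : ℝ} (ht : 0 < t) (hφ1 : ∀ g, φ g ≤ 1)
    (hsum : Summable (fun g => φ g ^ 2)) (h2 : ∑' g, φ g ^ 2 ≤ 1 / t)
    (h3s : Summable (fun g => φ g ^ 3)) (h3 : (1 - 1 / 250) / t ≤ ∑' g, φ g ^ 3) :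
    ∃ A B : Finset G, (∀ g, g ∈ A ↔ 39 / 40 ≤ φ g) ∧ (∀ g, g ∈ B ↔ 9 / 10 ≤ φ g) ∧
      2 * B.card < 3 * A.card := by
  have hfin : ∀ c : ℝ, 0 < c → {g | c ≤ φ g}.Finite := by
    intro c hc
    have h := hsum.tendsto_cofinite_zero
    have h4 : ∀ᶠ g in Filter.cofinite, φ g ^ 2 < c ^ 2 :=
      h.eventually (gt_mem_nhds (by positivity))
    rw [Filter.eventually_cofinite] at h4
    refine h4.subset ?_
    intro g hg
    simp only [Set.mem_ofPred_eq, not_lt] at hg ⊢
    exact pow_le_pow_left₀ hc.le hg 2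
  set A := (hfin (39 / 40) (by norm_num)).toFinset with hA
  set B := (hfin (9 / 10) (by norm_num)).toFinset with hB
  have hAm : ∀ g, g ∈ A ↔ 39 / 40 ≤ φ g := fun g => by simp [hA]
  have hBm : ∀ g, g ∈ B ↔ 9 / 10 ≤ φ g := fun g => by simp [hB]
  refine ⟨A, B, hAm, hBm, ?_⟩
  -- upper bound for B
  have hBle : (81 / 100 : ℝ) * B.card ≤ 1 / t := by
    calc (81 / 100 : ℝ) * B.card = ∑ g ∈ B, (81 / 100 : ℝ) := by
          rw [Finset.sum_const, nsmul_eq_mul, mul_comm]
      _ ≤ ∑ g ∈ B, φ g ^ 2 := Finset.sum_le_sum fun g hg => by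
          have := (hBm g).1 hg
          nlinarith
      _ ≤ ∑' g, φ g ^ 2 := hsum.sum_le_tsum _ (fun g _ => by positivity)
      _ ≤ 1 / t := h2
  -- lower bound for A
  have hAge : (1 - 1 / 250 - 40 / 250) / t ≤ (A.card : ℝ) := by
    have hd : Summable (fun g => φ g ^ 2 - φ g ^ 3) := hsum.sub h3s
    have hdnn : ∀ g, 0 ≤ φ g ^ 2 - φ g ^ 3 := fun g => by
      have := mul_nonneg (sq_nonneg (φ g)) (sub_nonneg.2 (hφ1 g))
      nlinarith
    have hdsum : ∑' g, (φ g ^ 2 - φ g ^ 3) ≤ (1 / 250) / t := by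
      rw [hsum.tsum_sub h3s]
      have h5 : (1 - 1 / 250) / t = 1 / t - (1 / 250) / t := by ring
      linarith
    -- pointwise: φ² ≤ 1_A + 40 (φ² - φ³)
    have hpt : ∀ g, φ g ^ 2 ≤ (A : Set G).indicator (fun _ => (1 : ℝ)) g +
        40 * (φ g ^ 2 - φ g ^ 3) := by
      intro g
      by_cases hg : g ∈ A
      · rw [Set.indicator_of_mem (by exact hg)]
        have h6 := hdnn g
        have h7 : φ g ^ 2 ≤ 1 := by
          have := (hAm g).1 hg
          have := hφ1 g
          nlinarith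
        linarith
      · rw [Set.indicator_of_notMem (by exact hg)]
        have h6 : φ g < 39 / 40 := by
          by_contra h
          exact hg ((hAm g).2 (not_lt.1 h))
        nlinarith [sq_nonneg (φ g), mul_nonneg (sq_nonneg (φ g)) (sub_nonneg.2 h6.le)]
    have hind : Summable ((A : Set G).indicator (fun _ => (1 : ℝ))) := by
      refine summable_of_hasFiniteSupport ?_
      exact A.finite_toSet.subset (Set.support_indicator_subset)
    have hindsum : ∑' g, (A : Set G).indicator (fun _ => (1 : ℝ)) g = A.card := by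
      rw [tsum_eq_sum (s := A)]
      · rw [Finset.sum_congr rfl (fun g hg => Set.indicator_of_mem (by exact hg) _)]
        simp
      · intro g hg
        exact Set.indicator_of_notMem (by exact hg) _
    have h8 : ∑' g, φ g ^ 2 ≤ A.card + 40 * ((1 / 250) / t) := by
      calc ∑' g, φ g ^ 2 ≤ ∑' g, ((A : Set G).indicator (fun _ => (1 : ℝ)) g +
            40 * (φ g ^ 2 - φ g ^ 3)) := hsum.tsum_le_tsum hpt (hind.add (hd.mul_left 40))
        _ = A.card + 40 * ∑' g, (φ g ^ 2 - φ g ^ 3) := by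
            rw [hind.tsum_add (hd.mul_left 40), hindsum, tsum_mul_left]
        _ ≤ _ := by linarith
    have h9 : (1 - 1 / 250) / t ≤ ∑' g, φ g ^ 2 :=
      h3.trans (h3s.tsum_le_tsum (fun g => by linarith [hdnn g]) hsum)
    have h10 : (1 - 1 / 250 - 40 / 250) / t = (1 - 1 / 250) / t - 40 * ((1 / 250) / t) := by ring
    linarith
  have htt : 0 < 1 / t := by positivity
  have h11 : (1 - 1 / 250 - 40 / 250) / t = (1 - 1 / 250 - 40 / 250) * (1 / t) := by ring
  rw [h11] at hAge
  have h12 : (2 : ℝ) * B.card < 3 * A.card := by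
    nlinarith
  exact_mod_cast h12

end Pool.SpecDense
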