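import Mathlib

/-!
# Spectrum of random walks on amenable groups near one: definitions

`Walk G` = a symmetric finitely supported probability measure on `G` whose support generates `G`.
`Folner G` = the Folner condition (amenability).
-/

set_option autoImplicit false

open scoped ENNReal

namespace Pool.SpecDense

universe u

/-- A symmetric, finitely supported probability measure on `G` whose support generates `G`. -/
structure Walk (G : Type u) [Group G] where
  /-- the support -/
  S : Finset G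
  /-- the weights -/
  μ : G → ℝ
  pos : ∀ s ∈ S, 0 < μ s
  sum : ∑ s ∈ S, μ s = 1
  inv_mem : ∀ s ∈ S, s⁻¹ ∈ S
  μ_inv : ∀ s ∈ S, μ s⁻¹ = μ s
  gen : Subgroup.closure (S : Set G) = ⊤

/-- The Folner condition: `G` is amenable. -/
def Folner (G : Type u) [Group G] : Prop :=
  ∀ K : Finset G, ∀ ε : ℝ, 0 < ε → ∃ F : Finset G, F.Nonempty ∧
    ∀ k ∈ K, ((((fun x => k * x) '' (F : Set G)) \ (F : Set G)).ncard : ℝ) < ε * (F.card : ℝ)

/-- The Hilbert space `ℓ²(G)`. -/
abbrev L2 (G : Type u) : Type u := lp (fun _ : G => ℂ) 2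

/-- Positive semidefinite real kernels. -/
def PSDk {X : Type u} (κ : X → X → ℝ) : Prop :=
  (∀ x y, κ x y = κ y x) ∧
    ∀ (F : Finset X) (c : X → ℝ), 0 ≤ ∑ x ∈ F, ∑ y ∈ F, c x * c y * κ x y

/-- Real positive definite functions on a group. -/
def PD {G : Type u} [Group G] (φ : G → ℝ) : Prop := PSDk (fun x y : G => φ (x⁻¹ * y))

variable {G : Type u} [Group G]

section trans

lemma memℓp_trans (g : G) (f : L2 G) : Memℓp (fun x => (f : G → ℂ) (x * g)) 2 := by
  have h := lp.memℓp f
  rw [memℓp_gen_iff (by norm_num)] at h ⊢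
  exact (Equiv.mulRight g).summable_iff.2 h

/-- Right translation on `ℓ²(G)`: `(R g f) x = f (x g)`. -/
noncomputable def transL (g : G) : L2 G →ₗ[ℂ] L2 G where
  toFun f := ⟨fun x => (f : G → ℂ) (x * g), memℓp_trans g f⟩
  map_add' _ _ := rfl
  map_smul' _ _ := rfl

lemma norm_transL (g : G) (f : L2 G) : ‖transL g f‖ = ‖f‖ := by
  rw [lp.norm_eq_tsum_rpow (by norm_num), lp.norm_eq_tsum_rpow (by norm_num)]
  congr 1
  exact (Equiv.mulRight g).tsum_eq (fun x => ‖(f : G → ℂ) x‖ ^ (2 : ℝ≥0∞).toReal)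

/-- Right translation on `ℓ²(G)`: `(R g f) x = f (x g)`. -/
noncomputable def R (g : G) : L2 G →L[ℂ] L2 G :=
  (transL g).mkContinuous 1 (fun f => by rw [norm_transL, one_mul])

lemma R_apply (g : G) (f : L2 G) (x : G) : (R g f : G → ℂ) x = (f : G → ℂ) (x * g) := rfl

lemma norm_R (g : G) (f : L2 G) : ‖R g f‖ = ‖f‖ := norm_transL g f

lemma R_one (f : L2 G) : R (1 : G) f = f := by
  apply lp.ext
  funext x
  rw [R_apply, mul_one]

lemma R_mul (g h : G) (f : L2 G) : R (g * h) f = R g (R h f) := by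
  apply lp.ext
  funext x
  rw [R_apply, R_apply, R_apply, mul_assoc]

end trans

namespace Walk

variable (W : Walk G)

/-- The Markov operator of the random walk: `(M f) x = ∑ s, μ s f (x s)`. -/
noncomputable def op : L2 G →L[ℂ] L2 G := ∑ s ∈ W.S, (W.μ s : ℂ) • R s

/-- The spectrum of `1 - M`, as a set of real numbers. -/
def spec : Set ℝ := {y : ℝ | ((1 - y : ℝ) : ℂ) ∈ spectrum ℂ W.op}

/-- The spectrum is asymptotically dense at the top: relative gaps at `1` tend to zero. -/
def DenseTop : Prop :=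
  ∀ ε : ℝ, 0 < ε → ∃ δ : ℝ, 0 < δ ∧ ∀ x : ℝ, 0 < x → x < δ → ∃ y ∈ W.spec, |y - x| ≤ ε * x

/-- The average over one step. -/
noncomputable def E (f : G → ℝ) : ℝ := ∑ s ∈ W.S, W.μ s * f s

lemma E_const (c : ℝ) : W.E (fun _ => c) = c := by
  unfold E
  rw [← Finset.sum_mul, W.sum, one_mul]

lemma E_add (f f' : G → ℝ) : W.E (fun s => f s + f' s) = W.E f + W.E f' := by
  unfold E
  rw [← Finset.sum_add_distrib]
  exact Finset.sum_congr rfl fun s _ => by ring

lemma E_sub (f f' : G → ℝ) : W.E (fun s => f s - f' s) = W.E f - W.E f' := by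
  unfold E
  rw [← Finset.sum_sub_distrib]
  exact Finset.sum_congr rfl fun s _ => by ring

lemma E_mul (c : ℝ) (f : G → ℝ) : W.E (fun s => c * f s) = c * W.E f := by
  unfold E
  rw [Finset.mul_sum]
  exact Finset.sum_congr rfl fun s _ => by ring

lemma E_congr {f f' : G → ℝ} (h : ∀ s ∈ W.S, f s = f' s) : W.E f = W.E f' :=
  Finset.sum_congr rfl fun s hs => by rw [h s hs]

lemma E_mono {f f' : G → ℝ} (h : ∀ s ∈ W.S, f s ≤ f' s) : W.E f ≤ W.E f' :=
  Finset.sum_le_sum fun s hs => mul_le_mul_of_nonneg_left (h s hs) (W.pos s hs).le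

lemma E_nonneg {f : G → ℝ} (h : ∀ s ∈ W.S, 0 ≤ f s) : 0 ≤ W.E f :=
  Finset.sum_nonneg fun s hs => mul_nonneg (W.pos s hs).le (h s hs)

lemma E_inv (f : G → ℝ) : W.E (fun s => f s⁻¹) = W.E f := by
  unfold E
  refine Finset.sum_nbij' (fun s => s⁻¹) (fun s => s⁻¹) ?_ ?_ ?_ ?_ ?_
  · exact fun s hs => W.inv_mem s hs
  · exact fun s hs => W.inv_mem s hs
  · exact fun s _ => inv_inv s
  · exact fun s _ => inv_inv s
  · intro s hs
    rw [W.μ_inv s hs]

lemma E_E_comm (f : G → G → ℝ) :
    W.E (fun s => W.E (fun s' => f s s')) = W.E (fun s' => W.E (fun s => f s s')) := by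
  unfold E
  simp_rw [Finset.mul_sum]
  rw [Finset.sum_comm]
  exact Finset.sum_congr rfl fun s _ => Finset.sum_congr rfl fun s' _ => by ring

/-- `(DR f) g = f g - E f (g s)`. -/
noncomputable def DR : Module.End ℝ (G → ℝ) where
  toFun f g := f g - W.E (fun s => f (g * s))
  map_add' f f' := by
    funext g
    simp only [Pi.add_apply, E_add]
    ring
  map_smul' c f := by
    funext g
    simp only [Pi.smul_apply, smul_eq_mul, E_mul, RingHom.id_apply]
    ring

/-- `(DL f) g = f g - E f (s g)`. -/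
noncomputable def DL : Module.End ℝ (G → ℝ) where
  toFun f g := f g - W.E (fun s => f (s * g))
  map_add' f f' := by
    funext g
    simp only [Pi.add_apply, E_add]
    ring
  map_smul' c f := by
    funext g
    simp only [Pi.smul_apply, smul_eq_mul, E_mul, RingHom.id_apply]
    ring

lemma DR_apply (f : G → ℝ) (g : G) : W.DR f g = f g - W.E (fun s => f (g * s)) := rfl

lemma DL_apply (f : G → ℝ) (g : G) : W.DL f g = f g - W.E (fun s => f (s * g)) := rfl

lemma DL_DR (f : G → ℝ) : W.DL (W.DR f) = W.DR (W.DL f) := by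
  funext g
  simp only [DR_apply, DL_apply, E_sub, mul_assoc]
  rw [W.E_E_comm (fun s s' => f (s * (g * s')))]
  ring

lemma DL_DR_apply (f : G → ℝ) (g : G) : W.DL (W.DR f) g =
    W.E (fun s => W.E (fun s' => f g - f (s * g) - f (g * s') + f (s * g * s'))) := by
  simp only [DR_apply, DL_apply, E_sub, E_add, E_const]
  rw [W.E_E_comm (fun s s' => f (s * g * s'))]
  ring

/-- `ev p f = (p(DR) f)(1)`, that is the value at `p(1 - M)` of the linear functional on the group
algebra given by `f`. -/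
noncomputable def ev (p : Polynomial ℝ) (f : G → ℝ) : ℝ := (Polynomial.aeval W.DR p) f 1

lemma ev_add_right (p : Polynomial ℝ) (f f' : G → ℝ) : W.ev p (f + f') = W.ev p f + W.ev p f' := by
  unfold ev
  rw [map_add, Pi.add_apply]

lemma ev_smul_right (p : Polynomial ℝ) (c : ℝ) (f : G → ℝ) : W.ev p (c • f) = c * W.ev p f := by
  unfold ev
  rw [map_smul, Pi.smul_apply, smul_eq_mul]

lemma ev_add_left (p q : Polynomial ℝ) (f : G → ℝ) : W.ev (p + q) f = W.ev p f + W.ev q f := by
  unfold ev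
  rw [map_add, LinearMap.add_apply, Pi.add_apply]

lemma ev_C_mul (c : ℝ) (q : Polynomial ℝ) (f : G → ℝ) :
    W.ev (Polynomial.C c * q) f = c * W.ev q f := by
  unfold ev
  rw [map_mul, Polynomial.aeval_C, Module.End.mul_apply, Module.algebraMap_end_apply,
    Pi.smul_apply, smul_eq_mul]

lemma ev_one (f : G → ℝ) : W.ev 1 f = f 1 := by
  unfold ev
  rw [map_one]
  rfl

lemma ev_mul_X (p : Polynomial ℝ) (f : G → ℝ) : W.ev (p * Polynomial.X) f = W.ev p (W.DR f) := by
  unfold ev
  rw [map_mul, Polynomial.aeval_X, Module.End.mul_apply]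

lemma DL_aeval_DR (p : Polynomial ℝ) (f : G → ℝ) :
    W.DL (Polynomial.aeval W.DR p f) = Polynomial.aeval W.DR p (W.DL f) := by
  have hc : Commute W.DL W.DR := by
    refine LinearMap.ext fun f => ?_
    exact W.DL_DR f
  have h : Commute W.DL (Polynomial.aeval W.DR p) := by
    induction p using Polynomial.induction_on' with
    | add p q hp hq => rw [map_add]; exact hp.add_right hq
    | monomial n a =>
        rw [Polynomial.aeval_monomial]
        exact (Algebra.commute_algebraMap_right a W.DL).mul_right (hc.pow_right n)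
  exact LinearMap.congr_fun h.eq f

/-- Two-sided formula for second differences. -/
lemma ev_mul_X_sq (p : Polynomial ℝ) (f : G → ℝ) :
    W.ev (p * Polynomial.X ^ 2) f = W.ev p (W.DL (W.DR f)) := by
  have h1 : p * Polynomial.X ^ 2 = Polynomial.X * (p * Polynomial.X) := by ring
  unfold ev
  rw [h1, map_mul, map_mul, Polynomial.aeval_X, Module.End.mul_apply, Module.End.mul_apply,
    ← DL_aeval_DR, DR_apply, DL_apply]
  simp only [one_mul, mul_one]

end Walk

/-- `N` is a limit of normalised energies of almost invariant vectors: `N g = ‖b g‖²` for a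
harmonic cocycle `b`. -/
structure NData (W : Walk G) (N : G → ℝ) : Prop where
  one : N 1 = 0
  nonneg : ∀ g, 0 ≤ N g
  inv : ∀ g, N g⁻¹ = N g
  exp_pd : ∀ t : ℝ, 0 ≤ t → PD (fun g => Real.exp (-(t * N g)))
  harm : ∀ g, W.E (fun s => N (g * s)) = N g + 2

/-- `cr N (u, a) (v, b)` is the inner product of `π(u) b(a)` and `π(v) b(b)` for the cocycle `b`
with `‖b g‖² = N g`. -/
noncomputable def cr (N : G → ℝ) (x y : G × G) : ℝ :=
  -(N ((x.1 * x.2)⁻¹ * (y.1 * y.2)) - N ((x.1 * x.2)⁻¹ * y.1) - N (x.1⁻¹ * (y.1 * y.2)) +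
    N (x.1⁻¹ * y.1)) / 2

end Pool.SpecDense
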