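import Pool.Agent.Lib.MP_863a8d_al.Ker

/-!
# The dichotomy
-/

set_option autoImplicit false

open Filter Topology Polynomial

namespace Pool.SpecDense

universe u v

variable {G : Type u} [Group G]

namespace Dich

section abs

variable {V : Type v} [SeminormedAddCommGroup V] [InnerProductSpace ℝ V]

local instance : Inner ℝ V := InnerProductSpace.toInner

/-- one minus the average -/
noncomputable def De (W : Walk G) (σ : G →* Module.End ℝ V) : Module.End ℝ V :=
  1 - ∑ s ∈ W.S, W.μ s • σ s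

variable (W : Walk G) (σ : G →* Module.End ℝ V)

lemma De_apply (u : V) : De W σ u = u - ∑ s ∈ W.S, W.μ s • σ s u := by
  simp only [De, LinearMap.sub_apply, Module.End.one_apply, LinearMap.sum_apply,
    LinearMap.smul_apply]

lemma inner_De_left (u v : V) : inner ℝ (De W σ u) v =
    inner ℝ u v - W.E (fun s => inner ℝ (σ s u) v) := by
  rw [De_apply, inner_sub_left, sum_inner]
  congr 1
  exact Finset.sum_congr rfl fun s _ => by rw [real_inner_smul_left]

lemma inner_De_right (u v : V) : inner ℝ u (De W σ v) =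
    inner ℝ u v - W.E (fun s => inner ℝ u (σ s v)) := by
  rw [De_apply, inner_sub_right, inner_sum]
  congr 1
  exact Finset.sum_congr rfl fun s _ => by rw [real_inner_smul_right]

variable (hσ : ∀ g u v, (inner ℝ (σ g u) (σ g v) : ℝ) = inner ℝ u v)

include hσ

lemma inner_shift (g : G) (u v : V) : (inner ℝ (σ g u) v : ℝ) = inner ℝ u (σ g⁻¹ v) := by
  rw [← hσ g⁻¹ (σ g u) v]
  congr 1
  rw [← Module.End.mul_apply, ← map_mul, inv_mul_cancel, map_one, Module.End.one_apply]

lemma norm_σ (g : G) (u : V) : ‖σ g u‖ = ‖u‖ := by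
  have h := hσ g u u
  rw [real_inner_self_eq_norm_sq, real_inner_self_eq_norm_sq] at h
  exact (sq_eq_sq₀ (norm_nonneg _) (norm_nonneg _)).1 h

lemma De_symm (u v : V) : (inner ℝ (De W σ u) v : ℝ) = inner ℝ u (De W σ v) := by
  rw [inner_De_left, inner_De_right]
  congr 1
  rw [← W.E_inv]
  exact W.E_congr fun s _ => by
    show inner ℝ (σ s⁻¹ u) v = inner ℝ u (σ s v)
    rw [inner_shift σ hσ, inv_inv]

lemma aeval_symm (q : ℝ[X]) (u v : V) :
    (inner ℝ (aeval (De W σ) q u) v : ℝ) = inner ℝ u (aeval (De W σ) q v) := by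
  induction q using Polynomial.induction_on' with
  | add p q hp hq =>
      simp only [map_add, LinearMap.add_apply, inner_add_left, inner_add_right, hp, hq]
  | monomial n a =>
      simp only [aeval_monomial, Module.End.mul_apply, Module.algebraMap_end_apply,
        real_inner_smul_left, real_inner_smul_right]
      congr 1
      induction n generalizing u v with
      | zero => simp
      | succ n ih =>
          rw [pow_succ, Module.End.mul_apply, Module.End.mul_apply, ih, De_symm W σ hσ,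
            ← Module.End.mul_apply, ← Module.End.mul_apply, ← pow_succ, ← pow_succ']

/-- energy -/
lemma energy (u : V) : 2 * (inner ℝ (De W σ u) u : ℝ) = W.E (fun s => ‖σ s u - u‖ ^ 2) := by
  rw [inner_De_left]
  have h : ∀ s, ‖σ s u - u‖ ^ 2 = 2 * ‖u‖ ^ 2 - 2 * (inner ℝ (σ s u) u : ℝ) := by
    intro s
    rw [norm_sub_sq_real, norm_σ σ hσ]
    ring
  simp_rw [h]
  rw [W.E_sub, W.E_const, W.E_mul, real_inner_self_eq_norm_sq]
  ring

lemma norm_De_sq_le (u : V) : ‖De W σ u‖ ^ 2 ≤ 2 * (inner ℝ (De W σ u) u : ℝ) := by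
  rw [energy W σ hσ]
  have h1 : De W σ u = ∑ s ∈ W.S, W.μ s • (u - σ s u) := by
    rw [De_apply]
    simp_rw [smul_sub]
    rw [Finset.sum_sub_distrib, ← Finset.sum_smul, W.sum, one_smul]
  have h2 : ‖De W σ u‖ ≤ ∑ s ∈ W.S, W.μ s * ‖σ s u - u‖ := by
    rw [h1]
    refine (norm_sum_le _ _).trans (Finset.sum_le_sum fun s hs => ?_)
    rw [norm_smul, Real.norm_of_nonneg (W.pos s hs).le, norm_sub_rev]
  have h3 : (∑ s ∈ W.S, W.μ s * ‖σ s u - u‖) ^ 2 ≤
      (∑ s ∈ W.S, W.μ s) * ∑ s ∈ W.S, W.μ s * ‖σ s u - u‖ ^ 2 := by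
    have := Finset.sum_mul_sq_le_sq_mul_sq W.S (fun s => Real.sqrt (W.μ s))
      (fun s => Real.sqrt (W.μ s) * ‖σ s u - u‖)
    refine le_trans (le_of_eq ?_) (this.trans (le_of_eq ?_))
    · congr 1
      refine Finset.sum_congr rfl fun s hs => ?_
      rw [← mul_assoc, Real.mul_self_sqrt (W.pos s hs).le]
    · congr 1
      · exact Finset.sum_congr rfl fun s hs => Real.sq_sqrt (W.pos s hs).le
      · refine Finset.sum_congr rfl fun s hs => ?_
        rw [mul_pow, Real.sq_sqrt (W.pos s hs).le]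
  rw [W.sum, one_mul] at h3
  exact (pow_le_pow_left₀ (norm_nonneg _) h2 2).trans h3

lemma energy_nonneg (u : V) : 0 ≤ (inner ℝ (De W σ u) u : ℝ) := by
  have := energy W σ hσ u
  have h2 : 0 ≤ W.E (fun s => ‖σ s u - u‖ ^ 2) := W.E_nonneg fun s _ => by positivity
  linarith

lemma step_le {s : G} (hs : s ∈ W.S) (u : V) :
    W.μ s * ‖σ s u - u‖ ^ 2 ≤ 2 * (inner ℝ (De W σ u) u : ℝ) := by
  rw [energy W σ hσ]
  exact Finset.single_le_sum (f := fun s => W.μ s * ‖σ s u - u‖ ^ 2)
    (fun s hs => mul_nonneg (W.pos s hs).le (by positivity)) hs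

lemma tendsto_all {y : ℕ → V} {e : ℕ → ℝ} (he : Tendsto e atTop (𝓝 0))
    (hy : ∀ k, (inner ℝ (De W σ (y k)) (y k) : ℝ) ≤ e k) (g : G) :
    Tendsto (fun k => ‖σ g (y k) - y k‖) atTop (𝓝 0) := by
  have hg : g ∈ Subgroup.closure (W.S : Set G) := by rw [W.gen]; exact Subgroup.mem_top g
  induction hg using Subgroup.closure_induction with
  | mem s hs =>
      have h1 : Tendsto (fun k => Real.sqrt (2 * e k / W.μ s)) atTop (𝓝 0) := by
        have h2 : Tendsto (fun k => 2 * e k / W.μ s) atTop (𝓝 (2 * 0 / W.μ s)) :=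
          (he.const_mul 2).div_const _
        have h3 : Tendsto (fun k => Real.sqrt (2 * e k / W.μ s)) atTop
            (𝓝 (Real.sqrt (2 * 0 / W.μ s))) := (Real.continuous_sqrt.tendsto _).comp h2
        simpa using h3
      refine squeeze_zero (fun k => norm_nonneg _) (fun k => ?_) h1
      refine Real.le_sqrt_of_sq_le ?_
      rw [le_div_iff₀ (W.pos s hs)]
      have := step_le W σ hσ hs (y k)
      nlinarith [hy k]
  | one =>
      simp
  | mul a b _ _ ha hb =>
      refine squeeze_zero (fun k => norm_nonneg _) (fun k => ?_) (by simpa using ha.add hb)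
      rw [map_mul, Module.End.mul_apply]
      calc ‖σ a (σ b (y k)) - y k‖ = ‖(σ a (y k) - y k) + σ a (σ b (y k) - y k)‖ := by
            rw [map_sub]; congr 1; abel
        _ ≤ ‖σ a (y k) - y k‖ + ‖σ b (y k) - y k‖ := by
            refine (norm_add_le _ _).trans ?_
            rw [norm_σ σ hσ]
  | inv a _ ha =>
      refine ha.congr fun k => ?_
      rw [← norm_σ σ hσ a⁻¹ (σ a (y k) - y k), map_sub, ← Module.End.mul_apply, ← map_mul,
        inv_mul_cancel, map_one, Module.End.one_apply, norm_sub_rev]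

theorem abs_dich (y : V) :
    (∀ η : ℝ, 0 < η → ∃ q : ℝ[X], q.eval 0 = 1 ∧ ‖aeval (De W σ) q y‖ ^ 2 ≤ η) ∨
    (∃ θ : ℝ, 0 < θ ∧ ∀ η : ℝ, 0 < η → ∃ q : ℝ[X], q.eval 0 = 1 ∧
      θ ≤ (inner ℝ y (aeval (De W σ) q y) : ℝ) ∧
      ∀ (u : V) (h : G), |(inner ℝ (σ h u) (aeval (De W σ) q y) : ℝ) -
        inner ℝ u (aeval (De W σ) q y)| ≤ η * ‖u‖) := by
  by_cases hleft : ∀ η : ℝ, 0 < η → ∃ q : ℝ[X], q.eval 0 = 1 ∧ ‖aeval (De W σ) q y‖ ^ 2 ≤ η
  · exact Or.inl hleft
  right
  push Not at hleft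
  obtain ⟨η₀, hη₀, hlow⟩ := hleft
  set A : Set ℝ := {x | ∃ q : ℝ[X], q.eval 0 = 1 ∧ x = ‖aeval (De W σ) q y‖ ^ 2} with hA
  have hAne : A.Nonempty := ⟨_, 1, by simp, rfl⟩
  have hAbdd : BddBelow A := ⟨0, by rintro _ ⟨q, _, rfl⟩; positivity⟩
  set θ := sInf A with hθ
  have hθpos : 0 < θ := by
    refine lt_of_lt_of_le hη₀ (le_csInf hAne ?_)
    rintro _ ⟨q, hq, rfl⟩
    exact (hlow q hq).le
  have hmin : ∀ q : ℝ[X], q.eval 0 = 1 → θ ≤ ‖aeval (De W σ) q y‖ ^ 2 := fun q hq =>
    csInf_le hAbdd ⟨q, hq, rfl⟩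
  have hex : ∀ n : ℕ, ∃ q : ℝ[X], q.eval 0 = 1 ∧
      ‖aeval (De W σ) q y‖ ^ 2 ≤ θ + 1 / ((n : ℝ) + 1) := by
    intro n
    obtain ⟨_, ⟨q, hq, rfl⟩, hlt⟩ := exists_lt_of_csInf_lt hAne
      (show sInf A < θ + 1 / ((n : ℝ) + 1) by
        have : (0 : ℝ) < 1 / ((n : ℝ) + 1) := by positivity
        linarith)
    exact ⟨q, hq, hlt.le⟩
  choose q hq hqle using hex
  set e : ℕ → ℝ := fun n => 1 / ((n : ℝ) + 1) with he
  have he0 : Tendsto e atTop (𝓝 0) := tendsto_one_div_add_atTop_nhds_zero_nat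
  have hepos : ∀ n, 0 < e n := fun n => by simp only [he]; positivity
  have hele : ∀ n, e n ≤ 1 := by
    intro n
    simp only [he]
    rw [div_le_one (by positivity)]
    have : (0 : ℝ) ≤ n := Nat.cast_nonneg n
    linarith
  set Y : ℕ → V := fun n => aeval (De W σ) (q n) y with hY
  have hYle : ∀ n, ‖Y n‖ ^ 2 ≤ θ + e n := hqle
  have hYge : ∀ n, θ ≤ ‖Y n‖ ^ 2 := fun n => hmin _ (hq n)
  -- Cauchy
  have hcauchy : ∀ n k, ‖Y n - Y k‖ ^ 2 ≤ 2 * e n + 2 * e k := by
    intro n k
    have h1 : θ ≤ ‖aeval (De W σ) (C (1 / 2) * (q n + q k)) y‖ ^ 2 :=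
      hmin _ (by simp [hq]; norm_num)
    have h2 : aeval (De W σ) (C (1 / 2 : ℝ) * (q n + q k)) y = (1 / 2 : ℝ) • (Y n + Y k) := by
      simp only [map_mul, map_add, aeval_C, Module.End.mul_apply, Module.algebraMap_end_apply,
        LinearMap.add_apply, hY, smul_add]
    rw [h2, norm_smul, Real.norm_of_nonneg (by norm_num), mul_pow] at h1
    have h3 := parallelogram_law_with_norm ℝ (Y n) (Y k)
    have h4 := hYle n
    have h5 := hYle k
    nlinarith
  -- small energy
  have henergy : ∀ k, (inner ℝ (De W σ (Y k)) (Y k) : ℝ) ≤ 8 / 3 * e k := by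
    intro k
    have h1 : θ ≤ ‖aeval (De W σ) ((1 - C (1 / 4) * X) * q k) y‖ ^ 2 :=
      hmin _ (by simp [hq])
    have h2 : aeval (De W σ) ((1 - C (1 / 4 : ℝ) * X) * q k) y =
        Y k - (1 / 4 : ℝ) • De W σ (Y k) := by
      simp only [map_mul, map_sub, map_one, aeval_C, aeval_X, Module.End.mul_apply,
        Module.algebraMap_end_apply, LinearMap.sub_apply, Module.End.one_apply, hY]
    rw [h2, norm_sub_sq_real, real_inner_smul_right, norm_smul,
      Real.norm_of_nonneg (by norm_num), mul_pow, real_inner_comm] at h1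
    have h3 := norm_De_sq_le W σ hσ (Y k)
    have h4 := hYle k
    nlinarith
  have hinv : ∀ g, Tendsto (fun k => ‖σ g (Y k) - Y k‖) atTop (𝓝 0) :=
    tendsto_all W σ hσ (e := fun k => 8 / 3 * e k) (by simpa using he0.const_mul (8 / 3))
      henergy
  -- uniform estimate
  have hunif : ∀ n (u : V) (h : G), |(inner ℝ (σ h u) (Y n) : ℝ) - inner ℝ u (Y n)| ≤
      2 * Real.sqrt (2 * e n) * ‖u‖ := by
    intro n u h
    have hk : ∀ k, |(inner ℝ (σ h u) (Y n) : ℝ) - inner ℝ u (Y n)| ≤
        (2 * Real.sqrt (2 * e n + 2 * e k) + ‖σ h⁻¹ (Y k) - Y k‖) * ‖u‖ := by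
      intro k
      have hnk : ‖Y n - Y k‖ ≤ Real.sqrt (2 * e n + 2 * e k) :=
        Real.le_sqrt_of_sq_le (hcauchy n k)
      have h1 : (inner ℝ (σ h u) (Y n) : ℝ) - inner ℝ u (Y n) =
          inner ℝ (σ h u) (Y n - Y k) + inner ℝ u (σ h⁻¹ (Y k) - Y k) -
            inner ℝ u (Y n - Y k) := by
        rw [inner_sub_right, inner_sub_right, inner_sub_right, ← inner_shift σ hσ]
        ring
      have h2 : |(inner ℝ (σ h u) (Y n - Y k) : ℝ)| ≤ ‖u‖ * Real.sqrt (2 * e n + 2 * e k) := by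
        refine (abs_real_inner_le_norm _ _).trans ?_
        rw [norm_σ σ hσ]
        exact mul_le_mul_of_nonneg_left hnk (norm_nonneg _)
      have h3 : |(inner ℝ u (Y n - Y k) : ℝ)| ≤ ‖u‖ * Real.sqrt (2 * e n + 2 * e k) :=
        (abs_real_inner_le_norm _ _).trans (mul_le_mul_of_nonneg_left hnk (norm_nonneg _))
      have h4 : |(inner ℝ u (σ h⁻¹ (Y k) - Y k) : ℝ)| ≤ ‖u‖ * ‖σ h⁻¹ (Y k) - Y k‖ :=
        abs_real_inner_le_norm _ _
      rw [h1]
      rw [abs_le] at h2 h3 h4 ⊢
      constructor <;> nlinarith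
    have hlim : Tendsto (fun k => (2 * Real.sqrt (2 * e n + 2 * e k) +
        ‖σ h⁻¹ (Y k) - Y k‖) * ‖u‖) atTop (𝓝 ((2 * Real.sqrt (2 * e n + 2 * 0) + 0) * ‖u‖)) := by
      refine Tendsto.mul_const _ (Tendsto.add (Tendsto.const_mul _ ?_) (hinv _))
      exact (Real.continuous_sqrt.tendsto _).comp ((he0.const_mul 2).const_add _)
    have := ge_of_tendsto' hlim hk
    simpa using this
  -- lower bound
  set cc : ℝ := (‖y‖ + Real.sqrt (θ + 1)) ^ 2 with hcc
  have hcross : ∀ n, (inner ℝ (Y n) (y - Y n) : ℝ) ^ 2 ≤ e n * cc := by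
    intro n
    have hYn : ‖Y n‖ ≤ Real.sqrt (θ + 1) := by
      refine Real.le_sqrt_of_sq_le ((hYle n).trans ?_)
      linarith [hele n]
    have hc : ‖y - Y n‖ ^ 2 ≤ cc := by
      refine pow_le_pow_left₀ (norm_nonneg _) ?_ 2
      exact (norm_sub_le _ _).trans (by linarith)
    have hquad : ∀ τ : ℝ, 0 ≤ ‖y - Y n‖ ^ 2 * (τ * τ) + (2 * (inner ℝ (Y n) (y - Y n) : ℝ)) * τ +
        e n := by
      intro τ
      have h1 : θ ≤ ‖aeval (De W σ) (q n + C τ * (1 - q n)) y‖ ^ 2 :=
        hmin _ (by simp [hq])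
      have h2 : aeval (De W σ) (q n + C τ * (1 - q n)) y = Y n + τ • (y - Y n) := by
        simp only [map_mul, map_sub, map_add, map_one, aeval_C, Module.End.mul_apply,
          Module.algebraMap_end_apply, LinearMap.sub_apply, LinearMap.add_apply,
          Module.End.one_apply, hY, smul_sub]
      rw [h2, norm_add_sq_real, real_inner_smul_right, norm_smul, mul_pow, Real.norm_eq_abs,
        sq_abs] at h1
      have h3 := hYle n
      nlinarith
    have hd := discrim_le_zero hquad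
    rw [discrim] at hd
    have h5 : (inner ℝ (Y n) (y - Y n) : ℝ) ^ 2 ≤ ‖y - Y n‖ ^ 2 * e n := by nlinarith
    calc _ ≤ ‖y - Y n‖ ^ 2 * e n := h5
      _ ≤ cc * e n := mul_le_mul_of_nonneg_right hc (hepos n).le
      _ = e n * cc := mul_comm _ _
  refine ⟨θ / 2, by positivity, fun η hη => ?_⟩
  have hlim1 : Tendsto (fun n => 2 * Real.sqrt (2 * e n)) atTop (𝓝 0) := by
    have := ((Real.continuous_sqrt.tendsto (2 * 0)).comp (he0.const_mul 2)).const_mul 2
    simpa using this
  have hlim2 : Tendsto (fun n => e n * cc) atTop (𝓝 0) := by simpa using he0.mul_const cc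
  obtain ⟨n, hn1, hn2⟩ := ((hlim1.eventually (gt_mem_nhds hη)).and
    (hlim2.eventually (gt_mem_nhds (show (0 : ℝ) < (θ / 2) ^ 2 by positivity)))).exists
  refine ⟨q n, hq n, ?_, fun u h => (hunif n u h).trans ?_⟩
  · have h1 : (inner ℝ y (Y n) : ℝ) = ‖Y n‖ ^ 2 + inner ℝ (Y n) (y - Y n) := by
      rw [inner_sub_right, real_inner_self_eq_norm_sq, real_inner_comm]
      ring
    have h2 : |(inner ℝ (Y n) (y - Y n) : ℝ)| < θ / 2 := by
      refine abs_lt_of_sq_lt_sq ?_ (by positivity)
      exact (hcross n).trans_lt hn2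
    rw [abs_lt] at h2
    show θ / 2 ≤ (inner ℝ y (Y n) : ℝ)
    rw [h1]
    linarith [hYge n, h2.1]
  · exact mul_le_mul_of_nonneg_right hn1.le (norm_nonneg _)

lemma aeval_DL (q : ℝ[X]) (u w : V) :
    aeval W.DL q (fun h => (inner ℝ (σ h u) w : ℝ)) =
      fun h => (inner ℝ (σ h u) (aeval (De W σ) q w) : ℝ) := by
  have hstep : ∀ w : V, W.DL (fun h => (inner ℝ (σ h u) w : ℝ)) =
      fun h => (inner ℝ (σ h u) (De W σ w) : ℝ) := by
    intro w
    funext h
    rw [W.DL_apply, inner_De_right]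
    congr 1
    rw [← W.E_inv]
    refine W.E_congr fun s _ => ?_
    show inner ℝ (σ (s⁻¹ * h) u) w = inner ℝ (σ h u) (σ s w)
    rw [map_mul, Module.End.mul_apply, inner_shift σ hσ s⁻¹, inv_inv]
  induction q using Polynomial.induction_on' with
  | add p q hp hq =>
      rw [map_add, LinearMap.add_apply, hp, hq]
      funext h
      simp only [Pi.add_apply, map_add, LinearMap.add_apply, inner_add_right]
  | monomial n a =>
      rw [aeval_monomial, aeval_monomial, Module.End.mul_apply, Module.End.mul_apply,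
        Module.algebraMap_end_apply, Module.algebraMap_end_apply]
      have : ∀ w : V, (W.DL ^ n) (fun h => (inner ℝ (σ h u) w : ℝ)) =
          fun h => (inner ℝ (σ h u) ((De W σ ^ n) w) : ℝ) := by
        induction n with
        | zero => intro w; simp
        | succ n ih =>
            intro w
            rw [pow_succ, Module.End.mul_apply, hstep, ih, pow_succ, Module.End.mul_apply]
      rw [this]
      funext h
      simp only [Pi.smul_apply, smul_eq_mul, real_inner_smul_right]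

omit hσ in
lemma aeval_DR (q : ℝ[X]) (w v : V) :
    aeval W.DR q (fun h => (inner ℝ (σ h w) v : ℝ)) =
      fun h => (inner ℝ (σ h (aeval (De W σ) q w)) v : ℝ) := by
  have hstep : ∀ w : V, W.DR (fun h => (inner ℝ (σ h w) v : ℝ)) =
      fun h => (inner ℝ (σ h (De W σ w)) v : ℝ) := by
    intro w
    funext h
    rw [W.DR_apply, De_apply, map_sub, map_sum, inner_sub_left, sum_inner]
    congr 1
    refine Finset.sum_congr rfl fun s _ => ?_
    show W.μ s * inner ℝ (σ (h * s) w) v = _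
    rw [map_smul, real_inner_smul_left, map_mul, Module.End.mul_apply]
  induction q using Polynomial.induction_on' with
  | add p q hp hq =>
      rw [map_add, LinearMap.add_apply, hp, hq]
      funext h
      simp only [Pi.add_apply, map_add, LinearMap.add_apply, inner_add_left]
  | monomial n a =>
      rw [aeval_monomial, aeval_monomial, Module.End.mul_apply, Module.End.mul_apply,
        Module.algebraMap_end_apply, Module.algebraMap_end_apply]
      have : ∀ w : V, (W.DR ^ n) (fun h => (inner ℝ (σ h w) v : ℝ)) =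
          fun h => (inner ℝ (σ h ((De W σ ^ n) w)) v : ℝ) := by
        induction n with
        | zero => intro w; simp
        | succ n ih =>
            intro w
            rw [pow_succ, Module.End.mul_apply, hstep, ih, pow_succ, Module.End.mul_apply]
      rw [this]
      funext h
      simp only [Pi.smul_apply, smul_eq_mul, map_smul, real_inner_smul_left]

end abs

section concrete

variable {X : Type u} {κ : X → X → ℝ}

/-- the bilinear form of a kernel -/
noncomputable def Bf (κ : X → X → ℝ) : (X →₀ ℝ) →ₗ[ℝ] (X →₀ ℝ) →ₗ[ℝ] ℝ :=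
  Finsupp.linearCombination ℝ (fun x => Finsupp.linearCombination ℝ (fun y => κ x y))

lemma Bf_single (x y : X) (a b : ℝ) :
    Bf κ (Finsupp.single x a) (Finsupp.single y b) = a * (b * κ x y) := by
  simp [Bf]

lemma Bf_apply (u v : X →₀ ℝ) :
    Bf κ u v = ∑ x ∈ u.support, ∑ y ∈ v.support, u x * v y * κ x y := by
  rw [Bf, Finsupp.linearCombination_apply, Finsupp.sum, LinearMap.sum_apply]
  refine Finset.sum_congr rfl fun x _ => ?_
  rw [LinearMap.smul_apply, Finsupp.linearCombination_apply, Finsupp.sum, smul_eq_mul,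
    Finset.mul_sum]
  refine Finset.sum_congr rfl fun y _ => ?_
  rw [smul_eq_mul, mul_assoc]

lemma Bf_symm (h : PSDk κ) (u v : X →₀ ℝ) : Bf κ u v = Bf κ v u := by
  rw [Bf_apply, Bf_apply, Finset.sum_comm]
  refine Finset.sum_congr rfl fun x _ => Finset.sum_congr rfl fun y _ => ?_
  rw [h.1 y x]
  ring

lemma Bf_nonneg (h : PSDk κ) (u : X →₀ ℝ) : 0 ≤ Bf κ u u := by
  rw [Bf_apply]
  exact h.2 u.support u

/-- the inner product core -/
@[instance_reducible]
noncomputable def coreOf (h : PSDk κ) : PreInnerProductSpace.Core ℝ (X →₀ ℝ) where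
  inner u v := Bf κ u v
  conj_inner_symm u v := by
    show (starRingEnd ℝ) (Bf κ v u) = Bf κ u v
    rw [Bf_symm h v u]
    rfl
  re_inner_nonneg u := Bf_nonneg h u
  add_left u v w := by
    show Bf κ (u + v) w = Bf κ u w + Bf κ v w
    rw [map_add, LinearMap.add_apply]
  smul_left u v r := by
    show Bf κ (r • u) v = (starRingEnd ℝ) r * Bf κ u v
    rw [map_smul, LinearMap.smul_apply]
    rfl

/-- the representation -/
noncomputable def rep (act : G → X → X) (act_one : ∀ x, act 1 x = x)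
    (act_mul : ∀ g h x, act (g * h) x = act g (act h x)) : G →* Module.End ℝ (X →₀ ℝ) where
  toFun g := Finsupp.lmapDomain ℝ ℝ (act g)
  map_one' := by
    refine Finsupp.lhom_ext fun x a => ?_
    simp [act_one]
  map_mul' g h := by
    refine Finsupp.lhom_ext fun x a => ?_
    simp [act_mul]

lemma rep_single (act : G → X → X) (act_one : ∀ x, act 1 x = x)
    (act_mul : ∀ g h x, act (g * h) x = act g (act h x)) (g : G) (x : X) (a : ℝ) :
    rep act act_one act_mul g (Finsupp.single x a) = Finsupp.single (act g x) a := by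
  simp [rep]

lemma Bf_rep (act : G → X → X) (act_one : ∀ x, act 1 x = x)
    (act_mul : ∀ g h x, act (g * h) x = act g (act h x))
    (hinv : ∀ g x y, κ (act g x) (act g y) = κ x y) (g : G) (u v : X →₀ ℝ) :
    Bf κ (rep act act_one act_mul g u) (rep act act_one act_mul g v) = Bf κ u v := by
  induction u using Finsupp.induction_linear with
  | zero => simp
  | add u u' hu hu' => rw [map_add, map_add, LinearMap.add_apply, hu, hu', map_add,
      LinearMap.add_apply]
  | single x a =>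
      induction v using Finsupp.induction_linear with
      | zero => simp
      | add v v' hv hv' => rw [map_add, map_add, hv, hv', map_add]
      | single y b => rw [rep_single, rep_single, Bf_single, Bf_single, hinv]

end concrete

end Dich

open Dich in
theorem dichotomy (W : Walk G) {X : Type u} {κ : X → X → ℝ} (hκ : PSDk κ) (act : G → X → X)
    (act_one : ∀ x, act 1 x = x) (act_mul : ∀ g h x, act (g * h) x = act g (act h x))
    (hinv : ∀ g x y, κ (act g x) (act g y) = κ x y) (z : G → X) :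
    (∀ η : ℝ, 0 < η → ∃ q : Polynomial ℝ, q.eval 0 = 1 ∧
      W.ev (q ^ 2) (fun g => W.E (fun s' => W.E (fun s => κ (act g (z s')) (z s)))) ≤ η) ∨
    (∃ θ : ℝ, 0 < θ ∧ ∀ η : ℝ, 0 < η → ∃ q : Polynomial ℝ, q.eval 0 = 1 ∧
      θ ≤ W.E (fun s' => Polynomial.aeval W.DL q (fun h => W.E (fun s => κ (act h (z s')) (z s))) 1) ∧
      ∀ (x : X) (h : G),
        |Polynomial.aeval W.DL q (fun h => W.E (fun s => κ (act h x) (z s))) h -
          Polynomial.aeval W.DL q (fun h => W.E (fun s => κ (act h x) (z s))) 1| ≤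
        η * Real.sqrt (κ x x)) := by
  let core : PreInnerProductSpace.Core ℝ (X →₀ ℝ) := coreOf hκ
  let ng : SeminormedAddCommGroup (X →₀ ℝ) :=
    InnerProductSpace.Core.toSeminormedAddCommGroup (𝕜 := ℝ)
  let ip : InnerProductSpace ℝ (X →₀ ℝ) := InnerProductSpace.ofCore core
  set σ := rep act act_one act_mul with hσdef
  have hin : ∀ u v : X →₀ ℝ, (inner ℝ u v : ℝ) = Bf κ u v := fun u v => rfl
  have hσ : ∀ g u v, (inner ℝ (σ g u) (σ g v) : ℝ) = inner ℝ u v := fun g u v =>
    Bf_rep act act_one act_mul hinv g u v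
  set y : X →₀ ℝ := ∑ s ∈ W.S, W.μ s • Finsupp.single (z s) 1 with hy
  have hfx : ∀ x, (fun h => W.E (fun s => κ (act h x) (z s))) =
      fun h => (inner ℝ (σ h (Finsupp.single x 1)) y : ℝ) := by
    intro x
    funext h
    rw [hy, hin, map_sum, hσdef, rep_single]
    refine Finset.sum_congr rfl fun s _ => ?_
    rw [map_smul, Bf_single, smul_eq_mul, one_mul, one_mul]
  have hr : (fun g => W.E (fun s' => W.E (fun s => κ (act g (z s')) (z s)))) =
      fun g => (inner ℝ (σ g y) y : ℝ) := by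
    funext g
    have h1 : ∀ s', W.E (fun s => κ (act g (z s')) (z s)) =
        (inner ℝ (σ g (Finsupp.single (z s') 1)) y : ℝ) := fun s' => congrFun (hfx (z s')) g
    simp_rw [h1]
    conv_rhs => rw [hy, map_sum, sum_inner]
    refine Finset.sum_congr rfl fun s _ => ?_
    rw [map_smul, real_inner_smul_left]
  rcases abs_dich W σ hσ y with h | ⟨θ, hθ, h⟩
  · left
    intro η hη
    obtain ⟨q, hq, hle⟩ := h η hη
    refine ⟨q, hq, ?_⟩
    rw [hr]
    unfold Walk.ev
    rw [Dich.aeval_DR W σ]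
    show (inner ℝ (σ 1 (aeval (De W σ) (q ^ 2) y)) y : ℝ) ≤ η
    rw [map_one, Module.End.one_apply, pow_two, map_mul, Module.End.mul_apply,
      aeval_symm W σ hσ, real_inner_self_eq_norm_sq]
    exact hle
  · right
    refine ⟨θ, hθ, fun η hη => ?_⟩
    obtain ⟨q, hq, h1, h2⟩ := h η hη
    refine ⟨q, hq, ?_, fun x h => ?_⟩
    · refine h1.trans (le_of_eq ?_)
      have h3 : ∀ s', aeval W.DL q (fun h => W.E (fun s => κ (act h (z s')) (z s))) 1 =
          (inner ℝ (Finsupp.single (z s') (1 : ℝ)) (aeval (De W σ) q y) : ℝ) := by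
        intro s'
        rw [hfx, Dich.aeval_DL W σ hσ]
        show (inner ℝ (σ 1 (Finsupp.single (z s') (1 : ℝ))) (aeval (De W σ) q y) : ℝ) = _
        rw [map_one, Module.End.one_apply]
      simp_rw [h3]
      conv_lhs => rw [hy, sum_inner]
      refine Finset.sum_congr rfl fun s _ => ?_
      rw [real_inner_smul_left]
    · rw [hfx, Dich.aeval_DL W σ hσ]
      have h4 := h2 (Finsupp.single x 1) h
      have h5 : ‖(Finsupp.single x (1 : ℝ) : X →₀ ℝ)‖ = Real.sqrt (κ x x) := by
        rw [norm_eq_sqrt_real_inner, hin, Bf_single, one_mul, one_mul]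
      rw [h5] at h4
      refine le_trans (le_of_eq ?_) h4
      show |_ - (inner ℝ (σ 1 (Finsupp.single x (1 : ℝ))) (aeval (De W σ) q y) : ℝ)| = _
      rw [map_one, Module.End.one_apply]

end Pool.SpecDense
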