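import Pool.Agent.Lib.MP_863a8d_al.Op

/-!
# JOB VEC: vectors of small energy

Write `Δ = 1 - M`. Step 1: `0 ∈ spectrum ℝ Δ`: otherwise `Δ` is invertible, so `‖f‖ ≤ C ‖Δ f‖`;
but for `F` the inverse of a Folner set, `f = 1_F / sqrt #F` has `‖R s f - f‖` small for `s ∈ S`.
Step 2: let `b x = max 0 (1 - |x| / δ)`, `B = cfc b Δ`; `B ≠ 0` since `b 0 = 1` and `0` is in the
spectrum (spectral mapping). Take `u` with `v = B u ≠ 0`, normalise.
`x² b(x)² ≤ δ x b(x)²` and `x b(x)² ≤ δ b(x)²` on the spectrum (contained in `[0, 2]`) give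
`‖Δ v‖² ≤ δ ⟨Δ v, v⟩` and `⟨Δ v, v⟩ ≤ δ ‖v‖²` (`cfc_mono`).
Step 3: `⟨Δ v, v⟩ = ½ ∑ s, μ s ‖R s v - v‖²`, so if it is zero then `v` is invariant under the group
generated by `S`, hence constant, hence zero because `G` is infinite.
-/

set_option autoImplicit false

open Filter Topology

namespace Pool.SpecDense

universe u

section abstractH

variable {H : Type u} [NormedAddCommGroup H] [InnerProductSpace ℂ H] [CompleteSpace H]

/-- The cut-off function. -/
noncomputable def vec_b (δ : ℝ) (x : ℝ) : ℝ := max 0 (1 - |x| / δ)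

theorem vec_b_continuous (δ : ℝ) : Continuous (vec_b δ) := by
  unfold vec_b
  fun_prop

theorem vec_b_zero {δ x : ℝ} (hδ : 0 < δ) (hx : 0 ≤ x) (h : δ < x) : vec_b δ x = 0 := by
  unfold vec_b
  rw [max_eq_left]
  rw [abs_of_nonneg hx, sub_nonpos, one_le_div hδ]
  exact h.le

theorem vec_cfc_inner (T : H →L[ℂ] H) (f g : ℝ → ℝ) (hf : Continuous f) (hg : Continuous g)
    (u : H) : (inner ℂ (cfc f T u) (cfc g T u)).re =
      (inner ℂ (cfc (fun x => f x * g x) T u) u).re := by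
  rw [mul_comm_fun f g, cfc_mul g f T hg.continuousOn hf.continuousOn]
  have h1 : IsSelfAdjoint (cfc g T) := IsSelfAdjoint.cfc
  have h2 := (ContinuousLinearMap.isSelfAdjoint_iff_isSymmetric.1 h1) (cfc f T u) u
  simp only [ContinuousLinearMap.coe_coe] at h2
  show _ = (inner ℂ (cfc g T (cfc f T u)) u).re
  rw [h2]
where
  mul_comm_fun (f g : ℝ → ℝ) : (fun x => f x * g x) = fun x => g x * f x := by
    funext x; ring

theorem vec_cfc_le (T : H →L[ℂ] H) (f g : ℝ → ℝ) (hf : Continuous f) (hg : Continuous g)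
    (h : ∀ x ∈ spectrum ℝ T, f x ≤ g x) (u : H) :
    (inner ℂ (cfc f T u) u).re ≤ (inner ℂ (cfc g T u) u).re := by
  have h1 : cfc f T ≤ cfc g T := cfc_mono h hf.continuousOn hg.continuousOn
  rw [ContinuousLinearMap.le_def] at h1
  have h2 := h1.re_inner_nonneg_left u
  have h3 : (cfc g T - cfc f T) u = cfc g T u - cfc f T u := rfl
  rw [h3, inner_sub_left] at h2
  have h4 : RCLike.re (inner ℂ (cfc g T u) u - inner ℂ (cfc f T u) u) =
      (inner ℂ (cfc g T u) u).re - (inner ℂ (cfc f T u) u).re := by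
    rw [map_sub]; rfl
  rw [h4] at h2
  linarith

theorem vec_abstract (T : H →L[ℂ] H) (hT : IsSelfAdjoint T)
    (hpos' : ∀ x : ℝ, (x : ℂ) ∈ spectrum ℂ T → 0 ≤ x) (h0' : (0 : ℂ) ∈ spectrum ℂ T)
    {δ : ℝ} (hδ : 0 < δ) :
    ∃ v : H, ‖v‖ = 1 ∧ (inner ℂ (T v) v).re ≤ δ ∧
      ‖T v‖ ^ 2 ≤ δ * (inner ℂ (T v) v).re := by
  have hpos : ∀ x ∈ spectrum ℝ T, 0 ≤ x := fun x hx =>
    hpos' x ((spectrum.algebraMap_mem_iff ℂ).2 hx)
  have h0 : (0 : ℝ) ∈ spectrum ℝ T := by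
    refine (spectrum.algebraMap_mem_iff ℂ).1 ?_
    rw [map_zero]
    exact h0'
  set b := vec_b δ with hb
  have hbc : Continuous b := vec_b_continuous δ
  have hB : cfc b T ≠ 0 := by
    intro h
    have h1 : b 0 ∈ spectrum ℝ (cfc b T) := by
      rw [cfc_map_spectrum b T hT hbc.continuousOn]
      exact ⟨0, h0, rfl⟩
    rw [h] at h1
    have h2 : b 0 = 1 := by
      rw [hb]; unfold vec_b; simp
    rw [h2] at h1
    rw [spectrum.mem_iff] at h1
    apply h1
    have : algebraMap ℝ (H →L[ℂ] H) 1 - 0 = 1 := by simp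
    rw [this]
    exact isUnit_one
  obtain ⟨u, hu⟩ : ∃ u, cfc b T u ≠ 0 := by
    by_contra hcon
    push Not at hcon
    exact hB (ContinuousLinearMap.ext hcon)
  set w := cfc b T u with hw
  have hTw : T w = cfc (fun x => x * b x) T u := by
    have h1 : cfc (fun x : ℝ => x * b x) T = T * cfc b T := by
      rw [cfc_mul (fun x : ℝ => x) b T continuousOn_id hbc.continuousOn, cfc_id' ℝ T hT]
    rw [h1]
    rfl
  have c1 : Continuous fun x : ℝ => x * b x := continuous_id.mul hbc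
  have e1 : (inner ℂ (T w) w).re = (inner ℂ (cfc (fun x => x * b x * b x) T u) u).re := by
    rw [hTw, hw, vec_cfc_inner T _ _ c1 hbc]
  have e2 : ‖T w‖ ^ 2 = (inner ℂ (cfc (fun x => x * b x * (x * b x)) T u) u).re := by
    rw [← vec_cfc_inner T _ _ c1 c1, hTw]
    exact (inner_self_eq_norm_sq (𝕜 := ℂ) _).symm
  have e3 : ‖w‖ ^ 2 = (inner ℂ (cfc (fun x => b x * b x) T u) u).re := by
    rw [← vec_cfc_inner T _ _ hbc hbc]
    exact (inner_self_eq_norm_sq (𝕜 := ℂ) _).symm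
  have e4 : ∀ f : ℝ → ℝ, Continuous f → (inner ℂ (cfc (fun x => δ * f x) T u) u).re =
      δ * (inner ℂ (cfc f T u) u).re := by
    intro f hf
    rw [cfc_const_mul δ f T hf.continuousOn]
    have : (δ • cfc f T) u = (δ : ℂ) • (cfc f T u) := rfl
    rw [this, inner_smul_left, Complex.conj_ofReal, Complex.re_ofReal_mul]
  have i1 : (inner ℂ (T w) w).re ≤ δ * ‖w‖ ^ 2 := by
    rw [e1, e3, ← e4 (fun x => b x * b x) (hbc.mul hbc)]
    refine vec_cfc_le T (fun x => x * b x * b x) (fun x => δ * (b x * b x)) (c1.mul hbc)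
      (continuous_const.mul (hbc.mul hbc)) ?_ u
    intro x hx
    have hx0 := hpos x hx
    by_cases hxd : δ < x
    · have : b x = 0 := vec_b_zero hδ hx0 hxd
      rw [this]; simp
    · push Not at hxd
      nlinarith [mul_le_mul_of_nonneg_right hxd (mul_self_nonneg (b x))]
  have i2 : ‖T w‖ ^ 2 ≤ δ * (inner ℂ (T w) w).re := by
    rw [e1, e2, ← e4 (fun x => x * b x * b x) (c1.mul hbc)]
    refine vec_cfc_le T (fun x => x * b x * (x * b x)) (fun x => δ * (x * b x * b x))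
      (c1.mul c1) (continuous_const.mul (c1.mul hbc)) ?_ u
    intro x hx
    have hx0 := hpos x hx
    by_cases hxd : δ < x
    · have : b x = 0 := vec_b_zero hδ hx0 hxd
      rw [this]; simp
    · push Not at hxd
      nlinarith [mul_le_mul_of_nonneg_right hxd (mul_nonneg hx0 (mul_self_nonneg (b x)))]
  have hw0 : 0 < ‖w‖ := norm_pos_iff.2 hu
  set c : ℝ := ‖w‖⁻¹ with hc
  have hc0 : 0 < c := inv_pos.2 hw0
  have hcw : c * ‖w‖ = 1 := inv_mul_cancel₀ hw0.ne'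
  have e5 : (inner ℂ (T ((c : ℂ) • w)) ((c : ℂ) • w)).re = c ^ 2 * (inner ℂ (T w) w).re := by
    rw [map_smul, inner_smul_left, inner_smul_right, Complex.conj_ofReal,
      Complex.re_ofReal_mul, Complex.re_ofReal_mul]
    ring
  refine ⟨(c : ℂ) • w, ?_, ?_, ?_⟩
  · rw [norm_smul, Complex.norm_real, Real.norm_of_nonneg hc0.le, hcw]
  · rw [e5]
    calc c ^ 2 * (inner ℂ (T w) w).re ≤ c ^ 2 * (δ * ‖w‖ ^ 2) :=
          mul_le_mul_of_nonneg_left i1 (by positivity)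
      _ = δ * (c * ‖w‖) ^ 2 := by ring
      _ = δ := by rw [hcw]; ring
  · rw [e5, map_smul, norm_smul, Complex.norm_real, Real.norm_of_nonneg hc0.le]
    calc (c * ‖T w‖) ^ 2 = c ^ 2 * ‖T w‖ ^ 2 := by ring
      _ ≤ c ^ 2 * (δ * (inner ℂ (T w) w).re) := mul_le_mul_of_nonneg_left i2 (by positivity)
      _ = δ * (c ^ 2 * (inner ℂ (T w) w).re) := by ring

end abstractH

variable {G : Type u} [Group G]

/-- Energy. -/
theorem vec_energy (W : Walk G) (v : L2 G) :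
    (inner ℂ (v - W.op v) v).re = (∑ s ∈ W.S, W.μ s * ‖R s v - v‖ ^ 2) / 2 := by
  have h1 : ∀ s, ‖R s v - v‖ ^ 2 = 2 * ‖v‖ ^ 2 - 2 * (inner ℂ (R s v) v).re := by
    intro s
    rw [@norm_sub_sq ℂ]
    rw [norm_R]
    have : RCLike.re (inner ℂ (R s v) v) = (inner ℂ (R s v) v).re := rfl
    rw [this]
    ring
  have h2 : (inner ℂ (v - W.op v) v).re = ‖v‖ ^ 2 - ∑ s ∈ W.S, W.μ s * (inner ℂ (R s v) v).re := by
    rw [inner_sub_left, Complex.sub_re]
    congr 1
    · exact inner_self_eq_norm_sq (𝕜 := ℂ) v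
    · rw [W.op_eq, sum_inner, Complex.re_sum]
      refine Finset.sum_congr rfl fun s _ => ?_
      rw [inner_smul_left, Complex.conj_ofReal, Complex.re_ofReal_mul]
  rw [h2]
  have h3 : ∑ s ∈ W.S, W.μ s * ‖R s v - v‖ ^ 2 =
      (∑ s ∈ W.S, W.μ s) * (2 * ‖v‖ ^ 2) - 2 * ∑ s ∈ W.S, W.μ s * (inner ℂ (R s v) v).re := by
    rw [Finset.sum_mul, Finset.mul_sum, ← Finset.sum_sub_distrib]
    refine Finset.sum_congr rfl fun s _ => ?_
    rw [h1]
    ring
  rw [h3, W.sum]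
  ring

/-- A vector of energy zero vanishes. -/
theorem vec_energy_pos (W : Walk G) [Infinite G] (v : L2 G) (hv : v ≠ 0) :
    0 < (inner ℂ (v - W.op v) v).re := by
  have h0 : ∀ s ∈ W.S, 0 ≤ W.μ s * ‖R s v - v‖ ^ 2 := fun s hs =>
    mul_nonneg (W.pos s hs).le (sq_nonneg _)
  rw [vec_energy]
  by_contra hcon
  have h1 : ∑ s ∈ W.S, W.μ s * ‖R s v - v‖ ^ 2 = 0 :=
    le_antisymm (by linarith) (Finset.sum_nonneg h0)
  rw [Finset.sum_eq_zero_iff_of_nonneg h0] at h1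
  have h2 : ∀ s ∈ W.S, R s v = v := by
    intro s hs
    have h3 := h1 s hs
    rcases mul_eq_zero.1 h3 with h4 | h4
    · exact absurd h4 (W.pos s hs).ne'
    · rw [← sub_eq_zero, ← norm_eq_zero]
      exact pow_eq_zero_iff (two_ne_zero) |>.1 h4
  have h3 : ∀ g : G, R g v = v := by
    intro g
    have hg : g ∈ Subgroup.closure (W.S : Set G) := by rw [W.gen]; exact Subgroup.mem_top g
    induction hg using Subgroup.closure_induction with
    | mem x hx => exact h2 x hx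
    | one => exact R_one v
    | mul x y _ _ hx hy => rw [R_mul, hy, hx]
    | inv x _ hx =>
      have : R x⁻¹ (R x v) = v := by rw [← R_mul, inv_mul_cancel, R_one]
      rwa [hx] at this
  have h4 : ∀ g : G, (v : G → ℂ) g = (v : G → ℂ) 1 := by
    intro g
    have := congrArg (fun f : L2 G => (f : G → ℂ) 1) (h3 g)
    simpa [R_apply] using this
  apply hv
  have h5 := lp.memℓp v
  rw [memℓp_gen_iff (by norm_num)] at h5
  have h6 : (fun g : G => ‖(v : G → ℂ) g‖ ^ (2 : ENNReal).toReal) =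
      fun _ => ‖(v : G → ℂ) 1‖ ^ (2 : ENNReal).toReal := by
    funext g
    rw [h4 g]
  rw [h6, summable_const_iff] at h5
  have h7 : (v : G → ℂ) 1 = 0 := by
    rw [← norm_eq_zero]
    rw [Real.rpow_eq_zero_iff_of_nonneg (norm_nonneg _)] at h5
    exact h5.1
  apply lp.ext
  funext g
  rw [h4 g, h7]
  rfl

/-- The indicator function of the inverse of a finite set. -/
theorem vec_ind_mem (F : Finset G) :
    Memℓp (fun x : G => (Set.indicator {x : G | x⁻¹ ∈ F} (fun _ => (1 : ℂ)) x)) 2 := by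
  rw [memℓp_gen_iff (by norm_num)]
  refine summable_of_hasFiniteSupport ?_
  refine Set.Finite.subset (F.finite_toSet.preimage (inv_injective.injOn)) ?_
  intro x hx
  by_contra h
  apply hx
  have : Set.indicator {x : G | x⁻¹ ∈ F} (fun _ => (1 : ℂ)) x = 0 :=
    Set.indicator_of_notMem h _
  show ‖Set.indicator {x : G | x⁻¹ ∈ F} (fun _ => (1 : ℂ)) x‖ ^ _ = 0
  rw [this, norm_zero]
  norm_num

/-- The indicator function of the inverse of a finite set. -/
noncomputable def vec_ind (F : Finset G) : L2 G := ⟨_, vec_ind_mem F⟩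

theorem vec_ind_of_mem {F : Finset G} {x : G} (h : x⁻¹ ∈ F) : (vec_ind F : G → ℂ) x = 1 := by
  have h1 : Set.indicator {x : G | x⁻¹ ∈ F} (fun _ => (1 : ℂ)) x = 1 :=
    Set.indicator_of_mem (s := {x : G | x⁻¹ ∈ F}) h _
  exact h1

theorem vec_ind_of_notMem {F : Finset G} {x : G} (h : x⁻¹ ∉ F) : (vec_ind F : G → ℂ) x = 0 := by
  have h1 : Set.indicator {x : G | x⁻¹ ∈ F} (fun _ => (1 : ℂ)) x = 0 :=
    Set.indicator_of_notMem (s := {x : G | x⁻¹ ∈ F}) h _
  exact h1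

theorem vec_ind_inner (F : Finset G) (f : L2 G) :
    inner ℂ f (vec_ind F) = ∑ y ∈ F, (starRingEnd ℂ) ((f : G → ℂ) y⁻¹) := by
  classical
  rw [lp.inner_eq_tsum, tsum_eq_sum (s := F.map (Equiv.inv G).toEmbedding)]
  · rw [Finset.sum_map]
    refine Finset.sum_congr rfl fun y hy => ?_
    have h1 : (vec_ind F : G → ℂ) y⁻¹ = 1 := vec_ind_of_mem (by rwa [inv_inv])
    simp [h1]
  · intro x hx
    have h1 : x⁻¹ ∉ F := by
      intro h
      apply hx
      rw [Finset.mem_map]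
      exact ⟨x⁻¹, h, by simp⟩
    rw [vec_ind_of_notMem h1, inner_zero_right]

theorem vec_ind_norm (F : Finset G) : ‖vec_ind F‖ ^ 2 = (F.card : ℝ) := by
  have h1 : ‖vec_ind F‖ ^ 2 = (inner ℂ (vec_ind F) (vec_ind F)).re :=
    (inner_self_eq_norm_sq (𝕜 := ℂ) _).symm
  rw [h1, vec_ind_inner]
  have : ∀ y ∈ F, (starRingEnd ℂ) ((vec_ind F : G → ℂ) y⁻¹) = 1 := by
    intro y hy
    rw [vec_ind_of_mem (by rwa [inv_inv]), map_one]
  rw [Finset.sum_congr rfl this]
  simp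

theorem vec_ind_diff (F : Finset G) (s : G) :
    ‖R s (vec_ind F) - vec_ind F‖ ^ 2 =
      2 * ((((fun x => s⁻¹ * x) '' (F : Set G)) \ (F : Set G)).ncard : ℝ) := by
  classical
  have h1 : ‖R s (vec_ind F) - vec_ind F‖ ^ 2 =
      2 * ‖vec_ind F‖ ^ 2 - 2 * (inner ℂ (R s (vec_ind F)) (vec_ind F)).re := by
    rw [@norm_sub_sq ℂ]
    rw [norm_R]
    have : RCLike.re (inner ℂ (R s (vec_ind F)) (vec_ind F)) =
      (inner ℂ (R s (vec_ind F)) (vec_ind F)).re := rfl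
    rw [this]
    ring
  rw [h1, vec_ind_norm, vec_ind_inner]
  have h2 : ∀ y ∈ F, (starRingEnd ℂ) ((R s (vec_ind F) : G → ℂ) y⁻¹) =
      if s⁻¹ * y ∈ F then 1 else 0 := by
    intro y _
    rw [R_apply]
    split_ifs with h
    · rw [vec_ind_of_mem (by simpa using h), map_one]
    · rw [vec_ind_of_notMem (by simpa using h), map_zero]
  rw [Finset.sum_congr rfl h2, Finset.sum_boole]
  have h3 : ((fun x => s⁻¹ * x) '' (F : Set G)) \ (F : Set G) =
      (((F.filter fun y => ¬ s⁻¹ * y ∈ F).image fun x => s⁻¹ * x : Finset G) : Set G) := by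
    ext z
    simp only [Set.mem_sdiff, Set.mem_image, Finset.mem_coe, Finset.coe_image, Finset.coe_filter,
      Set.mem_ofPred_eq]
    constructor
    · rintro ⟨⟨x, hx, rfl⟩, h⟩
      exact ⟨x, ⟨hx, h⟩, rfl⟩
    · rintro ⟨x, ⟨hx, h⟩, rfl⟩
      exact ⟨⟨x, hx, rfl⟩, h⟩
  rw [h3, Set.ncard_coe_finset, Finset.card_image_of_injective _ (mul_right_injective _)]
  have h4 := Finset.card_filter_add_card_filter_not (s := F) (fun y => s⁻¹ * y ∈ F)
  have h5 : (F.card : ℝ) = ((F.filter fun y => s⁻¹ * y ∈ F).card : ℝ) +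
      ((F.filter fun y => ¬ s⁻¹ * y ∈ F).card : ℝ) := by
    rw [← h4]; push_cast; rfl
  rw [h5]
  simp only [Complex.natCast_re]
  ring

theorem vec_zero_mem (W : Walk G) (hF : Folner G) : (0 : ℂ) ∈ spectrum ℂ (1 - W.op) := by
  by_contra hcon
  rw [spectrum.zero_notMem_iff] at hcon
  obtain ⟨U, hU⟩ := hcon
  set C : ℝ := ‖((U⁻¹ : (L2 G →L[ℂ] L2 G)ˣ) : L2 G →L[ℂ] L2 G)‖ with hC
  have hC0 : 0 ≤ C := norm_nonneg _
  have hinv : ∀ f : L2 G, ‖f‖ ≤ C * ‖f - W.op f‖ := by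
    intro f
    have h1 : ((U⁻¹ : (L2 G →L[ℂ] L2 G)ˣ) : L2 G →L[ℂ] L2 G) (f - W.op f) = f := by
      have h2 : f - W.op f = (U : L2 G →L[ℂ] L2 G) f := by rw [hU]; rfl
      rw [h2]
      have h3 : ((U⁻¹ : (L2 G →L[ℂ] L2 G)ˣ) : L2 G →L[ℂ] L2 G) * (U : L2 G →L[ℂ] L2 G) = 1 :=
        U.inv_mul
      exact congrArg (fun T : L2 G →L[ℂ] L2 G => T f) h3
    calc ‖f‖ = ‖((U⁻¹ : (L2 G →L[ℂ] L2 G)ˣ) : L2 G →L[ℂ] L2 G) (f - W.op f)‖ := by rw [h1]
      _ ≤ C * ‖f - W.op f‖ := ContinuousLinearMap.le_opNorm _ _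
  set ε : ℝ := 1 / (4 * (C + 1) ^ 2) with hε
  have hε0 : 0 < ε := by positivity
  obtain ⟨F, hFne, hFk⟩ := hF W.S ε hε0
  set f := vec_ind F with hf
  have hcard : 0 < (F.card : ℝ) := by exact_mod_cast hFne.card_pos
  have hfn : ‖f‖ ^ 2 = (F.card : ℝ) := vec_ind_norm F
  have hfpos : 0 < ‖f‖ := by
    rcases (norm_nonneg f).lt_or_eq with h | h
    · exact h
    · rw [← h] at hfn
      norm_num at hfn
      exact absurd hfn.symm (by simpa using hFne.ne_empty)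
  have hs : ∀ s ∈ W.S, ‖R s f - f‖ ≤ ‖f‖ / (C + 1) := by
    intro s hs
    have h1 := hFk s⁻¹ (W.inv_mem s hs)
    have h2 := vec_ind_diff F s
    have h3 : ‖R s f - f‖ ^ 2 ≤ (‖f‖ / (C + 1)) ^ 2 := by
      rw [hf, h2, div_pow, ← hf, hfn]
      have h4 : 2 * ((((fun x => s⁻¹ * x) '' (F : Set G)) \ (F : Set G)).ncard : ℝ) ≤
          2 * (ε * F.card) := by linarith
      refine h4.trans ?_
      rw [hε]
      rw [le_div_iff₀ (by positivity)]
      have : 2 * (1 / (4 * (C + 1) ^ 2) * (F.card : ℝ)) * (C + 1) ^ 2 = (F.card : ℝ) / 2 := by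
        field_simp
        ring
      rw [this]
      linarith
    exact le_of_sq_le_sq h3 (by positivity)
  have h1 : ‖f - W.op f‖ ≤ ‖f‖ / (C + 1) := by
    have e : f - W.op f = ∑ s ∈ W.S, (W.μ s : ℂ) • (f - R s f) := by
      rw [W.op_eq]
      have h5 : ∑ s ∈ W.S, (W.μ s : ℂ) • f = f := by
        rw [← Finset.sum_smul]
        have : ∑ s ∈ W.S, (W.μ s : ℂ) = 1 := by
          rw [← Complex.ofReal_sum, W.sum, Complex.ofReal_one]
        rw [this, one_smul]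
      simp_rw [smul_sub]
      rw [Finset.sum_sub_distrib, h5]
    rw [e]
    refine (norm_sum_le _ _).trans ?_
    have h2 : ∀ s ∈ W.S, ‖(W.μ s : ℂ) • (f - R s f)‖ ≤ W.μ s * (‖f‖ / (C + 1)) := by
      intro s hs'
      rw [norm_smul, Complex.norm_real, Real.norm_of_nonneg (W.pos s hs').le, norm_sub_rev]
      exact mul_le_mul_of_nonneg_left (hs s hs') (W.pos s hs').le
    refine (Finset.sum_le_sum h2).trans ?_
    rw [← Finset.sum_mul, W.sum, one_mul]
  have h2 := hinv f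
  have h3 : C * ‖f - W.op f‖ ≤ C * (‖f‖ / (C + 1)) := mul_le_mul_of_nonneg_left h1 hC0
  have h4 : C * (‖f‖ / (C + 1)) < ‖f‖ := by
    rw [← mul_div_assoc, div_lt_iff₀ (by positivity)]
    nlinarith
  linarith

theorem exists_vec (W : Walk G) [Infinite G] (hF : Folner G) {δ : ℝ} (hδ : 0 < δ) :
    ∃ v : L2 G, ‖v‖ = 1 ∧ 0 < (inner ℂ (v - W.op v) v).re ∧
      (inner ℂ (v - W.op v) v).re ≤ δ ∧
      ‖v - W.op v‖ ^ 2 ≤ δ * (inner ℂ (v - W.op v) v).re := by
  have hsa : IsSelfAdjoint (1 - W.op) := (IsSelfAdjoint.one _).sub W.op_selfAdjoint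
  obtain ⟨v, h1, h2, h3⟩ := vec_abstract (1 - W.op) hsa
    (fun x hx => (W.spec_mem (W.mem_spec_of hx)).1) (vec_zero_mem W hF) hδ
  refine ⟨v, h1, ?_, h2, h3⟩
  refine vec_energy_pos W v ?_
  intro h
  rw [h, norm_zero] at h1
  norm_num at h1

end Pool.SpecDense
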