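import Pool.Agent.Lib.MP_863a8d_al.Ker
import Pool.Agent.Lib.MP_863a8d_al.Vec

/-!
# JOB EXN: the function `N`

For `k : ℕ` take `v k` from `exists_vec` with `δ k = 1 / (k + 1)`, `e k = Re ⟨Δ v, v⟩ ∈ (0, δ k]`,
`φ k = cf (v k) (v k)` (real positive definite: `φ (x⁻¹ y) = Re ⟨R y v, R x v⟩`, `φ 1 = 1`,
`φ g⁻¹ = φ g`), `N k g = 2 (1 - φ k g) / e k ≥ 0`, so `‖R g v - v‖² = e k * N k g`.
(1) `E (N k) = 2`, so `N k s ≤ 2 / μ s` for `s ∈ S`; `sqrt (N k)` is subadditive, so `N k g ≤ C g`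
for all `k` (induction on `Subgroup.closure`).
(2) `E (fun s => N k (g s)) - N k g - 2 = 2 Re ⟨R g Δ v - Δ v, v⟩ / e k`, of absolute value
`≤ 2 ‖Δ v‖ ‖R g⁻¹ v - v‖ / e k ≤ 2 sqrt (δ k * N k g)`.
(3) `exp (-(t N k g)) = exp (-(2t / e k)) * exp ((2t / e k) * φ k g)` is positive definite
(`PSDk.smul`, `PSDk.exp`).
Let `N` be the pointwise limit along an ultrafilter finer than `atTop` (bounded sequences converge
along ultrafilters: `isCompact_Icc.ultrafilter_le_nhds` or similar); `PSDk.tendsto`.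
-/

set_option autoImplicit false

open Filter Topology

namespace Pool.SpecDense

universe u

variable {G : Type u} [Group G]

private lemma exn_one {v : L2 G} (hv : ‖v‖ = 1) : cf v v 1 = 1 := by
  unfold cf
  rw [R_one, inner_self_eq_norm_sq_to_K, hv]
  simp

private lemma exn_inv (v : L2 G) (g : G) : cf v v g⁻¹ = cf v v g := by
  unfold cf
  rw [inner_R, inv_inv, ← inner_conj_symm]
  exact Complex.conj_re _

private lemma exn_mul (v : L2 G) (x y : G) :
    cf v v (x⁻¹ * y) = (inner ℂ (R y v) (R x v)).re := by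
  unfold cf
  rw [R_mul, inner_R, inv_inv]

private lemma exn_pd (v : L2 G) : PD (cf v v) := by
  refine ⟨fun x y => ?_, fun F c => ?_⟩
  · show cf v v (x⁻¹ * y) = cf v v (y⁻¹ * x)
    rw [← exn_inv v (y⁻¹ * x)]
    congr 1
    group
  · have h : ∑ x ∈ F, ∑ y ∈ F, c x * c y * cf v v (x⁻¹ * y) =
        (inner ℂ (∑ y ∈ F, ((c y : ℝ) : ℂ) • R y v) (∑ x ∈ F, ((c x : ℝ) : ℂ) • R x v)).re := by
      rw [sum_inner, Complex.re_sum, Finset.sum_comm]
      refine Finset.sum_congr rfl fun y _ => ?_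
      rw [inner_sum, Complex.re_sum]
      refine Finset.sum_congr rfl fun x _ => ?_
      rw [inner_smul_left, inner_smul_right, Complex.conj_ofReal, ← mul_assoc,
        ← Complex.ofReal_mul, Complex.re_ofReal_mul, exn_mul]
      ring
    show 0 ≤ ∑ x ∈ F, ∑ y ∈ F, c x * c y * cf v v (x⁻¹ * y)
    rw [h]
    exact inner_self_nonneg (𝕜 := ℂ)

private lemma exn_norm {v : L2 G} (hv : ‖v‖ = 1) (g : G) :
    ‖R g v - v‖ ^ 2 = 2 * (1 - cf v v g) := by
  rw [@norm_sub_sq ℂ]
  rw [norm_R, hv]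
  unfold cf
  simp only [RCLike.re_to_complex]
  ring

/-- The normalised energy. -/
private noncomputable def exnN (v : L2 G) (e : ℝ) (g : G) : ℝ := 2 * (1 - cf v v g) / e

private lemma exn_norm' {v : L2 G} (hv : ‖v‖ = 1) {e : ℝ} (he : 0 < e) (g : G) :
    ‖R g v - v‖ ^ 2 = e * exnN v e g := by
  rw [exn_norm hv g]
  unfold exnN
  field_simp

private lemma exn_nonneg {v : L2 G} (hv : ‖v‖ = 1) {e : ℝ} (he : 0 < e) (g : G) :
    0 ≤ exnN v e g := by
  have h := exn_norm' hv he g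
  by_contra hc
  push Not at hc
  have h1 : e * exnN v e g < 0 := mul_neg_of_pos_of_neg he hc
  have h2 : 0 ≤ ‖R g v - v‖ ^ 2 := sq_nonneg _
  linarith

private lemma exn_sub {v : L2 G} (hv : ‖v‖ = 1) {e : ℝ} (he : 0 < e) (g h : G) :
    exnN v e (g * h) ≤ 2 * exnN v e g + 2 * exnN v e h := by
  have h1 : ‖R (g * h) v - v‖ ≤ ‖R h v - v‖ + ‖R g v - v‖ := by
    have e1 : R (g * h) v - v = R g (R h v - v) + (R g v - v) := by
      rw [R_mul, map_sub]
      abel
    rw [e1]
    refine (norm_add_le _ _).trans ?_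
    rw [norm_R]
  have h2 : ‖R (g * h) v - v‖ ^ 2 ≤ 2 * ‖R h v - v‖ ^ 2 + 2 * ‖R g v - v‖ ^ 2 := by
    have h3 := norm_nonneg (R (g * h) v - v)
    nlinarith [sq_nonneg (‖R h v - v‖ - ‖R g v - v‖)]
  rw [exn_norm' hv he, exn_norm' hv he, exn_norm' hv he] at h2
  have h4 : e * exnN v e (g * h) ≤ e * (2 * exnN v e g + 2 * exnN v e h) := by linarith
  exact le_of_mul_le_mul_left h4 he

private lemma exn_DR (W : Walk G) (v : L2 G) (g : G) :
    W.E (fun s => cf v v (g * s)) = cf v v g - cf (v - W.op v) v g := by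
  have h := congrFun (W.DR_cf v v) g
  rw [W.DR_apply] at h
  linarith

private lemma exn_cf_one (W : Walk G) (v : L2 G) :
    cf (v - W.op v) v 1 = (inner ℂ (v - W.op v) v).re := by
  unfold cf
  rw [R_one]

private lemma exn_E (W : Walk G) (v : L2 G) {e : ℝ} (g : G) :
    W.E (fun s => exnN v e (g * s)) = exnN v e g + 2 * cf (v - W.op v) v g / e := by
  have h1 : (fun s => exnN v e (g * s)) = fun s => (2 / e) * (1 - cf v v (g * s)) := by
    funext s
    unfold exnN
    ring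
  rw [h1, W.E_mul, W.E_sub, W.E_const, exn_DR]
  unfold exnN
  ring

private lemma exn_E_one (W : Walk G) {v : L2 G} (hv : ‖v‖ = 1)
    (he : 0 < (inner ℂ (v - W.op v) v).re) :
    W.E (fun s => exnN v (inner ℂ (v - W.op v) v).re s) = 2 := by
  have h := exn_E W v (e := (inner ℂ (v - W.op v) v).re) 1
  simp only [one_mul] at h
  rw [h, exn_cf_one]
  unfold exnN
  rw [exn_one hv]
  field_simp
  ring

private lemma exn_harm (W : Walk G) {v : L2 G} (hv : ‖v‖ = 1) {δ : ℝ}
    (he : 0 < (inner ℂ (v - W.op v) v).re)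
    (hδ : ‖v - W.op v‖ ^ 2 ≤ δ * (inner ℂ (v - W.op v) v).re) (g : G) :
    (W.E (fun s => exnN v (inner ℂ (v - W.op v) v).re (g * s)) -
      exnN v (inner ℂ (v - W.op v) v).re g - 2) ^ 2 ≤
      4 * δ * exnN v (inner ℂ (v - W.op v) v).re g := by
  set e := (inner ℂ (v - W.op v) v).re with hedef
  have h1 : W.E (fun s => exnN v e (g * s)) - exnN v e g - 2 =
      2 * (inner ℂ (v - W.op v) (R g⁻¹ v - v)).re / e := by
    rw [exn_E, inner_sub_right, Complex.sub_re, ← inner_R]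
    rw [← hedef]
    unfold cf
    field_simp
    ring
  have h2 : ((inner ℂ (v - W.op v) (R g⁻¹ v - v)).re) ^ 2 ≤
      ‖v - W.op v‖ ^ 2 * ‖R g⁻¹ v - v‖ ^ 2 := by
    have h3 : |(inner ℂ (v - W.op v) (R g⁻¹ v - v)).re| ≤ ‖v - W.op v‖ * ‖R g⁻¹ v - v‖ :=
      (Complex.abs_re_le_norm _).trans (norm_inner_le_norm _ _)
    rw [← mul_pow, ← sq_abs]
    exact pow_le_pow_left₀ (abs_nonneg _) h3 2
  have h4 : exnN v e g⁻¹ = exnN v e g := by
    unfold exnN
    rw [exn_inv]
  rw [exn_norm' hv he, h4] at h2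
  have h5 := exn_nonneg hv he g
  rw [h1, div_pow, div_le_iff₀ (by positivity), mul_pow]
  have h6 : ‖v - W.op v‖ ^ 2 * (e * exnN v e g) ≤ (δ * e) * (e * exnN v e g) :=
    mul_le_mul_of_nonneg_right hδ (by positivity)
  nlinarith

private lemma exn_exp_pd (v : L2 G) {e : ℝ} (he : 0 < e) {t : ℝ} (ht : 0 ≤ t) :
    PD (fun g => Real.exp (-(t * exnN v e g))) := by
  have h1 : PSDk (fun x y : G => (2 * t / e) * cf v v (x⁻¹ * y)) :=
    PSDk.smul (exn_pd v) (by positivity)
  have h2 := PSDk.smul (PSDk.exp h1) (Real.exp_pos (-(2 * t / e))).le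
  have h3 : (fun x y : G => Real.exp (-(t * exnN v e (x⁻¹ * y)))) =
      fun x y : G => Real.exp (-(2 * t / e)) * Real.exp ((2 * t / e) * cf v v (x⁻¹ * y)) := by
    funext x y
    rw [← Real.exp_add]
    congr 1
    unfold exnN
    field_simp
    ring
  show PSDk (fun x y : G => Real.exp (-(t * exnN v e (x⁻¹ * y))))
  rw [h3]
  exact h2

private lemma exn_bdd (W : Walk G) (g : G) : ∃ C : ℝ, ∀ v : L2 G, ‖v‖ = 1 →
    0 < (inner ℂ (v - W.op v) v).re → exnN v (inner ℂ (v - W.op v) v).re g ≤ C := by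
  have hg : g ∈ Subgroup.closure (W.S : Set G) := by
    rw [W.gen]
    exact Subgroup.mem_top g
  induction hg using Subgroup.closure_induction with
  | mem s hs =>
    refine ⟨2 / W.μ s, fun v hv he => ?_⟩
    have h1 := exn_E_one W hv he
    have hs' : s ∈ W.S := hs
    have h2 : W.μ s * exnN v (inner ℂ (v - W.op v) v).re s ≤
        W.E (fun s => exnN v (inner ℂ (v - W.op v) v).re s) :=
      Finset.single_le_sum (f := fun s => W.μ s * exnN v (inner ℂ (v - W.op v) v).re s)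
        (fun i hi => mul_nonneg (W.pos i hi).le (exn_nonneg hv he i)) hs'
    rw [h1] at h2
    rw [le_div_iff₀ (W.pos s hs')]
    linarith
  | one =>
    refine ⟨0, fun v hv he => ?_⟩
    unfold exnN
    rw [exn_one hv]
    simp
  | mul x y _ _ hx hy =>
    obtain ⟨C, hC⟩ := hx
    obtain ⟨C', hC'⟩ := hy
    refine ⟨2 * C + 2 * C', fun v hv he => ?_⟩
    have h1 := exn_sub hv he x y
    have h2 := hC v hv he
    have h3 := hC' v hv he
    linarith
  | inv x _ hx =>
    obtain ⟨C, hC⟩ := hx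
    refine ⟨C, fun v hv he => ?_⟩
    have h2 := hC v hv he
    unfold exnN at h2 ⊢
    rw [exn_inv]
    exact h2

theorem exists_N (W : Walk G) [Infinite G] (hF : Folner G) : ∃ N : G → ℝ, NData W N := by
  classical
  have hδ : ∀ k : ℕ, (0 : ℝ) < 1 / ((k : ℝ) + 1) := fun k => by positivity
  choose v hv he _ hΔ using fun k : ℕ => exists_vec W hF (hδ k)
  choose C hC using fun g : G => exn_bdd W g
  set Nk : ℕ → G → ℝ := fun k g => exnN (v k) (inner ℂ (v k - W.op (v k)) (v k)).re g with hNk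
  have hmem : ∀ k g, Nk k g ∈ Set.Icc 0 (C g) := fun k g =>
    ⟨exn_nonneg (hv k) (he k) g, hC g (v k) (hv k) (he k)⟩
  set U : Ultrafilter ℕ := Filter.hyperfilter ℕ with hU
  have hlim : ∀ g, ∃ a ∈ Set.Icc 0 (C g), Tendsto (fun k => Nk k g) (U : Filter ℕ) (𝓝 a) := by
    intro g
    obtain ⟨a, ha, hle⟩ := (isCompact_Icc (a := (0 : ℝ)) (b := C g)).ultrafilter_le_nhds
      (U.map (fun k => Nk k g)) (by
        rw [Filter.le_principal_iff]
        show (fun k => Nk k g) ⁻¹' (Set.Icc 0 (C g)) ∈ (U : Filter ℕ)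
        exact Filter.univ_mem' fun k => hmem k g)
    exact ⟨a, ha, hle⟩
  choose N hNmem hNlim using hlim
  refine ⟨N, ?_, fun g => (hNmem g).1, fun g => ?_, fun t ht => ?_, fun g => ?_⟩
  · refine tendsto_nhds_unique (hNlim 1) ?_
    have : (fun k => Nk k 1) = fun _ => (0 : ℝ) := by
      funext k
      simp only [hNk]
      unfold exnN
      rw [exn_one (hv k)]
      simp
    rw [this]
    exact tendsto_const_nhds
  · refine tendsto_nhds_unique (hNlim g⁻¹) ?_
    have : (fun k => Nk k g⁻¹) = fun k => Nk k g := by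
      funext k
      simp only [hNk]
      unfold exnN
      rw [exn_inv]
    rw [this]
    exact hNlim g
  · show PSDk (fun x y : G => Real.exp (-(t * N (x⁻¹ * y))))
    refine PSDk.tendsto (l := (U : Filter ℕ))
      (κs := fun k x y => Real.exp (-(t * Nk k (x⁻¹ * y)))) (fun k => ?_) fun x y => ?_
    · exact exn_exp_pd (v k) (he k) ht
    · exact (Real.continuous_exp.tendsto _).comp (((hNlim (x⁻¹ * y)).const_mul t).neg)
  · have h1 : Tendsto (fun k => (W.E (fun s => Nk k (g * s)) - Nk k g - 2) ^ 2) (U : Filter ℕ)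
        (𝓝 ((W.E (fun s => N (g * s)) - N g - 2) ^ 2)) := by
      refine Tendsto.pow (Tendsto.sub_const (Tendsto.sub ?_ (hNlim g)) 2) 2
      unfold Walk.E
      exact tendsto_finsetSum _ fun s _ => (hNlim (g * s)).const_mul _
    have h2 : Tendsto (fun k : ℕ => 4 * (1 / ((k : ℝ) + 1)) * C g) (U : Filter ℕ) (𝓝 0) := by
      have h3 : Tendsto (fun k : ℕ => 4 * (1 / ((k : ℝ) + 1)) * C g) atTop (𝓝 0) := by
        have h4 := (tendsto_one_div_add_atTop_nhds_zero_nat (𝕜 := ℝ)).const_mul 4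
        have h5 := h4.mul_const (C g)
        simpa using h5
      exact h3.mono_left Nat.hyperfilter_le_atTop
    have h3 : ∀ k, (W.E (fun s => Nk k (g * s)) - Nk k g - 2) ^ 2 ≤
        4 * (1 / ((k : ℝ) + 1)) * C g := by
      intro k
      refine (exn_harm W (hv k) (he k) (hΔ k) g).trans ?_
      have := (hmem k g).2
      exact mul_le_mul_of_nonneg_left this (by positivity)
    have h4 : (W.E (fun s => N (g * s)) - N g - 2) ^ 2 ≤ 0 :=
      le_of_tendsto_of_tendsto' h1 h2 h3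
    have h5 : W.E (fun s => N (g * s)) - N g - 2 = 0 := by
      have := le_antisymm h4 (sq_nonneg _)
      exact pow_eq_zero_iff (two_ne_zero) |>.1 this
    linarith

end Pool.SpecDense
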