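import Pool.Agent.Lib.MP_863a8d_al.Op

/-!
# The spectrum of the Markov operator in terms of functions on the group
-/

set_option autoImplicit false

namespace Pool.SpecDense

universe u

variable {G : Type u} [Group G]

namespace Walk

/-- The spectrum of the Markov operator `(M f) g = ∑ s, μ s f (g s)` on `ℓ²(G)`: the set of complex
numbers `z` such that the equation `M f - z f = h` does not have, for every `h` in `ℓ²(G)`, exactly
one solution `f` in `ℓ²(G)`. -/
def Sp (W : Walk G) : Set ℂ :=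
  {z : ℂ | ¬ ∀ h : G → ℂ, Memℓp h 2 → ∃! f : G → ℂ, Memℓp f 2 ∧
    ∀ g : G, (∑ s ∈ W.S, (W.μ s : ℂ) * f (g * s)) - z * f g = h g}

theorem mem_Sp_iff (W : Walk G) (z : ℂ) : z ∈ W.Sp ↔ z ∈ spectrum ℂ W.op := by
  have hval : ∀ (f : L2 G) (g : G), ((W.op - z • (1 : L2 G →L[ℂ] L2 G)) f : G → ℂ) g =
      (∑ s ∈ W.S, (W.μ s : ℂ) * (f : G → ℂ) (g * s)) - z * (f : G → ℂ) g := by
    intro f g
    rw [← W.op_apply]
    rfl
  have h1 : z ∈ spectrum ℂ W.op ↔ ¬ Function.Bijective (W.op - z • (1 : L2 G →L[ℂ] L2 G)) := by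
    rw [spectrum.mem_iff, Algebra.algebraMap_eq_smul_one, ← IsUnit.neg_iff, neg_sub,
      ContinuousLinearMap.isUnit_iff_bijective]
  rw [h1]
  unfold Sp
  rw [Set.mem_ofPred_eq, not_iff_not]
  constructor
  · intro H
    rw [Function.bijective_iff_existsUnique]
    intro h
    obtain ⟨f, ⟨hf, hfe⟩, huniq⟩ := H (h : G → ℂ) (lp.memℓp h)
    refine ⟨⟨f, hf⟩, ?_, fun f' hf' => ?_⟩
    · refine lp.ext (funext fun g => ?_)
      rw [hval]
      exact hfe g
    · refine lp.ext ?_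
      refine huniq _ ⟨lp.memℓp f', fun g => ?_⟩
      rw [← hval, hf']
  · intro H h hh
    rw [Function.bijective_iff_existsUnique] at H
    obtain ⟨f, hf, huniq⟩ := H ⟨h, hh⟩
    refine ⟨(f : G → ℂ), ⟨lp.memℓp f, fun g => ?_⟩, fun f' hf' => ?_⟩
    · rw [← hval, hf]
    · have h2 := huniq ⟨f', hf'.1⟩ (by
        refine lp.ext (funext fun g => ?_)
        rw [hval]
        exact hf'.2 g)
      rw [← h2]

theorem mem_spec_iff (W : Walk G) (y : ℝ) : y ∈ W.spec ↔ ((1 - y : ℝ) : ℂ) ∈ W.Sp :=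
  (W.mem_Sp_iff _).symm

end Walk

end Pool.SpecDense
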