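import Pool.Agent.Lib.MP_863a8d_al.Unif
import Pool.Agent.Lib.MP_863a8d_al.SpecSet

/-!
# Gaps near one of the spectrum of an infinite amenable group have bounded ratio, uniformly

`Pool.SpecDense.Walk G` is a symmetric finitely supported probability measure on `G` whose support
generates `G`, `W.Sp` is the spectrum of its Markov operator on `ℓ²(G)` (averaging over right
multiplication), and `Pool.SpecDense.Folner G` is the Folner condition (amenability).
-/

set_option autoImplicit false

namespace Pool.SpecDense.GapRatio

universe u

/-- With the absolute constants `500` and `40`: for every infinite amenable group and every symmetric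
finitely supported generating probability measure `μ`, if `0 < a ≤ μ s / 40` for all `s` in the support
then every interval `(1 - b, 1 - a)` with `b ≥ 500 a` contains a point of the spectrum. -/
theorem gap_ratio {G : Type u} [Group G] [Infinite G] (hG : Pool.SpecDense.Folner G)
    (W : Pool.SpecDense.Walk G) (a b : ℝ) (ha : 0 < a) (hab : 500 * a ≤ b)
    (hμ : ∀ s ∈ W.S, 40 * a ≤ W.μ s) :
    ∃ t : ℝ, 1 - b < t ∧ t < 1 - a ∧ (t : ℂ) ∈ W.Sp := by
  obtain ⟨y, hy, hay, hyb⟩ := Pool.SpecDense.Unif.exists_spec_between W hG ha hab hμ
  exact ⟨1 - y, by linarith, by linarith, (W.mem_spec_iff y).1 hy⟩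

end Pool.SpecDense.GapRatio
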