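import Pool.Agent.Lib.MP_863a8d_al.Defs

/-!
# JOB OP: the Markov operator on `ℓ²(G)`

`R g` is unitary with adjoint `R g⁻¹`, so `W.op` is self-adjoint (`W.μ_inv`) of norm at most one.
`cf f f' g = Re ⟨R g f, f'⟩`. `W.DR (cf f f') = cf (f - W.op f) f'` because `R (g s) = R g (R s ·)`.
By induction on the polynomial `p(DR) (cf f f') = cf (p(1 - M) f) f'`.
`ev_cf_nonneg`: `p(1 - M) = cfc p (1 - M) ≥ 0` since `p ≥ 0` on the spectrum (`cfc_polynomial` or
`cfc_aeval`, `cfc_nonneg`, `ContinuousLinearMap.nonneg_iff_isPositive`; a real number in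
`spectrum ℝ (1 - M)` lies in `W.spec`).
-/

set_option autoImplicit false

open Filter Topology

namespace Pool.SpecDense

universe u

variable {G : Type u} [Group G]

/-- Coefficient functions of the right regular representation. -/
noncomputable def cf (f f' : L2 G) : G → ℝ := fun g => (inner ℂ (R g f) f').re

theorem inner_R (g : G) (f f' : L2 G) : inner ℂ (R g f) f' = inner ℂ f (R g⁻¹ f') := by
  rw [lp.inner_eq_tsum, lp.inner_eq_tsum]
  have h := (Equiv.mulRight g).tsum_eq (fun x => inner ℂ ((f : G → ℂ) x) ((f' : G → ℂ) (x * g⁻¹)))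
  simp only [R_apply]
  rw [← h]
  refine tsum_congr fun x => ?_
  simp only [Equiv.coe_mulRight, mul_inv_cancel_right]

namespace Walk

variable (W : Walk G)

theorem op_eq (f : L2 G) : W.op f = ∑ s ∈ W.S, (W.μ s : ℂ) • R s f := by
  unfold op
  rw [sum_apply]
  rfl

theorem op_apply (f : L2 G) (x : G) :
    (W.op f : G → ℂ) x = ∑ s ∈ W.S, (W.μ s : ℂ) * (f : G → ℂ) (x * s) := by
  rw [op_eq, lp.coeFn_sum, Finset.sum_apply]
  rfl

theorem op_selfAdjoint : IsSelfAdjoint W.op := by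
  rw [ContinuousLinearMap.isSelfAdjoint_iff_isSymmetric]
  intro f f'
  simp only [ContinuousLinearMap.coe_coe]
  rw [op_eq, op_eq, sum_inner, inner_sum]
  refine Finset.sum_nbij' (fun s => s⁻¹) (fun s => s⁻¹) (fun s hs => W.inv_mem s hs)
    (fun s hs => W.inv_mem s hs) (fun s _ => inv_inv s) (fun s _ => inv_inv s) ?_
  intro s hs
  rw [inner_smul_left, inner_smul_right, Complex.conj_ofReal, inner_R, W.μ_inv s hs]

theorem norm_op_le : ‖W.op‖ ≤ 1 := by
  refine ContinuousLinearMap.opNorm_le_bound _ zero_le_one fun f => ?_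
  rw [op_eq, one_mul]
  refine (norm_sum_le _ _).trans ?_
  have h : ∀ s ∈ W.S, ‖(W.μ s : ℂ) • R s f‖ = W.μ s * ‖f‖ := by
    intro s hs
    rw [norm_smul, norm_R, Complex.norm_real, Real.norm_of_nonneg (W.pos s hs).le]
  rw [Finset.sum_congr rfl h, ← Finset.sum_mul, W.sum, one_mul]

theorem spec_mem {y : ℝ} (hy : y ∈ W.spec) : 0 ≤ y ∧ y ≤ 2 := by
  have hy' : ((1 - y : ℝ) : ℂ) ∈ spectrum ℂ W.op := hy
  have h1 : ‖((1 - y : ℝ) : ℂ)‖ ≤ ‖W.op‖ * ‖(1 : L2 G →L[ℂ] L2 G)‖ :=
    spectrum.norm_le_norm_mul_of_mem hy'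
  have h2 : ‖(1 : L2 G →L[ℂ] L2 G)‖ ≤ 1 := ContinuousLinearMap.norm_id_le
  have h3 : ‖W.op‖ * ‖(1 : L2 G →L[ℂ] L2 G)‖ ≤ 1 * 1 :=
    mul_le_mul W.norm_op_le h2 (norm_nonneg _) zero_le_one
  have h4 : |1 - y| ≤ 1 := by
    have := h1.trans h3
    rwa [Complex.norm_real, Real.norm_eq_abs, one_mul] at this
  rw [abs_le] at h4
  constructor <;> linarith [h4.1, h4.2]

theorem isClosed_spec : IsClosed W.spec := by
  have h : Continuous fun y : ℝ => ((1 - y : ℝ) : ℂ) := by fun_prop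
  exact (spectrum.isClosed (𝕜 := ℂ) W.op).preimage h

theorem cf_apply (f f' : L2 G) (g : G) : cf f f' g = (inner ℂ (R g f) f').re := rfl

theorem cf_sub (f f₁ f' : L2 G) (g : G) : cf (f - f₁) f' g = cf f f' g - cf f₁ f' g := by
  rw [cf_apply, cf_apply, cf_apply, map_sub, inner_sub_left, Complex.sub_re]

theorem cf_add (f f₁ f' : L2 G) (g : G) : cf (f + f₁) f' g = cf f f' g + cf f₁ f' g := by
  rw [cf_apply, cf_apply, cf_apply, map_add, inner_add_left, Complex.add_re]

theorem cf_smul (c : ℝ) (f f' : L2 G) (g : G) : cf ((c : ℂ) • f) f' g = c * cf f f' g := by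
  rw [cf_apply, cf_apply, map_smul, inner_smul_left, Complex.conj_ofReal, Complex.re_ofReal_mul]

theorem cf_op (f f' : L2 G) (g : G) : cf (W.op f) f' g = W.E (fun s => cf f f' (g * s)) := by
  rw [cf_apply, op_eq, map_sum, sum_inner, Complex.re_sum]
  unfold E
  refine Finset.sum_congr rfl fun s _ => ?_
  rw [map_smul, inner_smul_left, Complex.conj_ofReal, Complex.re_ofReal_mul, ← R_mul]
  rfl

theorem DR_cf (f f' : L2 G) : W.DR (cf f f') = cf (f - W.op f) f' := by
  funext g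
  rw [DR_apply, cf_sub, cf_op]

theorem DR_pow_cf (n : ℕ) (f f' : L2 G) :
    (W.DR ^ n) (cf f f') = cf (((1 - W.op) ^ n) f) f' := by
  induction n generalizing f with
  | zero => simp
  | succ n ih =>
    rw [pow_succ, Module.End.mul_apply, DR_cf, ih, pow_succ]
    rfl

theorem aeval_DR_cf (p : Polynomial ℝ) (f f' : L2 G) :
    Polynomial.aeval W.DR p (cf f f') = cf ((Polynomial.aeval (1 - W.op) p) f) f' := by
  induction p using Polynomial.induction_on' with
  | add p q hp hq =>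
    funext g
    rw [map_add, map_add, LinearMap.add_apply, add_apply, Pi.add_apply, hp, hq, cf_add]
  | monomial n a =>
    funext g
    rw [Polynomial.aeval_monomial, Polynomial.aeval_monomial, Module.End.mul_apply, DR_pow_cf,
      Module.algebraMap_end_apply, Pi.smul_apply, smul_eq_mul, ← cf_smul]
    rfl

theorem mem_spec_of {y : ℝ} (hy : (y : ℂ) ∈ spectrum ℂ (1 - W.op)) : y ∈ W.spec := by
  have h2 : (1 : L2 G →L[ℂ] L2 G) - W.op = algebraMap ℂ (L2 G →L[ℂ] L2 G) 1 - W.op := by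
    rw [map_one]
  rw [h2, ← spectrum.singleton_sub_eq] at hy
  obtain ⟨a, ha, b, hb, hab⟩ := hy
  have h3 : b = ((1 - y : ℝ) : ℂ) := by
    rw [Set.mem_singleton_iff] at ha
    have h4 : a - b = (y : ℂ) := hab
    push_cast
    rw [← h4, ha]
    ring
  show ((1 - y : ℝ) : ℂ) ∈ spectrum ℂ W.op
  rw [← h3]
  exact hb

open scoped ComplexOrder in
theorem ev_cf_nonneg (p : Polynomial ℝ) (hp : ∀ y ∈ W.spec, 0 ≤ p.eval y) (f : L2 G) :
    0 ≤ W.ev p (cf f f) := by
  unfold ev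
  rw [aeval_DR_cf, cf_apply, R_one]
  have hsa : IsSelfAdjoint (1 - W.op) := (IsSelfAdjoint.one _).sub W.op_selfAdjoint
  have h1 : 0 ≤ Polynomial.aeval (1 - W.op) p := by
    rw [← Polynomial.aeval_map_algebraMap ℂ (1 - W.op) p,
      ← cfc_polynomial (R := ℂ) (p.map (algebraMap ℝ ℂ)) (1 - W.op) hsa.isStarNormal]
    refine cfc_nonneg fun x hx => ?_
    have hx1 : x = ((x.re : ℝ) : ℂ) := hsa.mem_spectrum_eq_re hx
    rw [hx1] at hx ⊢
    have h2 := hp x.re (W.mem_spec_of hx)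
    have h3 : (p.map (algebraMap ℝ ℂ)).eval ((x.re : ℝ) : ℂ) = ((p.eval x.re : ℝ) : ℂ) := by
      rw [Polynomial.eval_map_algebraMap]
      exact Polynomial.aeval_algebraMap_apply ℂ x.re p
    rw [h3]
    exact_mod_cast h2
  rw [ContinuousLinearMap.nonneg_iff_isPositive] at h1
  exact h1.re_inner_nonneg_left f

end Walk

end Pool.SpecDense
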