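import Pool.Agent.Lib.MP_863a8d_al.Ker
import Pool.Agent.Lib.MP_863a8d_al.Op

/-!
# JOB POS: positive definite functions on amenable groups are positive on `p(1 - M)`

`ev_tendsto`: `p(DR)` is continuous for pointwise convergence (induction on `p`).
`ev_nonneg`: for a finite set `F` write `φ (x⁻¹ y) = ∑ i, w i x w i y` on `F` (`PSDk.decomp`), let
`f i` be the element of `ℓ²(G)` with values `w i` (zero outside `F`; finite support). Then
`∑ i, cf (f i) (f i) g = φ g * #{x ∈ F | x g ∈ F}`, so `ev p (φ * ω_F) ≥ 0` by `ev_cf_nonneg` where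
`ω_F g = #{x ∈ F | x g ∈ F} / #F`. Take for `F` the sets of inverses of Folner sets: `ω_F g → 1`
pointwise (use the filter `atTop` on `Finset G × ℕ`), conclude by `ev_tendsto`.
-/

set_option autoImplicit false

open Filter Topology

namespace Pool.SpecDense

universe u v

variable {G : Type u} [Group G] (W : Walk G)

private theorem Pos_DR_pow {ι : Type v} {l : Filter ι} {φs : ι → G → ℝ} {φ : G → ℝ}
    (h : ∀ g, Tendsto (fun i => φs i g) l (𝓝 (φ g))) (n : ℕ) (g : G) :
    Tendsto (fun i => ((W.DR ^ n) (φs i)) g) l (𝓝 (((W.DR ^ n) φ) g)) := by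
  induction n generalizing g with
  | zero => simpa using h g
  | succ n ih =>
      simp only [pow_succ', Module.End.mul_apply, Walk.DR_apply]
      refine (ih g).sub ?_
      unfold Walk.E
      exact tendsto_finsetSum _ fun s _ => (ih (g * s)).const_mul _

private theorem Pos_aeval {ι : Type v} {l : Filter ι} {φs : ι → G → ℝ} {φ : G → ℝ}
    (h : ∀ g, Tendsto (fun i => φs i g) l (𝓝 (φ g))) (p : Polynomial ℝ) (g : G) :
    Tendsto (fun i => ((Polynomial.aeval W.DR p) (φs i)) g) l
      (𝓝 (((Polynomial.aeval W.DR p) φ) g)) := by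
  induction p using Polynomial.induction_on' with
  | add p q hp hq =>
      simp only [map_add, LinearMap.add_apply, Pi.add_apply]
      exact hp.add hq
  | monomial n a =>
      simp only [Polynomial.aeval_monomial, Module.End.mul_apply, Module.algebraMap_end_apply,
        Pi.smul_apply, smul_eq_mul]
      exact (Pos_DR_pow W h n g).const_mul a

theorem Walk.ev_tendsto {ι : Type v} {l : Filter ι} {φs : ι → G → ℝ} {φ : G → ℝ}
    (h : ∀ g, Tendsto (fun i => φs i g) l (𝓝 (φ g))) (p : Polynomial ℝ) :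
    Tendsto (fun i => W.ev p (φs i)) l (𝓝 (W.ev p φ)) :=
  Pos_aeval W h p 1

/-- A finitely supported real function as an element of `ℓ²`. -/
private noncomputable def Pos_fin (F : Finset G) (w : G → ℝ) (hw : ∀ x, x ∉ F → w x = 0) : L2 G :=
  ⟨fun x => (w x : ℂ), by
    refine memℓp_gen ?_
    refine summable_of_ne_finset_zero (s := F) fun x hx => ?_
    rw [hw x hx]
    simp⟩

private theorem Pos_fin_apply (F : Finset G) (w : G → ℝ) (hw : ∀ x, x ∉ F → w x = 0) (x : G) :
    (Pos_fin F w hw : G → ℂ) x = (w x : ℂ) := rfl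

private theorem Pos_cf (F : Finset G) (w : G → ℝ) (hw : ∀ x, x ∉ F → w x = 0) (g : G) :
    cf (Pos_fin F w hw) (Pos_fin F w hw) g = ∑ x ∈ F, w (x * g) * w x := by
  unfold cf
  rw [lp.inner_eq_tsum, tsum_eq_sum (s := F)]
  · rw [Complex.re_sum]
    refine Finset.sum_congr rfl fun x _ => ?_
    rw [R_apply, Pos_fin_apply, Pos_fin_apply]
    simp [mul_comm]
  · intro x hx
    rw [R_apply, Pos_fin_apply, Pos_fin_apply, hw x hx]
    simp

private theorem Pos_ev_sum {n : ℕ} (p : Polynomial ℝ) (f : Fin n → G → ℝ) :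
    W.ev p (fun g => ∑ i, f i g) = ∑ i, W.ev p (f i) := by
  have h : (fun g => ∑ i, f i g) = ∑ i, f i := by
    funext g
    rw [Finset.sum_apply]
  rw [h]
  unfold Walk.ev
  rw [map_sum, Finset.sum_apply]

private theorem Pos_finite [DecidableEq G] {p : Polynomial ℝ} (hp : ∀ y ∈ W.spec, 0 ≤ p.eval y)
    {φ : G → ℝ} (hφ : PD φ) (F : Finset G) :
    0 ≤ W.ev p (fun g => φ g * ((F.filter (fun x => x * g ∈ F)).card : ℝ)) := by
  obtain ⟨n, w, hw, hdec⟩ := PSDk.decomp hφ F
  have hsymm : ∀ g, φ g⁻¹ = φ g := by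
    intro g
    have := hφ.1 1 g
    simpa using this.symm
  have e1 : (fun g => φ g * ((F.filter (fun x => x * g ∈ F)).card : ℝ))
      = fun g => ∑ i, cf (Pos_fin F (w i) (hw i)) (Pos_fin F (w i) (hw i)) g := by
    funext g
    simp only [Pos_cf]
    rw [Finset.sum_comm]
    have e2 : ∀ x ∈ F, (∑ i, w i (x * g) * w i x) = if x * g ∈ F then φ g else 0 := by
      intro x hx
      by_cases hg : x * g ∈ F
      · rw [if_pos hg, ← hdec _ hg _ hx]
        show φ ((x * g)⁻¹ * x) = φ g
        rw [mul_inv_rev, mul_assoc, inv_mul_cancel, mul_one, hsymm]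
      · rw [if_neg hg]
        exact Finset.sum_eq_zero fun i _ => by rw [hw i _ hg, zero_mul]
    rw [Finset.sum_congr rfl e2, ← Finset.sum_filter, Finset.sum_const, nsmul_eq_mul, mul_comm]
  rw [e1, Pos_ev_sum]
  exact Finset.sum_nonneg fun i _ => W.ev_cf_nonneg p hp _

theorem Walk.ev_nonneg (hF : Folner G) {p : Polynomial ℝ} (hp : ∀ y ∈ W.spec, 0 ≤ p.eval y)
    {φ : G → ℝ} (hφ : PD φ) : 0 ≤ W.ev p φ := by
  classical
  have hpos : ∀ i : Finset G × ℕ, (0 : ℝ) < 1 / ((i.2 : ℝ) + 1) := fun i => by positivity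
  choose F hne hFol using fun i : Finset G × ℕ => hF i.1 _ (hpos i)
  -- the sets of inverses
  let F' : Finset G × ℕ → Finset G := fun i => (F i).image (fun x => x⁻¹)
  have hcard : ∀ i, (F' i).card = (F i).card := fun i =>
    Finset.card_image_of_injective _ inv_injective
  have hcpos : ∀ i, (0 : ℝ) < (F' i).card := fun i => by
    rw [hcard]
    exact_mod_cast Finset.card_pos.2 (hne i)
  let ω : Finset G × ℕ → G → ℝ := fun i g =>
    (((F' i).filter (fun x => x * g ∈ F' i)).card : ℝ) / ((F' i).card : ℝ)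
  have hle : ∀ i g, ω i g ≤ 1 := by
    intro i g
    rw [div_le_one (hcpos i)]
    exact_mod_cast Finset.card_filter_le _ _
  have hge : ∀ i g, g⁻¹ ∈ i.1 → 1 - 1 / ((i.2 : ℝ) + 1) ≤ ω i g := by
    intro i g hg
    have h1 := hFol i _ hg
    have h2 : ((F' i).filter (fun x => ¬ x * g ∈ F' i)).card
        ≤ ((fun x => g⁻¹ * x) '' (F i : Set G) \ (F i : Set G)).ncard := by
      rw [← Set.ncard_coe_finset]
      refine Set.ncard_le_ncard_of_injOn (fun x => g⁻¹ * x⁻¹) ?_ ?_ ?_
      · intro x hx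
        rw [Finset.mem_coe, Finset.mem_filter] at hx
        obtain ⟨hx1, hx2⟩ := hx
        obtain ⟨y, hy, rfl⟩ := Finset.mem_image.1 hx1
        refine ⟨⟨y, hy, by simp⟩, fun hc => hx2 ?_⟩
        refine Finset.mem_image.2 ⟨g⁻¹ * y, ?_, ?_⟩
        · simpa using hc
        · simp
      · intro x _ y _ hxy
        simpa using hxy
      · exact ((Set.toFinite (F i : Set G)).image _).subset Set.sdiff_subset
    have h3 : (((F' i).filter (fun x => x * g ∈ F' i)).card : ℝ)
        + (((F' i).filter (fun x => ¬ x * g ∈ F' i)).card : ℝ) = (F' i).card := by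
      exact_mod_cast Finset.card_filter_add_card_filter_not (s := F' i) (fun x => x * g ∈ F' i)
    have h4 : (((F' i).filter (fun x => ¬ x * g ∈ F' i)).card : ℝ)
        ≤ 1 / ((i.2 : ℝ) + 1) * ((F' i).card : ℝ) := by
      rw [hcard]
      exact (Nat.cast_le.2 h2).trans h1.le
    show _ ≤ _ / _
    rw [le_div_iff₀ (hcpos i)]
    linarith
  have hlim : ∀ g, Tendsto (fun i => ω i g) atTop (𝓝 1) := by
    intro g
    have h1 : Tendsto (fun i : Finset G × ℕ => 1 - 1 / ((i.2 : ℝ) + 1)) atTop (𝓝 (1 - 0)) := by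
      refine tendsto_const_nhds.sub ?_
      have h2 : Tendsto (fun i : Finset G × ℕ => i.2) atTop atTop := by
        rw [← prod_atTop_atTop_eq]
        exact tendsto_snd
      exact tendsto_one_div_add_atTop_nhds_zero_nat.comp h2
    rw [sub_zero] at h1
    refine tendsto_of_tendsto_of_tendsto_of_le_of_le' h1 tendsto_const_nhds ?_
      (Eventually.of_forall fun i => hle i g)
    filter_upwards [eventually_ge_atTop (({g⁻¹}, 0) : Finset G × ℕ)] with i hi
    exact hge i g (hi.1 (Finset.mem_singleton_self _))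
  have hlim' : ∀ g, Tendsto (fun i => φ g * ω i g) atTop (𝓝 (φ g)) := by
    intro g
    simpa using (hlim g).const_mul (φ g)
  refine ge_of_tendsto (W.ev_tendsto hlim' p) (Eventually.of_forall fun i => ?_)
  have h1 := Pos_finite W hp hφ (F' i)
  have h2 : (fun g => φ g * ω i g) = (((F' i).card : ℝ)⁻¹) •
      (fun g => φ g * (((F' i).filter (fun x => x * g ∈ F' i)).card : ℝ)) := by
    funext g
    simp only [Pi.smul_apply, smul_eq_mul, ω]
    ring
  rw [h2, W.ev_smul_right]
  exact mul_nonneg (inv_nonneg.2 (hcpos i).le) h1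

end Pool.SpecDense
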