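import Pool.Agent.Lib.MP_863a8d_al.Defs

/-!
# JOB KER: positive semidefinite kernels

`PSDk κ` = symmetric real kernel with nonnegative quadratic form (see Defs.lean).
Hints: `decomp`: on the finite set `F` the matrix `κ` is `Matrix.PosSemidef`, so it is `Bᵀ B`
(Mathlib: `Matrix.posSemidef_iff_eq_conjTranspose_mul_self`); reindex to `Fin n`, extend by zero.
`mul` (Schur product): insert `decomp` for both kernels, the form becomes `∑ i j, (∑ x, c x w i x w' j x)²`.
`comp`: insert `decomp` on the image of `F`. `exp`: limit of the partial sums of the exponential series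
(powers by `mul`). `sq_le`: quadratic form on `{x, y}`, discriminant. `neg_of_exp`: the form of
`(1 - exp (-(t ν))) / t` is `≤ 0`, let `t → 0+`.
-/

set_option autoImplicit false

open Filter Topology

namespace Pool.SpecDense

universe u v

variable {X : Type u} {Y : Type u} {κ κ' : X → X → ℝ}

open scoped MatrixOrder Matrix in
private theorem Ker_matrix {m : Type u} [Fintype m] [DecidableEq m] (M : Matrix m m ℝ)
    (h1 : ∀ i j, M i j = M j i) (h2 : ∀ c : m → ℝ, 0 ≤ ∑ i, ∑ j, c i * c j * M i j) :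
    ∃ B : Matrix m m ℝ, ∀ i j, M i j = ∑ l, B l i * B l j := by
  have hM : M.PosSemidef := by
    refine Matrix.PosSemidef.of_dotProduct_mulVec_nonneg ?_ ?_
    · ext i j
      simp only [Matrix.conjTranspose_apply, star_trivial]
      exact h1 j i
    · intro x
      have h3 := h2 x
      have h4 : star x ⬝ᵥ M *ᵥ x = ∑ i, ∑ j, x i * x j * M i j := by
        simp only [dotProduct, Matrix.mulVec, Pi.star_apply, star_trivial, Finset.mul_sum]
        exact Finset.sum_congr rfl fun i _ => Finset.sum_congr rfl fun j _ => by ring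
      rw [h4]
      exact h3
  obtain ⟨B, hB⟩ := CStarAlgebra.nonneg_iff_eq_star_mul_self.mp hM.nonneg
  refine ⟨B, fun i j => ?_⟩
  rw [hB, Matrix.star_eq_conjTranspose, Matrix.mul_apply]
  exact Finset.sum_congr rfl fun l _ => by rw [Matrix.conjTranspose_apply, star_trivial]

private theorem Ker_sum_sq {n : ℕ} (F : Finset X) (c : X → ℝ) (w : Fin n → X → ℝ) :
    ∑ x ∈ F, ∑ y ∈ F, c x * c y * ∑ i, w i x * w i y = ∑ i, (∑ x ∈ F, c x * w i x) ^ 2 := by
  have h1 : ∀ i, (∑ x ∈ F, c x * w i x) ^ 2 =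
      ∑ x ∈ F, ∑ y ∈ F, c x * c y * (w i x * w i y) := by
    intro i
    rw [sq, Finset.sum_mul_sum]
    exact Finset.sum_congr rfl fun x _ => Finset.sum_congr rfl fun y _ => by ring
  simp_rw [h1, Finset.mul_sum]
  symm
  rw [Finset.sum_comm]
  exact Finset.sum_congr rfl fun x _ => Finset.sum_comm

theorem PSDk.decomp (h : PSDk κ) (F : Finset X) : ∃ (n : ℕ) (w : Fin n → X → ℝ),
    (∀ i, ∀ x, x ∉ F → w i x = 0) ∧ ∀ x ∈ F, ∀ y ∈ F, κ x y = ∑ i, w i x * w i y := by
  classical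
  obtain ⟨B, hB⟩ := Ker_matrix (m := F) (fun i j => κ i.1 j.1) (fun i j => h.1 i.1 j.1) (by
    intro c
    have h1 := h.2 F (fun x => if hx : x ∈ F then c ⟨x, hx⟩ else 0)
    rw [← Finset.sum_attach] at h1
    refine le_of_le_of_eq h1 ?_
    refine Finset.sum_congr rfl fun x _ => ?_
    rw [← Finset.sum_attach]
    refine Finset.sum_congr rfl fun y _ => ?_
    simp)
  let e := Fintype.equivFin F
  refine ⟨Fintype.card F, fun i x => if hx : x ∈ F then B (e.symm i) ⟨x, hx⟩ else 0, ?_, ?_⟩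
  · intro i x hx
    simp [hx]
  · intro x hx y hy
    simp only [hx, hy, dif_pos]
    rw [hB ⟨x, hx⟩ ⟨y, hy⟩]
    exact (Equiv.sum_comp e.symm (fun l => B l ⟨x, hx⟩ * B l ⟨y, hy⟩)).symm

theorem PSDk.of_sum {n : ℕ} (w : Fin n → X → ℝ) : PSDk (fun x y => ∑ i, w i x * w i y) := by
  refine ⟨fun x y => Finset.sum_congr rfl fun i _ => mul_comm _ _, fun F c => ?_⟩
  rw [Ker_sum_sq]
  exact Finset.sum_nonneg fun i _ => sq_nonneg _

theorem PSDk.one : PSDk (fun _ _ : X => (1 : ℝ)) := by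
  refine ⟨fun _ _ => rfl, fun F c => ?_⟩
  have h1 : ∑ x ∈ F, ∑ y ∈ F, c x * c y * 1 = (∑ x ∈ F, c x) ^ 2 := by
    rw [sq, Finset.sum_mul_sum]
    exact Finset.sum_congr rfl fun x _ => Finset.sum_congr rfl fun y _ => by ring
  rw [h1]
  exact sq_nonneg _

theorem PSDk.add (h : PSDk κ) (h' : PSDk κ') : PSDk (fun x y => κ x y + κ' x y) := by
  refine ⟨fun x y => by beta_reduce; rw [h.1 x y, h'.1 x y], fun F c => ?_⟩
  have h1 : ∑ x ∈ F, ∑ y ∈ F, c x * c y * (κ x y + κ' x y) =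
      ∑ x ∈ F, ∑ y ∈ F, c x * c y * κ x y + ∑ x ∈ F, ∑ y ∈ F, c x * c y * κ' x y := by
    simp_rw [mul_add, Finset.sum_add_distrib]
  rw [h1]
  exact add_nonneg (h.2 F c) (h'.2 F c)

theorem PSDk.smul (h : PSDk κ) {c : ℝ} (hc : 0 ≤ c) : PSDk (fun x y => c * κ x y) := by
  refine ⟨fun x y => by beta_reduce; rw [h.1 x y], fun F d => ?_⟩
  have h1 : ∑ x ∈ F, ∑ y ∈ F, d x * d y * (c * κ x y) =
      c * ∑ x ∈ F, ∑ y ∈ F, d x * d y * κ x y := by
    simp_rw [Finset.mul_sum]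
    exact Finset.sum_congr rfl fun x _ => Finset.sum_congr rfl fun y _ => by ring
  rw [h1]
  exact mul_nonneg hc (h.2 F d)

theorem PSDk.mul (h : PSDk κ) (h' : PSDk κ') : PSDk (fun x y => κ x y * κ' x y) := by
  refine ⟨fun x y => by beta_reduce; rw [h.1 x y, h'.1 x y], fun F c => ?_⟩
  obtain ⟨n, w, -, hw⟩ := h.decomp F
  have h1 : ∑ x ∈ F, ∑ y ∈ F, c x * c y * (κ x y * κ' x y) =
      ∑ i, ∑ x ∈ F, ∑ y ∈ F, (c x * w i x) * (c y * w i y) * κ' x y := by
    symm
    rw [Finset.sum_comm]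
    refine Finset.sum_congr rfl fun x hx => ?_
    rw [Finset.sum_comm]
    refine Finset.sum_congr rfl fun y hy => ?_
    rw [hw x hx y hy, Finset.sum_mul, Finset.mul_sum]
    exact Finset.sum_congr rfl fun i _ => by ring
  rw [h1]
  exact Finset.sum_nonneg fun i _ => h'.2 F (fun x => c x * w i x)

theorem PSDk.comp (h : PSDk κ) (f : Y → X) : PSDk (fun a b => κ (f a) (f b)) := by
  classical
  refine ⟨fun a b => h.1 _ _, fun F c => ?_⟩
  obtain ⟨n, w, -, hw⟩ := h.decomp (F.image f)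
  have h1 : ∑ a ∈ F, ∑ b ∈ F, c a * c b * κ (f a) (f b) =
      ∑ a ∈ F, ∑ b ∈ F, c a * c b * ∑ i, w i (f a) * w i (f b) :=
    Finset.sum_congr rfl fun a ha => Finset.sum_congr rfl fun b hb => by
      rw [hw _ (Finset.mem_image_of_mem f ha) _ (Finset.mem_image_of_mem f hb)]
  rw [h1, Ker_sum_sq F c (fun i a => w i (f a))]
  exact Finset.sum_nonneg fun i _ => sq_nonneg _

theorem PSDk.tendsto {ι : Type v} {l : Filter ι} [l.NeBot] {κs : ι → X → X → ℝ}
    (h : ∀ i, PSDk (κs i)) (hl : ∀ x y, Tendsto (fun i => κs i x y) l (𝓝 (κ x y))) : PSDk κ := by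
  refine ⟨fun x y => tendsto_nhds_unique (hl x y)
    ((hl y x).congr (fun i => (h i).1 y x)), fun F c => ?_⟩
  have h1 : Tendsto (fun i => ∑ x ∈ F, ∑ y ∈ F, c x * c y * κs i x y) l
      (𝓝 (∑ x ∈ F, ∑ y ∈ F, c x * c y * κ x y)) :=
    tendsto_finsetSum _ fun x _ => tendsto_finsetSum _ fun y _ => (hl x y).const_mul _
  exact ge_of_tendsto' h1 fun i => (h i).2 F c

private theorem Ker_pow (h : PSDk κ) (n : ℕ) : PSDk (fun x y => κ x y ^ n) := by
  induction n with
  | zero => simpa using (PSDk.one : PSDk (fun _ _ : X => (1 : ℝ)))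
  | succ n ih => simpa only [pow_succ] using ih.mul h

private theorem Ker_partial (h : PSDk κ) (n : ℕ) :
    PSDk (fun x y => ∑ i ∈ Finset.range n, κ x y ^ i / (i.factorial : ℝ)) := by
  induction n with
  | zero =>
    refine ⟨fun _ _ => rfl, fun F c => ?_⟩
    simp
  | succ n ih =>
    have h1 : PSDk (fun x y => ((n.factorial : ℝ)⁻¹) * κ x y ^ n) :=
      (Ker_pow h n).smul (by positivity)
    have h2 := ih.add h1
    simpa only [Finset.sum_range_succ, div_eq_inv_mul] using h2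

theorem PSDk.exp (h : PSDk κ) : PSDk (fun x y => Real.exp (κ x y)) := by
  refine PSDk.tendsto (Ker_partial h) (l := atTop) fun x y => ?_
  rw [Real.exp_eq_exp_ℝ]
  exact (NormedSpace.expSeries_div_hasSum_exp (κ x y)).tendsto_sum_nat

theorem PSDk.diag_nonneg (h : PSDk κ) (x : X) : 0 ≤ κ x x := by
  have h1 := h.2 {x} (fun _ => 1)
  simpa using h1

theorem PSDk.sq_le (h : PSDk κ) (x y : X) : κ x y ^ 2 ≤ κ x x * κ y y := by
  classical
  by_cases hxy : x = y
  · subst hxy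
    rw [sq]
  · have h1 : ∀ t : ℝ, 0 ≤ κ y y * (t * t) + (2 * κ x y) * t + κ x x := by
      intro t
      have h2 := h.2 {x, y} (fun z => if z = x then 1 else t)
      rw [Finset.sum_pair hxy, Finset.sum_pair hxy, Finset.sum_pair hxy] at h2
      simp only [if_pos, if_neg (Ne.symm hxy)] at h2
      rw [h.1 y x] at h2
      nlinarith [h2]
    have h3 := discrim_le_zero h1
    rw [discrim] at h3
    nlinarith [h3]

/-- A kernel all of whose exponentials `exp (-t ν)` are positive semidefinite is of negative type. -/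
theorem neg_of_exp {ν : X → X → ℝ}
    (hexp : ∀ t : ℝ, 0 ≤ t → PSDk (fun x y => Real.exp (-(t * ν x y))))
    (F : Finset X) (c : X → ℝ) (hc : ∑ x ∈ F, c x = 0) :
    ∑ x ∈ F, ∑ y ∈ F, c x * c y * ν x y ≤ 0 := by
  have h0 : ∑ x ∈ F, ∑ y ∈ F, c x * c y = 0 := by
    rw [← Finset.sum_mul_sum, hc, zero_mul]
  have h1 : ∀ t : ℝ, 0 < t →
      0 ≤ ∑ x ∈ F, ∑ y ∈ F, c x * c y * (t⁻¹ * (Real.exp (-(t * ν x y)) - 1)) := by
    intro t ht
    have h2 := (hexp t ht.le).2 F c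
    have h3 : ∑ x ∈ F, ∑ y ∈ F, c x * c y * (t⁻¹ * (Real.exp (-(t * ν x y)) - 1)) =
        t⁻¹ * (∑ x ∈ F, ∑ y ∈ F, c x * c y * Real.exp (-(t * ν x y)) -
          ∑ x ∈ F, ∑ y ∈ F, c x * c y) := by
      simp_rw [← Finset.sum_sub_distrib, Finset.mul_sum]
      exact Finset.sum_congr rfl fun x _ => Finset.sum_congr rfl fun y _ => by ring
    rw [h3, h0, sub_zero]
    exact mul_nonneg (inv_nonneg.mpr ht.le) h2
  have h4 : ∀ a : ℝ, Tendsto (fun t : ℝ => t⁻¹ * (Real.exp (-(t * a)) - 1)) (𝓝[>] 0)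
      (𝓝 (-a)) := by
    intro a
    have h5 : HasDerivAt (fun t : ℝ => Real.exp (t * (-a))) (-a) 0 := by
      have h6 : HasDerivAt (fun t : ℝ => t * (-a)) (-a) 0 := by
        simpa using (hasDerivAt_id (0 : ℝ)).mul_const (-a)
      simpa using h6.exp
    simpa using h5.tendsto_slope_zero_right
  have h7 : Tendsto (fun t : ℝ => ∑ x ∈ F, ∑ y ∈ F, c x * c y *
      (t⁻¹ * (Real.exp (-(t * ν x y)) - 1))) (𝓝[>] 0)
      (𝓝 (∑ x ∈ F, ∑ y ∈ F, c x * c y * (-(ν x y)))) :=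
    tendsto_finsetSum _ fun x _ => tendsto_finsetSum _ fun y _ => (h4 (ν x y)).const_mul _
  have h8 : 0 ≤ ∑ x ∈ F, ∑ y ∈ F, c x * c y * (-(ν x y)) :=
    ge_of_tendsto h7 (eventually_mem_nhdsWithin.mono fun t ht => h1 t ht)
  have h9 : ∑ x ∈ F, ∑ y ∈ F, c x * c y * (-(ν x y)) =
      -∑ x ∈ F, ∑ y ∈ F, c x * c y * ν x y := by
    simp_rw [← Finset.sum_neg_distrib]
    exact Finset.sum_congr rfl fun x _ => Finset.sum_congr rfl fun y _ => by ring
  linarith

end Pool.SpecDense
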