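import Pool.Agent.Lib.MP_863a8d_al.Pos

/-!
# JOB KEY: the criterion

Let `h = q²`, `c = a t`. The expansion gives (`ev` is linear; remainders `O(t³)` are preserved by
`DR`, constants are killed by `DR`, `DR α = -a`):
`ev (h X²) (Φ t) = t² ev (h X²) γ + O(t³)` (since `ev (h X²) α = ev (h X) (-a) = 0`),
`ev (h X) (Φ t) = t a + O(t²)`, `ev h (Φ t) = 1 + O(t)`, hence
`ev (h (X - c)²) (Φ t) = t² (ev (h X²) γ - a²) + O(t³)`.
Given `0 < ε ≤ 1`, let `η = ε² a² / 8`, take `q` from `hγ`, and `k > 0` such that `q² ≥ 1/2` on `[0, k]`.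
Put `P = (2 / (ε c)²) q² (X - c)² + (1/k) X`. If no `y ∈ spec` has `|y - c| ≤ ε c` then `P ≥ 1` on `spec`
(`spec ⊆ [0, 2]`, `spec_mem`), so `ev P (Φ t) ≥ ev 1 (Φ t) = 1` by `ev_nonneg`; but
`ev P (Φ t) ≤ 1/4 + O(t)`. So for small `t` there is `y ∈ spec` with `|y - a t| ≤ ε a t`.
-/

set_option autoImplicit false

open Filter Topology

namespace Pool.SpecDense

universe u

variable {G : Type u} [Group G]

private theorem Key_DR (W : Walk G) (r : ℝ → G → ℝ)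
    (h : ∀ g, ∃ C : ℝ, ∀ t, 0 < t → t ≤ 1 → |r t g| ≤ C * t ^ 3) (g : G) :
    ∃ C : ℝ, ∀ t, 0 < t → t ≤ 1 → |W.DR (r t) g| ≤ C * t ^ 3 := by
  choose C hC using h
  refine ⟨C g + ∑ s ∈ W.S, W.μ s * C (g * s), fun t h0 h1 => ?_⟩
  rw [Walk.DR_apply]
  unfold Walk.E
  have h2 : |∑ s ∈ W.S, W.μ s * r t (g * s)| ≤ ∑ s ∈ W.S, W.μ s * C (g * s) * t ^ 3 := by
    refine (Finset.abs_sum_le_sum_abs _ _).trans (Finset.sum_le_sum fun s hs => ?_)
    rw [abs_mul, abs_of_pos (W.pos s hs), mul_assoc]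
    exact mul_le_mul_of_nonneg_left (hC _ t h0 h1) (W.pos s hs).le
  calc |r t g - ∑ s ∈ W.S, W.μ s * r t (g * s)|
      ≤ |r t g| + |∑ s ∈ W.S, W.μ s * r t (g * s)| := abs_sub _ _
    _ ≤ C g * t ^ 3 + ∑ s ∈ W.S, W.μ s * C (g * s) * t ^ 3 := add_le_add (hC g t h0 h1) h2
    _ = _ := by rw [add_mul, Finset.sum_mul]

private theorem Key_pow (W : Walk G) (n : ℕ) (r : ℝ → G → ℝ)
    (h : ∀ g, ∃ C : ℝ, ∀ t, 0 < t → t ≤ 1 → |r t g| ≤ C * t ^ 3) (g : G) :
    ∃ C : ℝ, ∀ t, 0 < t → t ≤ 1 → |(W.DR ^ n) (r t) g| ≤ C * t ^ 3 := by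
  induction n generalizing g with
  | zero => simpa using h g
  | succ n ih =>
      have e : ∀ f, (W.DR ^ (n + 1)) f = W.DR ((W.DR ^ n) f) := fun f => by
        rw [pow_succ', Module.End.mul_apply]
      simp only [e]
      exact Key_DR W (fun t => (W.DR ^ n) (r t)) ih g

private theorem Key_aeval (W : Walk G) (p : Polynomial ℝ) (r : ℝ → G → ℝ)
    (h : ∀ g, ∃ C : ℝ, ∀ t, 0 < t → t ≤ 1 → |r t g| ≤ C * t ^ 3) (g : G) :
    ∃ C : ℝ, ∀ t, 0 < t → t ≤ 1 → |(Polynomial.aeval W.DR p) (r t) g| ≤ C * t ^ 3 := by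
  induction p using Polynomial.induction_on' with
  | add p q hp hq =>
      obtain ⟨C, hC⟩ := hp
      obtain ⟨C', hC'⟩ := hq
      refine ⟨C + C', fun t h0 h1 => ?_⟩
      rw [map_add, LinearMap.add_apply, Pi.add_apply, add_mul]
      exact (abs_add_le _ _).trans (add_le_add (hC t h0 h1) (hC' t h0 h1))
  | monomial n a =>
      obtain ⟨C, hC⟩ := Key_pow W n r h g
      refine ⟨|a| * C, fun t h0 h1 => ?_⟩
      rw [Polynomial.aeval_monomial, Module.End.mul_apply, Module.algebraMap_end_apply,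
        Pi.smul_apply, smul_eq_mul, abs_mul, mul_assoc]
      exact mul_le_mul_of_nonneg_left (hC t h0 h1) (abs_nonneg a)

private theorem Key_ev_const (W : Walk G) (p : Polynomial ℝ) (c : ℝ) :
    W.ev p (fun _ => c) = c * p.eval 0 := by
  have hD : W.DR (fun _ => c) = 0 := by
    funext g
    rw [Walk.DR_apply, Walk.E_const, sub_self]
    rfl
  have hpow : ∀ n : ℕ, (W.DR ^ n) (fun _ : G => c) = fun _ => c * (0 : ℝ) ^ n := by
    intro n
    induction n with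
    | zero => simp
    | succ n ih =>
        rw [pow_succ, Module.End.mul_apply, hD, map_zero]
        funext g
        simp
  unfold Walk.ev
  induction p using Polynomial.induction_on' with
  | add p q hp hq =>
      rw [map_add, LinearMap.add_apply, Pi.add_apply, hp, hq, Polynomial.eval_add, mul_add]
  | monomial n a =>
      rw [Polynomial.aeval_monomial, Module.End.mul_apply, Module.algebraMap_end_apply,
        Pi.smul_apply, smul_eq_mul, hpow, Polynomial.eval_monomial]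
      ring

private theorem Key_expand (W : Walk G) (p : Polynomial ℝ) (Φ : ℝ → G → ℝ) (α γ : G → ℝ)
    (hexp : ∀ g, ∃ C : ℝ, ∀ t, 0 < t → t ≤ 1 → |Φ t g - (1 - t * α g + t ^ 2 * γ g)| ≤ C * t ^ 3) :
    ∃ C : ℝ, 0 ≤ C ∧ ∀ t, 0 < t → t ≤ 1 →
      |W.ev p (Φ t) - (p.eval 0 - t * W.ev p α + t ^ 2 * W.ev p γ)| ≤ C * t ^ 3 := by
  obtain ⟨C, hC⟩ := Key_aeval W p (fun t g => Φ t g - (1 - t * α g + t ^ 2 * γ g)) hexp 1
  refine ⟨max C 0, le_max_right _ _, fun t h0 h1 => ?_⟩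
  have h2 := hC t h0 h1
  have h3 : Φ t = (fun g => Φ t g - (1 - t * α g + t ^ 2 * γ g)) +
      ((fun _ => (1 : ℝ)) + ((-t) • α + (t ^ 2) • γ)) := by
    funext g
    simp only [Pi.add_apply, Pi.smul_apply, smul_eq_mul]
    ring
  have h4 : W.ev p (Φ t) = W.ev p (fun g => Φ t g - (1 - t * α g + t ^ 2 * γ g)) +
      (p.eval 0 - t * W.ev p α + t ^ 2 * W.ev p γ) := by
    conv_lhs => rw [h3]
    rw [W.ev_add_right, W.ev_add_right, W.ev_add_right, W.ev_smul_right, W.ev_smul_right,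
      Key_ev_const]
    ring
  rw [h4, add_sub_cancel_right]
  refine le_trans h2 ?_
  exact mul_le_mul_of_nonneg_right (le_max_left _ _) (by positivity)

private theorem Key_real (t a ε k g0 g1 g2 g3 a0 C0 C1 C2 C3 A0 A1 A2 A3 : ℝ)
    (ht0 : 0 < t) (ht1 : t ≤ 1) (ha : 0 < a) (hε : 0 < ε) (hk : 0 < k)
    (hC0 : 0 ≤ C0) (hC1 : 0 ≤ C1) (hC2 : 0 ≤ C2) (hC3 : 0 ≤ C3)
    (hq : g2 ≤ a ^ 2 + ε ^ 2 * a ^ 2 / 8)
    (b2 : A2 - t ^ 2 * g2 ≤ C2 * t ^ 3)
    (b1 : -(C1 * t ^ 3) ≤ A1 - (t * a + t ^ 2 * g1))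
    (b0 : A0 - (1 - t * a0 + t ^ 2 * g0) ≤ C0 * t ^ 3)
    (b3 : A3 - (t * a + t ^ 2 * g3) ≤ C3 * t ^ 3) :
    2 / (ε * (a * t)) ^ 2 * (A2 + (-(2 * (a * t)) * A1 + (a * t) ^ 2 * A0)) + 1 / k * A3
        ≤ 1 / 4 + (2 / (ε ^ 2 * a ^ 2) *
          (C2 + 2 * a * (|g1| + C1) + a ^ 2 * (|a0| + |g0| + C0))
      + 1 / k * (a + |g3| + C3)) * t := by
  have t20 : 0 ≤ t ^ 2 := sq_nonneg t
  have t2 : t ^ 2 ≤ t := by
    have := mul_le_mul_of_nonneg_left ht1 ht0.le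
    linarith only [this, sq t]
  have t30 : 0 ≤ t ^ 3 := by positivity
  have t3 : t ^ 3 ≤ t ^ 2 := by
    have := mul_le_mul_of_nonneg_left ht1 t20
    have e : t ^ 3 = t ^ 2 * t := by ring
    linarith only [this, e]
  have t3' : t ^ 3 ≤ t := t3.trans t2
  -- bounds on each piece
  have B2 : A2 ≤ t ^ 2 * (a ^ 2 + ε ^ 2 * a ^ 2 / 8) + C2 * t ^ 3 := by
    have := mul_le_mul_of_nonneg_left hq t20
    linarith only [this, b2]
  have B1 : t * a - (|g1| + C1) * t ^ 2 ≤ A1 := by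
    have i1 := mul_le_mul_of_nonneg_left (neg_abs_le g1) t20
    have i2 := mul_le_mul_of_nonneg_left t3 hC1
    linarith only [i1, i2, b1]
  have B0 : A0 ≤ 1 + (|a0| + |g0| + C0) * t := by
    have i1 := mul_le_mul_of_nonneg_left (neg_abs_le a0) ht0.le
    have i2 := mul_le_mul_of_nonneg_left (le_abs_self g0) t20
    have i3 := mul_le_mul_of_nonneg_left t3' hC0
    have i4 := mul_le_mul_of_nonneg_left t2 (abs_nonneg g0)
    linarith only [i1, i2, i3, i4, b0]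
  have B3 : A3 ≤ (a + |g3| + C3) * t := by
    have i2 := mul_le_mul_of_nonneg_left (le_abs_self g3) t20
    have i3 := mul_le_mul_of_nonneg_left t3' hC3
    have i4 := mul_le_mul_of_nonneg_left t2 (abs_nonneg g3)
    linarith only [i2, i3, i4, b3]
  generalize hG1 : |g1| + C1 = G1 at *
  generalize hG0 : |a0| + |g0| + C0 = G0 at *
  generalize hG3 : a + |g3| + C3 = G3 at *
  have hsum : A2 + (-(2 * (a * t)) * A1 + (a * t) ^ 2 * A0) ≤ t ^ 2 * (ε ^ 2 * a ^ 2 / 8) +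
      (C2 + 2 * a * G1 + a ^ 2 * G0) * t ^ 3 := by
    have j1 : 2 * (a * t) * (t * a - G1 * t ^ 2) ≤ 2 * (a * t) * A1 :=
      mul_le_mul_of_nonneg_left B1 (by positivity)
    have j0 : (a * t) ^ 2 * A0 ≤ (a * t) ^ 2 * (1 + G0 * t) :=
      mul_le_mul_of_nonneg_left B0 (by positivity)
    have e1 : 2 * (a * t) * (t * a - G1 * t ^ 2) = 2 * a ^ 2 * t ^ 2 - 2 * a * G1 * t ^ 3 := by
      ring
    have e0 : (a * t) ^ 2 * (1 + G0 * t) = a ^ 2 * t ^ 2 + a ^ 2 * G0 * t ^ 3 := by ring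
    rw [e1] at j1
    rw [e0] at j0
    linarith only [j1, j0, B2]
  have j1 : 2 / (ε * (a * t)) ^ 2 * (A2 + (-(2 * (a * t)) * A1 + (a * t) ^ 2 * A0)) ≤
      2 / (ε * (a * t)) ^ 2 * (t ^ 2 * (ε ^ 2 * a ^ 2 / 8) +
      (C2 + 2 * a * G1 + a ^ 2 * G0) * t ^ 3) :=
    mul_le_mul_of_nonneg_left hsum (by positivity)
  generalize C2 + 2 * a * G1 + a ^ 2 * G0 = H at *
  have j2 : 2 / (ε * (a * t)) ^ 2 * (t ^ 2 * (ε ^ 2 * a ^ 2 / 8) + H * t ^ 3) =
        1 / 4 + 2 / (ε ^ 2 * a ^ 2) * H * t := by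
    field_simp
    ring
  have j3 : 1 / k * A3 ≤ 1 / k * (G3 * t) :=
    mul_le_mul_of_nonneg_left B3 (by positivity)
  calc _ ≤ (1 / 4 + 2 / (ε ^ 2 * a ^ 2) * H * t) + 1 / k * (G3 * t) :=
        add_le_add (j1.trans_eq j2) j3
    _ = _ := by ring

theorem key (W : Walk G) (hF : Folner G) (Φ : ℝ → G → ℝ) (α γ : G → ℝ) (a : ℝ) (ha : 0 < a)
    (hPD : ∀ t, 0 < t → t ≤ 1 → PD (Φ t)) (hone : ∀ t, 0 < t → t ≤ 1 → Φ t 1 = 1)
    (hexp : ∀ g, ∃ C : ℝ, ∀ t, 0 < t → t ≤ 1 → |Φ t g - (1 - t * α g + t ^ 2 * γ g)| ≤ C * t ^ 3)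
    (hα : ∀ g, W.DR α g = -a)
    (hγ : ∀ η : ℝ, 0 < η → ∃ q : Polynomial ℝ, q.eval 0 = 1 ∧
      W.ev (q ^ 2 * Polynomial.X ^ 2) γ ≤ a ^ 2 + η) : W.DenseTop := by
  have main : ∀ ε : ℝ, 0 < ε → ε ≤ 1 → ∃ δ : ℝ, 0 < δ ∧ ∀ x : ℝ, 0 < x → x < δ →
      ∃ y ∈ W.spec, |y - x| ≤ ε * x := by
    intro ε hε hε1
    have hη : 0 < ε ^ 2 * a ^ 2 / 8 := by positivity
    obtain ⟨q, hq0, hq⟩ := hγ _ hη
    -- k
    obtain ⟨k, hk, hqk⟩ : ∃ k : ℝ, 0 < k ∧ ∀ y, 0 ≤ y → y ≤ k → 1 / 2 ≤ (q.eval y) ^ 2 := by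
      have hc : ContinuousAt (fun y : ℝ => (q.eval y) ^ 2) 0 := by fun_prop
      have h1 : ∀ᶠ y in 𝓝 (0 : ℝ), 1 / 2 < (q.eval y) ^ 2 := by
        refine hc.eventually_const_lt ?_
        show (1 : ℝ) / 2 < (q.eval 0) ^ 2
        rw [hq0]
        norm_num
      obtain ⟨r, hr, hr'⟩ := Metric.eventually_nhds_iff.1 h1
      refine ⟨r / 2, by positivity, fun y h0 h1 => (hr' ?_).le⟩
      rw [Real.dist_eq, sub_zero, abs_of_nonneg h0]
      linarith
    have hαc : W.DR α = fun _ => -a := by funext g; exact hα g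
    have eα : ∀ p : Polynomial ℝ, W.ev (p * Polynomial.X) α = -a * p.eval 0 := by
      intro p
      rw [W.ev_mul_X, hαc, Key_ev_const]
    obtain ⟨C2, hC2, h2⟩ := Key_expand W (q ^ 2 * Polynomial.X ^ 2) Φ α γ hexp
    obtain ⟨C1, hC1, h1⟩ := Key_expand W (q ^ 2 * Polynomial.X) Φ α γ hexp
    obtain ⟨C0, hC0, h0⟩ := Key_expand W (q ^ 2) Φ α γ hexp
    obtain ⟨C3, hC3, h3⟩ := Key_expand W Polynomial.X Φ α γ hexp
    have e2 : W.ev (q ^ 2 * Polynomial.X ^ 2) α = 0 := by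
      have : q ^ 2 * Polynomial.X ^ 2 = (q ^ 2 * Polynomial.X) * Polynomial.X := by ring
      rw [this, eα]
      simp
    have e1 : W.ev (q ^ 2 * Polynomial.X) α = -a := by
      rw [eα]
      simp [hq0]
    have e3 : W.ev Polynomial.X α = -a := by
      have := eα 1
      simpa using this
    simp only [e2, e1, e3, Polynomial.eval_mul, Polynomial.eval_pow, Polynomial.eval_X, hq0,
      one_pow, mul_zero, ne_eq, OfNat.ofNat_ne_zero, not_false_eq_true, zero_pow] at h2 h1 h0 h3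
    set g2 := W.ev (q ^ 2 * Polynomial.X ^ 2) γ with hg2
    set g1 := W.ev (q ^ 2 * Polynomial.X) γ with hg1
    set g0 := W.ev (q ^ 2) γ with hg0
    set g3 := W.ev Polynomial.X γ with hg3
    set a0 := W.ev (q ^ 2) α with ha0
    -- constants
    set D : ℝ := 2 / (ε ^ 2 * a ^ 2) * (C2 + 2 * a * (|g1| + C1) + a ^ 2 * (|a0| + |g0| + C0))
      + 1 / k * (a + |g3| + C3) with hD
    have hDnn : 0 ≤ D := by positivity
    refine ⟨a * min 1 (1 / (2 * (D + 1))), by positivity, fun x hx hxd => ?_⟩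
    set t := x / a with ht
    have ht0 : 0 < t := by positivity
    have htx : a * t = x := by rw [ht]; field_simp
    have htm : t < min 1 (1 / (2 * (D + 1))) := by
      rw [← htx] at hxd
      exact lt_of_mul_lt_mul_left hxd ha.le
    have ht1 : t ≤ 1 := (htm.trans_le (min_le_left _ _)).le
    have htD : D * t ≤ 1 / 2 := by
      have h5 : t ≤ 1 / (2 * (D + 1)) := (htm.trans_le (min_le_right _ _)).le
      rw [le_div_iff₀ (by positivity)] at h5
      nlinarith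
    by_contra hcon
    push Not at hcon
    -- the polynomial
    set c := x with hc
    set P : Polynomial ℝ := Polynomial.C (2 / (ε * c) ^ 2) *
      (q ^ 2 * Polynomial.X ^ 2 + (Polynomial.C (-(2 * c)) * (q ^ 2 * Polynomial.X) +
        Polynomial.C (c ^ 2) * q ^ 2)) + Polynomial.C (1 / k) * Polynomial.X with hP
    have hPe : ∀ y, P.eval y = 2 / (ε * c) ^ 2 * ((q.eval y) ^ 2 * (y - c) ^ 2) + 1 / k * y := by
      intro y
      simp only [hP, Polynomial.eval_add, Polynomial.eval_mul, Polynomial.eval_C,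
        Polynomial.eval_pow, Polynomial.eval_X]
      ring
    have hPs : ∀ y ∈ W.spec, 0 ≤ (P + Polynomial.C (-1) * 1).eval y := by
      intro y hy
      have hy2 := W.spec_mem hy
      have hyc := hcon y hy
      rw [Polynomial.eval_add, hPe]
      simp only [Polynomial.eval_mul, Polynomial.eval_C, Polynomial.eval_one]
      have hεc : 0 < ε * c := by positivity
      by_cases hyk : y ≤ k
      · have h5 := hqk y hy2.1 hyk
        have h6 : (ε * c) ^ 2 ≤ (y - c) ^ 2 := by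
          rw [← sq_abs (y - c)]
          exact pow_le_pow_left₀ hεc.le hyc.le 2
        have h7 : 1 / 2 * (ε * c) ^ 2 ≤ (q.eval y) ^ 2 * (y - c) ^ 2 :=
          mul_le_mul h5 h6 (by positivity) (by positivity)
        have h8 : 1 ≤ 2 / (ε * c) ^ 2 * ((q.eval y) ^ 2 * (y - c) ^ 2) := by
          have : 2 / (ε * c) ^ 2 * (1 / 2 * (ε * c) ^ 2) = 1 := by field_simp
          rw [← this]
          exact mul_le_mul_of_nonneg_left h7 (by positivity)
        have h9 : 0 ≤ 1 / k * y := mul_nonneg (by positivity) hy2.1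
        linarith
      · push Not at hyk
        have h8 : 0 ≤ 2 / (ε * c) ^ 2 * ((q.eval y) ^ 2 * (y - c) ^ 2) := by positivity
        have h9 : 1 ≤ 1 / k * y := by
          rw [one_div, ← div_eq_inv_mul, le_div_iff₀ hk]
          linarith
        linarith
    have hev := W.ev_nonneg hF hPs (hPD t ht0 ht1)
    rw [W.ev_add_left, W.ev_C_mul, W.ev_one, hone t ht0 ht1, hP, W.ev_add_left, W.ev_C_mul,
      W.ev_add_left, W.ev_add_left, W.ev_C_mul, W.ev_C_mul, W.ev_C_mul] at hev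
    have b2 := (abs_le.1 (h2 t ht0 ht1)).2
    have b1 := (abs_le.1 (h1 t ht0 ht1)).1
    have b0 := (abs_le.1 (h0 t ht0 ht1)).2
    have b3 := (abs_le.1 (h3 t ht0 ht1)).2
    have hfin := Key_real t a ε k g0 g1 g2 g3 a0 C0 C1 C2 C3 (W.ev (q ^ 2) (Φ t))
      (W.ev (q ^ 2 * Polynomial.X) (Φ t)) (W.ev (q ^ 2 * Polynomial.X ^ 2) (Φ t))
      (W.ev Polynomial.X (Φ t)) ht0 ht1 ha hε hk hC0 hC1 hC2 hC3 hq (by linarith only [b2])
      (by linarith only [b1]) (by linarith only [b0]) (by linarith only [b3])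
    have hcat : c = a * t := htx.symm
    rw [← hcat] at hfin
    rw [← hD] at hfin
    linarith only [hfin, hev, htD]
  intro ε hε
  obtain ⟨δ, hδ, h⟩ := main (min ε 1) (by positivity) (min_le_right _ _)
  refine ⟨δ, hδ, fun x hx hxd => ?_⟩
  obtain ⟨y, hy, hyx⟩ := h x hx hxd
  exact ⟨y, hy, hyx.trans (mul_le_mul_of_nonneg_right (min_le_left _ _) hx.le)⟩

end Pool.SpecDense
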