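import Pool.Agent.Lib.MP_863a8d_al.Defs

/-!
# Self-similar sets which are asymptotically dense at zero

With `G x = exp (-B x) * dist (x, K) / x` one has `G (F x) ≤ G x` for small `x`, and `G x → 0` as
`x → 0`; every small `z` is `F x` with `x ≤ z / λ`, `λ > 1`. Hence `G = 0` near `0`.
-/

set_option autoImplicit false

open Filter Topology

namespace Pool.SpecDense

theorem interval_of_selfSimilar {K : Set ℝ} (hK : IsClosed K)
    (hdense : ∀ ε : ℝ, 0 < ε → ∃ δ : ℝ, 0 < δ ∧ ∀ x : ℝ, 0 < x → x < δ → ∃ y ∈ K, |y - x| ≤ ε * x)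
    {F F' : ℝ → ℝ} {r C δ₀ : ℝ} (hr : 1 < r) (hδ₀ : 0 < δ₀) (hF0 : F 0 = 0)
    (hF : ∀ x, 0 ≤ x → x ≤ δ₀ → HasDerivWithinAt F (F' x) (Set.Icc 0 δ₀) x)
    (hF' : ∀ x, 0 ≤ x → x ≤ δ₀ → |F' x - r| ≤ C * x)
    (hinv : ∀ x, 0 ≤ x → x ≤ δ₀ → (x ∈ K ↔ F x ∈ K)) :
    ∃ δ₁ : ℝ, 0 < δ₁ ∧ Set.Icc 0 δ₁ ⊆ K := by
  have hC : 0 ≤ C := by
    have h := (abs_nonneg _).trans (hF' δ₀ hδ₀.le le_rfl)
    exact nonneg_of_mul_nonneg_left h hδ₀
  -- zero is in K
  have h0K : (0 : ℝ) ∈ K := by
    rw [hK.mem_iff_infDist_zero (by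
      obtain ⟨δ, hδ, h⟩ := hdense 1 one_pos
      obtain ⟨y, hy, _⟩ := h (δ / 2) (by positivity) (by linarith)
      exact ⟨y, hy⟩)]
    by_contra hne
    have hpos : 0 < Metric.infDist (0 : ℝ) K := lt_of_le_of_ne Metric.infDist_nonneg (Ne.symm hne)
    obtain ⟨δ, hδ, h⟩ := hdense 1 one_pos
    set x := min (δ / 2) (Metric.infDist (0 : ℝ) K / 3) with hx
    have hxpos : 0 < x := lt_min (by positivity) (by positivity)
    have hx1 : x < δ := (min_le_left _ _).trans_lt (by linarith)
    have hx2 : x ≤ Metric.infDist (0 : ℝ) K / 3 := min_le_right _ _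
    obtain ⟨y, hy, hyx⟩ := h x hxpos hx1
    have h1 : Metric.infDist (0 : ℝ) K ≤ dist 0 y := Metric.infDist_le_dist_of_mem hy
    rw [Real.dist_eq, zero_sub, abs_neg] at h1
    rw [one_mul, abs_le] at hyx
    have h2 : |y| ≤ 2 * x := by rw [abs_le]; constructor <;> linarith [hyx.1, hyx.2]
    linarith
  have hKne : K.Nonempty := ⟨0, h0K⟩
  -- mean value estimates
  have hb1 : ∀ x y b : ℝ, 0 ≤ x → 0 ≤ y → x ≤ b → y ≤ b → b ≤ δ₀ →
      |F x - F y| ≤ (r + C * b) * |x - y| := by
    intro x y b hx hy hxb hyb hb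
    have hconv : Convex ℝ (Set.Icc (0 : ℝ) b) := convex_Icc _ _
    have hd : ∀ z ∈ Set.Icc (0 : ℝ) b, HasDerivWithinAt F (F' z) (Set.Icc 0 b) z := fun z hz =>
      (hF z hz.1 (hz.2.trans hb)).mono (Set.Icc_subset_Icc_right hb)
    have hbound : ∀ z ∈ Set.Icc (0 : ℝ) b, ‖F' z‖ ≤ r + C * b := by
      intro z hz
      have h1 := hF' z hz.1 (hz.2.trans hb)
      have h2 : C * z ≤ C * b := mul_le_mul_of_nonneg_left hz.2 hC
      rw [Real.norm_eq_abs]
      rw [abs_le] at h1 ⊢
      constructor <;> linarith [h1.1, h1.2]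
    have := hconv.norm_image_sub_le_of_norm_hasDerivWithin_le hd hbound
      (Set.mem_Icc.2 ⟨hy, hyb⟩) (Set.mem_Icc.2 ⟨hx, hxb⟩)
    simpa [Real.norm_eq_abs] using this
  have hb2 : ∀ x : ℝ, 0 ≤ x → x ≤ δ₀ → |F x - r * x| ≤ C * x * x := by
    intro x hx hxδ
    have hconv : Convex ℝ (Set.Icc (0 : ℝ) x) := convex_Icc _ _
    have hd : ∀ z ∈ Set.Icc (0 : ℝ) x,
        HasDerivWithinAt (fun z => F z - r * z) (F' z - r) (Set.Icc 0 x) z := fun z hz => by
      have h1 := (hF z hz.1 (hz.2.trans hxδ)).mono (Set.Icc_subset_Icc_right hxδ)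
      have h2 : HasDerivWithinAt (fun z : ℝ => r * z) r (Set.Icc 0 x) z := by
        simpa using (hasDerivWithinAt_id z (Set.Icc 0 x)).const_mul r
      exact h1.sub h2
    have hbound : ∀ z ∈ Set.Icc (0 : ℝ) x, ‖F' z - r‖ ≤ C * x := by
      intro z hz
      rw [Real.norm_eq_abs]
      exact (hF' z hz.1 (hz.2.trans hxδ)).trans (mul_le_mul_of_nonneg_left hz.2 hC)
    have := hconv.norm_image_sub_le_of_norm_hasDerivWithin_le hd hbound
      (Set.mem_Icc.2 ⟨le_rfl, hx⟩) (Set.mem_Icc.2 ⟨hx, le_rfl⟩)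
    simp only [hF0, mul_zero, sub_zero, Real.norm_eq_abs, abs_of_nonneg hx] at this
    exact this
  -- constants
  set lam : ℝ := (r + 1) / 2 with hlam
  have hlam1 : 1 < lam := by rw [hlam]; linarith
  set δ₁ : ℝ := min (δ₀ / 2) ((r - 1) / (2 * (C + 1))) with hδ₁
  have hδ₁pos : 0 < δ₁ := lt_min (by positivity) (div_pos (by linarith) (by linarith))
  have hδ₁a : 2 * δ₁ ≤ δ₀ := by
    have : δ₁ ≤ δ₀ / 2 := min_le_left _ _
    linarith
  have hδ₁b : C * δ₁ ≤ (r - 1) / 2 := by
    have h1 : δ₁ ≤ (r - 1) / (2 * (C + 1)) := min_le_right _ _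
    have h2 : C * δ₁ ≤ (C + 1) * ((r - 1) / (2 * (C + 1))) :=
      mul_le_mul (by linarith) h1 hδ₁pos.le (by linarith)
    have h3 : (C + 1) * ((r - 1) / (2 * (C + 1))) = (r - 1) / 2 := by
      field_simp
    linarith
  set B : ℝ := 3 * C / (lam - 1) with hB
  have hBeq : B * (lam - 1) = 3 * C := by
    rw [hB]
    exact div_mul_cancel₀ _ (by linarith)
  have hB0 : 0 ≤ B := div_nonneg (by positivity) (by linarith)
  have hFlow : ∀ x, 0 ≤ x → x ≤ δ₁ → lam * x ≤ F x := by
    intro x hx hx1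
    have h1 := hb2 x hx (by linarith)
    rw [abs_le] at h1
    have h2 : C * x ≤ (r - 1) / 2 := (mul_le_mul_of_nonneg_left hx1 hC).trans hδ₁b
    have h3 : C * x * x ≤ (r - 1) / 2 * x := mul_le_mul_of_nonneg_right h2 hx
    rw [hlam]
    linarith [h1.1]
  set g : ℝ → ℝ := fun x => Real.exp (-(B * x)) * (Metric.infDist x K / x) with hg
  have hgnn : ∀ x, 0 < x → 0 ≤ g x := fun x hx =>
    mul_nonneg (Real.exp_pos _).le (div_nonneg Metric.infDist_nonneg hx.le)
  -- key inequality
  have hstep : ∀ x, 0 < x → x ≤ δ₁ → g (F x) ≤ g x := by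
    intro x hx hx1
    obtain ⟨y, hyK, hy⟩ := hK.exists_infDist_eq_dist hKne x
    have hd0 : Metric.infDist x K ≤ x := by
      have := Metric.infDist_le_dist_of_mem (x := x) h0K
      rwa [Real.dist_eq, sub_zero, abs_of_pos hx] at this
    rw [Real.dist_eq] at hy
    have hyb : |x - y| ≤ x := hy ▸ hd0
    rw [abs_le] at hyb
    have hy0 : 0 ≤ y := by linarith [hyb.2]
    have hy2 : y ≤ 2 * x := by linarith [hyb.1]
    have hFy : F y ∈ K := (hinv y hy0 (by linarith)).1 hyK
    have h1 : Metric.infDist (F x) K ≤ (r + C * (2 * x)) * Metric.infDist x K := by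
      refine (Metric.infDist_le_dist_of_mem hFy).trans ?_
      rw [Real.dist_eq, hy]
      exact hb1 x y (2 * x) hx.le hy0 (by linarith) hy2 (by linarith)
    have h2 := hb2 x hx.le (by linarith)
    rw [abs_le] at h2
    have h3 : C * x ≤ (r - 1) / 2 := (mul_le_mul_of_nonneg_left hx1 hC).trans hδ₁b
    have hFx : (r - C * x) * x ≤ F x := by nlinarith [h2.1]
    have hrx : 1 ≤ r - C * x := by linarith
    have hrxpos : 0 < (r - C * x) * x := by positivity
    have h4 : Metric.infDist (F x) K / F x ≤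
        (r + C * (2 * x)) * Metric.infDist x K / ((r - C * x) * x) :=
      div_le_div₀ (mul_nonneg (by nlinarith) Metric.infDist_nonneg) h1 hrxpos hFx
    have h5 : (r + C * (2 * x)) / (r - C * x) ≤ Real.exp (3 * C * x) := by
      have h6 : (r + C * (2 * x)) / (r - C * x) ≤ 1 + 3 * C * x := by
        rw [div_le_iff₀ (by linarith)]
        nlinarith [mul_nonneg hC hx.le]
      linarith [Real.add_one_le_exp (3 * C * x)]
    have h7 : Real.exp (-(B * F x)) ≤ Real.exp (-(B * (lam * x))) := by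
      rw [Real.exp_le_exp]
      nlinarith [mul_le_mul_of_nonneg_left (hFlow x hx.le hx1) hB0]
    have hdx : 0 ≤ Metric.infDist x K / x := div_nonneg Metric.infDist_nonneg hx.le
    calc g (F x) = Real.exp (-(B * F x)) * (Metric.infDist (F x) K / F x) := rfl
      _ ≤ Real.exp (-(B * (lam * x))) *
          ((r + C * (2 * x)) * Metric.infDist x K / ((r - C * x) * x)) := by
          refine mul_le_mul h7 h4 (div_nonneg Metric.infDist_nonneg ?_) (Real.exp_pos _).le
          linarith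
      _ = Real.exp (-(B * (lam * x))) * ((r + C * (2 * x)) / (r - C * x)) *
          (Metric.infDist x K / x) := by
          rw [mul_assoc]
          congr 1
          rw [div_mul_div_comm]
      _ ≤ Real.exp (-(B * (lam * x))) * Real.exp (3 * C * x) * (Metric.infDist x K / x) := by
          refine mul_le_mul_of_nonneg_right ?_ hdx
          exact mul_le_mul_of_nonneg_left h5 (Real.exp_pos _).le
      _ = g x := by
          rw [← Real.exp_add, hg]
          congr 2
          rw [← hBeq]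
          ring
  -- iterate
  have hiter : ∀ n : ℕ, ∀ z, 0 < z → z ≤ δ₁ → ∃ x, 0 < x ∧ x ≤ z / lam ^ n ∧ g z ≤ g x := by
    intro n
    induction n with
    | zero => intro z hz _; exact ⟨z, hz, by simp, le_rfl⟩
    | succ n ih =>
        intro z hz hz1
        have hcont : ContinuousOn F (Set.Icc 0 z) := fun x hx =>
          ((hF x hx.1 (hx.2.trans (by linarith))).continuousWithinAt).mono
            (Set.Icc_subset_Icc_right (by linarith))
        have hzF : z ∈ Set.Icc (F 0) (F z) := by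
          rw [hF0]
          refine ⟨hz.le, ?_⟩
          have := hFlow z hz.le hz1
          nlinarith
        obtain ⟨x, hx, hxz⟩ := intermediate_value_Icc hz.le hcont hzF
        have hxpos : 0 < x := by
          rcases hx.1.lt_or_eq with h | h
          · exact h
          · rw [← h, hF0] at hxz
            exact absurd hxz (ne_of_lt hz)
        have hx1 : x ≤ δ₁ := hx.2.trans hz1
        have hxle : x ≤ z / lam := by
          rw [le_div_iff₀ (by linarith), mul_comm, ← hxz]
          exact hFlow x hxpos.le hx1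
        obtain ⟨x', hx', hx'le, hgx'⟩ := ih x hxpos hx1
        refine ⟨x', hx', ?_, ?_⟩
        · refine hx'le.trans ?_
          rw [pow_succ, ← div_div, div_right_comm]
          exact div_le_div_of_nonneg_right hxle (by positivity)
        · rw [← hxz]
          exact (hstep x hxpos hx1).trans hgx'
  refine ⟨δ₁, hδ₁pos, fun z hz => ?_⟩
  rcases hz.1.lt_or_eq with hzpos | hz0
  swap
  · rw [← hz0]; exact h0K
  rw [hK.mem_iff_infDist_zero hKne]
  have hgz : g z ≤ 0 := by
    refine le_of_forall_pos_le_add fun ε hε => ?_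
    rw [zero_add]
    obtain ⟨δ, hδ, h⟩ := hdense ε hε
    have hlim : Tendsto (fun n : ℕ => z / lam ^ n) atTop (𝓝 0) :=
      tendsto_const_nhds.div_atTop (tendsto_pow_atTop_atTop_of_one_lt hlam1)
    obtain ⟨n, hn⟩ := (hlim.eventually (gt_mem_nhds hδ)).exists
    obtain ⟨x, hx, hxn, hgx⟩ := hiter n z hzpos hz.2
    obtain ⟨y, hy, hyx⟩ := h x hx (hxn.trans_lt hn)
    refine hgx.trans ?_
    have h1 : Metric.infDist x K ≤ ε * x := by
      refine (Metric.infDist_le_dist_of_mem hy).trans ?_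
      rw [Real.dist_eq, abs_sub_comm]
      exact hyx
    have h2 : Metric.infDist x K / x ≤ ε := by
      rw [div_le_iff₀ hx]
      exact h1
    have h3 : Real.exp (-(B * x)) ≤ 1 := by
      rw [Real.exp_le_one_iff]
      nlinarith [mul_nonneg hB0 hx.le]
    calc g x ≤ 1 * (Metric.infDist x K / x) :=
          mul_le_mul_of_nonneg_right h3 (div_nonneg Metric.infDist_nonneg hx.le)
      _ ≤ ε := by rw [one_mul]; exact h2
  have h4 : Real.exp (-(B * z)) * (Metric.infDist z K / z) = 0 :=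
    le_antisymm hgz (hgnn z hzpos)
  rcases mul_eq_zero.1 h4 with h5 | h5
  · exact absurd h5 (Real.exp_pos _).ne'
  · rcases div_eq_zero_iff.1 h5 with h6 | h6
    · exact h6
    · exact absurd h6 hzpos.ne'

end Pool.SpecDense
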