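import Pool.Agent.Lib.MP_863a8d_al.ExN
import Pool.Agent.Lib.MP_863a8d_al.Dich
import Pool.Agent.Lib.MP_863a8d_al.CaseA
import Pool.Agent.Lib.MP_863a8d_al.CaseB
import Pool.Agent.Lib.MP_863a8d_al.Self

/-!
# The main theorem
-/

set_option autoImplicit false

open Filter Topology

namespace Pool.SpecDense

universe u

variable {G : Type u} [Group G]

/-- For an infinite amenable group the spectrum is asymptotically dense at `1`. -/
theorem denseTop (W : Walk G) [Infinite G] (hF : Folner G) : W.DenseTop := by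
  obtain ⟨N, hN⟩ := exists_N W hF
  rcases dichotomy W (cr_sq_psd hN) (fun g x => (g * x.1, x.2)) (fun x => by simp)
    (fun g h x => by simp [mul_assoc]) (fun g x y => by simp only [cr_act]) (fun s => (1, s)) with h | h
  · refine caseA W hF hN ?_
    simpa only [mul_one] using h
  · refine caseB W hF hN ?_
    obtain ⟨θ, hθ, h⟩ := h
    refine ⟨θ, hθ, fun η hη => ?_⟩
    obtain ⟨q, hq, h1, h2⟩ := h η hη
    refine ⟨q, hq, ?_, fun s' x => ?_⟩
    · simp only [mul_one] at h1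
      exact h1
    · have h3 := h2 (1, s') x
      simp only [mul_one] at h3
      rw [cr_self hN, Real.sqrt_sq (hN.nonneg _)] at h3
      exact h3

/-- If moreover the spectrum is locally self-similar at `1` then it contains an interval. -/
theorem interval_of_selfSimilar_spec (W : Walk G) [Infinite G] (hG : Folner G)
    {F F' : ℝ → ℝ} {r C δ₀ : ℝ} (hr : 1 < r) (hδ₀ : 0 < δ₀) (hF0 : F 0 = 0)
    (hF : ∀ x, 0 ≤ x → x ≤ δ₀ → HasDerivWithinAt F (F' x) (Set.Icc 0 δ₀) x)
    (hF' : ∀ x, 0 ≤ x → x ≤ δ₀ → |F' x - r| ≤ C * x)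
    (hinv : ∀ x, 0 ≤ x → x ≤ δ₀ → (x ∈ W.spec ↔ F x ∈ W.spec)) :
    ∃ δ₁ : ℝ, 0 < δ₁ ∧ Set.Icc 0 δ₁ ⊆ W.spec :=
  interval_of_selfSimilar W.isClosed_spec (denseTop W hG) hr hδ₀ hF0 hF hF' hinv

end Pool.SpecDense
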