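import Mathlib

/-!
# Spectral projections of a self-adjoint operator, as limits of polynomials
-/

set_option autoImplicit false
set_option maxHeartbeats 4000000
set_option synthInstance.maxHeartbeats 400000

open Polynomial

namespace Pool.SpecDense

theorem exists_proj {H : Type*} [NormedAddCommGroup H] [InnerProductSpace ℂ H] [CompleteSpace H]
    (Δ : H →L[ℂ] H) (hΔ : IsSelfAdjoint Δ) (f : ℝ → ℝ) (hf : Continuous f)
    (h01 : ∀ y : ℝ, (y : ℂ) ∈ spectrum ℂ Δ → f y = 0 ∨ f y = 1) :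
    ∃ e : H →L[ℂ] H, IsSelfAdjoint e ∧ e * e = e ∧
      (∀ (p : ℝ[X]) (ε : ℝ), 0 ≤ ε →
        (∀ y : ℝ, (y : ℂ) ∈ spectrum ℂ Δ → |p.eval y - f y| ≤ ε) →
        ‖aeval Δ (p.map (algebraMap ℝ ℂ)) - e‖ ≤ ε) ∧
      (∀ y : ℝ, (y : ℂ) ∈ spectrum ℂ Δ → f y = 1 → e ≠ 0) := by
  have hsp : ∀ y : ℝ, y ∈ spectrum ℝ Δ ↔ (y : ℂ) ∈ spectrum ℂ Δ := fun y =>
    (spectrum.algebraMap_mem_iff ℂ).symm
  refine ⟨cfc f Δ, cfc_predicate f Δ, ?_, ?_, ?_⟩
  · rw [← cfc_mul f f Δ hf.continuousOn hf.continuousOn]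
    refine cfc_congr fun y hy => ?_
    rcases h01 y ((hsp y).1 hy) with h | h <;> simp [h]
  · intro p ε hε hp
    rw [aeval_map_algebraMap, ← cfc_polynomial p Δ,
      ← cfc_sub (fun y => p.eval y) f Δ (Polynomial.continuous _).continuousOn hf.continuousOn]
    refine norm_cfc_le hε fun y hy => ?_
    rw [Real.norm_eq_abs]
    exact hp y ((hsp y).1 hy)
  · intro y hy h1 h0
    have h7 : (1 : ℝ) ∈ spectrum ℝ (cfc f Δ) := by
      rw [cfc_map_spectrum f Δ hΔ hf.continuousOn]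
      exact ⟨y, (hsp y).2 hy, h1⟩
    have hnt : Nontrivial (H →L[ℂ] H) := by
      by_contra hnt
      rw [not_nontrivial_iff_subsingleton] at hnt
      rw [spectrum.of_subsingleton] at h7
      exact h7
    rw [h0, spectrum.zero_eq] at h7
    exact one_ne_zero h7

end Pool.SpecDense
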