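import Pool.Agent.Lib.MP_863a8d_al.Main
import Pool.Agent.Lib.MP_863a8d_al.Dbl
import Pool.Agent.Lib.MP_863a8d_al.Proj

/-!
# Gaps of the spectrum near one have bounded ratio, uniformly in the group
-/

set_option autoImplicit false
set_option maxHeartbeats 4000000
set_option synthInstance.maxHeartbeats 400000

open Filter Topology Polynomial

namespace Pool.SpecDense

universe u

variable {G : Type u} [Group G]

namespace Unif

section basic

open Classical in
/-- delta functions -/
noncomputable def dl (x : G) : L2 G := lp.single 2 x (1 : ℂ)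

open Classical in
/-- the indicator of the identity -/
noncomputable def ind (g : G) : ℝ := if g = 1 then 1 else 0

lemma ind_congr {g g' : G} (h : g = 1 ↔ g' = 1) : ind g = ind g' := by
  unfold ind
  by_cases hg : g = 1
  · rw [if_pos hg, if_pos (h.1 hg)]
  · rw [if_neg hg, if_neg (fun h' => hg (h.2 h'))]

lemma cf_dl (f : L2 G) (x g : G) : cf f (dl x) g = ((f : G → ℂ) (x * g)).re := by
  classical
  unfold cf dl
  rw [lp.inner_single_right, R_apply]
  simp

lemma dl_apply (x g : G) : (dl x : G → ℂ) g = (ind (x⁻¹ * g) : ℂ) := by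
  classical
  unfold dl ind
  rw [lp.single_apply, Pi.single_apply]
  by_cases h : g = x
  · rw [if_pos h, if_pos (by rw [h]; group)]
    simp
  · rw [if_neg h, if_neg (fun h' => h (by rw [inv_mul_eq_one] at h'; exact h'.symm))]
    simp

lemma cf_dl_dl (x y g : G) : cf (dl x) (dl y) g = ind (x⁻¹ * y * g) := by
  rw [cf_dl, dl_apply, Complex.ofReal_re, mul_assoc]

lemma norm_dl (x : G) : ‖dl x‖ = 1 := by
  classical
  unfold dl
  rw [lp.norm_single (by norm_num)]
  simp

/-- real functions in `ℓ²` -/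
noncomputable def toL2 (ψ : G → ℝ) (h : Summable (fun g => ψ g ^ 2)) : L2 G :=
  ⟨fun g => (ψ g : ℂ), memℓp_gen (by
    refine h.congr fun g => ?_
    simp)⟩

lemma toL2_apply (ψ : G → ℝ) (h : Summable (fun g => ψ g ^ 2)) (g : G) :
    (toL2 ψ h : G → ℂ) g = (ψ g : ℂ) := rfl

lemma cf_toL2 (ψ : G → ℝ) (h : Summable (fun g => ψ g ^ 2)) : cf (toL2 ψ h) (dl 1) = ψ := by
  funext g
  rw [cf_dl, toL2_apply, one_mul, Complex.ofReal_re]

end basic

variable (W : Walk G)

/-- coefficients of `p(1 - M)` -/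
noncomputable def cp (p : ℝ[X]) : G → ℝ := aeval W.DR p ind

lemma cf_aeval_dl (p : ℝ[X]) : cf (aeval (1 - W.op) p (dl 1)) (dl 1) = cp W p := by
  have h : (cf (dl 1) (dl 1) : G → ℝ) = ind := by
    funext g
    rw [cf_dl_dl, inv_one, one_mul, one_mul]
  rw [← W.aeval_DR_cf, h]
  rfl

lemma aeval_DR_shift (p : ℝ[X]) (φ : G → ℝ) (w : G) :
    aeval W.DR p (fun g => φ (w * g)) = fun g => aeval W.DR p φ (w * g) := by
  have h1 : ∀ φ : G → ℝ, W.DR (fun g => φ (w * g)) = fun g => W.DR φ (w * g) := by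
    intro φ
    funext g
    simp only [W.DR_apply, mul_assoc]
  have h2 : ∀ (n : ℕ) (φ : G → ℝ),
      (W.DR ^ n) (fun g => φ (w * g)) = fun g => (W.DR ^ n) φ (w * g) := by
    intro n
    induction n with
    | zero => intro φ; rfl
    | succ n ih =>
        intro φ
        rw [pow_succ, Module.End.mul_apply, h1, ih]
        rfl
  induction p using Polynomial.induction_on' with
  | add p q hp hq =>
      rw [map_add, LinearMap.add_apply, hp, hq]
      rfl
  | monomial n a =>
      rw [aeval_monomial, Module.End.mul_apply, Module.algebraMap_end_apply, h2]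
      rfl

lemma cp_inv (p : ℝ[X]) (g : G) : cp W p g⁻¹ = cp W p g := by
  have hind : ∀ g : G, ind g⁻¹ = ind g := fun g => ind_congr inv_eq_one
  -- inversion intertwines DR and DL
  have h1 : ∀ φ : G → ℝ, W.DL (fun g => φ g⁻¹) = fun g => W.DR φ g⁻¹ := by
    intro φ
    funext g
    rw [W.DL_apply, W.DR_apply]
    congr 1
    rw [← W.E_inv]
    refine W.E_congr fun s _ => ?_
    show φ (s⁻¹ * g)⁻¹ = φ (g⁻¹ * s)
    rw [mul_inv_rev, inv_inv]
  have h2 : ∀ (n : ℕ) (φ : G → ℝ),
      (W.DL ^ n) (fun g => φ g⁻¹) = fun g => (W.DR ^ n) φ g⁻¹ := by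
    intro n
    induction n with
    | zero => intro φ; rfl
    | succ n ih =>
        intro φ
        rw [pow_succ, Module.End.mul_apply, h1, ih]
        rfl
  have hDind : W.DL (ind : G → ℝ) = W.DR ind := by
    have h3 := h1 ind
    have h4 : (fun g : G => ind g⁻¹) = (ind : G → ℝ) := funext hind
    rw [h4] at h3
    rw [h3]
    funext g
    rw [W.DR_apply, W.DR_apply, hind]
    congr 1
    rw [← W.E_inv]
    refine W.E_congr fun s _ => ?_
    show ind (g⁻¹ * s⁻¹) = ind (g * s)
    rw [← mul_inv_rev, hind]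
    refine ind_congr ⟨fun h => ?_, fun h => ?_⟩
    · rw [mul_eq_one_iff_eq_inv] at h
      rw [h, mul_inv_cancel]
    · rw [mul_eq_one_iff_eq_inv] at h
      rw [h, mul_inv_cancel]
  have hpow : ∀ n : ℕ, (W.DL ^ n) (ind : G → ℝ) = (W.DR ^ n) ind := by
    intro n
    induction n with
    | zero => rfl
    | succ n ih =>
        have h5 : W.DL ((W.DR ^ n) (ind : G → ℝ)) = (W.DR ^ n) (W.DL ind) := by
          have := W.DL_aeval_DR (X ^ n) (ind : G → ℝ)
          simpa using this
        rw [pow_succ', Module.End.mul_apply, ih, h5, hDind, ← Module.End.mul_apply, ← pow_succ]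
  have hfin : ∀ n : ℕ, ∀ g : G, (W.DR ^ n) (ind : G → ℝ) g⁻¹ = (W.DR ^ n) ind g := by
    intro n g
    have h6 := congrFun (h2 n ind) g
    have h4 : (fun g : G => ind g⁻¹) = (ind : G → ℝ) := funext hind
    rw [h4, hpow] at h6
    exact h6.symm
  unfold cp
  induction p using Polynomial.induction_on' with
  | add p q hp hq =>
      rw [map_add, LinearMap.add_apply, Pi.add_apply, Pi.add_apply, hp, hq]
  | monomial n a =>
      rw [aeval_monomial, Module.End.mul_apply, Module.algebraMap_end_apply, Pi.smul_apply,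
        Pi.smul_apply, hfin]

lemma cp_pd {p : ℝ[X]} (hp : ∀ y ∈ W.spec, 0 ≤ p.eval y) : PD (cp W p) := by
  refine ⟨fun x y => ?_, fun F c => ?_⟩
  · show cp W p (x⁻¹ * y) = cp W p (y⁻¹ * x)
    rw [← cp_inv]
    congr 1
    group
  · set h : L2 G := ∑ x ∈ F, (c x : ℂ) • dl x with hh
    have h1 := W.ev_cf_nonneg p hp h
    have h2 : cf h h = ∑ x ∈ F, ∑ y ∈ F, (c x * c y) • (fun g => ind (x⁻¹ * y * g)) := by
      funext g
      rw [Finset.sum_apply]
      have h3 : cf h h g = ∑ x ∈ F, ∑ y ∈ F, (c x * c y) * cf (dl x) (dl y) g := by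
        unfold cf
        rw [hh, map_sum, sum_inner, Complex.re_sum]
        refine Finset.sum_congr rfl fun x _ => ?_
        rw [inner_sum, Complex.re_sum]
        refine Finset.sum_congr rfl fun y _ => ?_
        rw [map_smul, inner_smul_left, inner_smul_right, Complex.conj_ofReal, ← mul_assoc,
          ← Complex.ofReal_mul, Complex.re_ofReal_mul]
      rw [h3]
      refine Finset.sum_congr rfl fun x _ => ?_
      rw [Finset.sum_apply]
      refine Finset.sum_congr rfl fun y _ => ?_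
      rw [cf_dl_dl, Pi.smul_apply, smul_eq_mul]
    rw [h2] at h1
    unfold Walk.ev at h1
    rw [map_sum, Finset.sum_apply] at h1
    refine h1.trans (le_of_eq ?_)
    refine Finset.sum_congr rfl fun x _ => ?_
    rw [map_sum, Finset.sum_apply]
    refine Finset.sum_congr rfl fun y _ => ?_
    rw [map_smul, Pi.smul_apply, smul_eq_mul, aeval_DR_shift W p ind]
    show c x * c y * aeval W.DR p ind (x⁻¹ * y * 1) = _
    rw [mul_one]
    rfl

lemma pd_mul_ge {φ : G → ℝ} (h : PD φ) (h1 : φ 1 = 1) (g g' : G) :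
    2 * φ g + 2 * φ g' - 3 ≤ φ (g * g') := by
  classical
  obtain ⟨n, w, _, hw⟩ := PSDk.decomp h ({g⁻¹, 1, g'} : Finset G)
  have e1 := hw g⁻¹ (by simp) g⁻¹ (by simp)
  have e2 := hw 1 (by simp) 1 (by simp)
  have e3 := hw g' (by simp) g' (by simp)
  have e4 := hw g⁻¹ (by simp) 1 (by simp)
  have e5 := hw g⁻¹ (by simp) g' (by simp)
  have e6 := hw 1 (by simp) g' (by simp)
  simp only [inv_inv, mul_inv_cancel, inv_mul_cancel, mul_one, inv_one, one_mul, h1] at e1 e2 e3 e4 e5 e6
  have hsq : 0 ≤ ∑ i, (w i g⁻¹ + w i g' - 2 * w i 1) ^ 2 :=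
    Finset.sum_nonneg fun i _ => sq_nonneg _
  have hexp : ∑ i, (w i g⁻¹ + w i g' - 2 * w i 1) ^ 2 =
      (∑ i, w i g⁻¹ * w i g⁻¹) + (∑ i, w i g' * w i g') + 4 * (∑ i, w i 1 * w i 1) +
      2 * (∑ i, w i g⁻¹ * w i g') - 4 * (∑ i, w i g⁻¹ * w i 1) -
      4 * (∑ i, w i 1 * w i g') := by
    simp only [Finset.mul_sum, ← Finset.sum_add_distrib, ← Finset.sum_sub_distrib]
    exact Finset.sum_congr rfl fun i _ => by ring
  rw [hexp, ← e1, ← e2, ← e3, ← e4, ← e5, ← e6] at hsq
  linarith

lemma pd_inv {φ : G → ℝ} (h : PD φ) (g : G) : φ g⁻¹ = φ g := by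
  have := h.1 g 1
  simpa using this

lemma pd_abs_le {φ : G → ℝ} (h : PD φ) (h1 : φ 1 = 1) (g : G) : |φ g| ≤ 1 := by
  have := PSDk.sq_le h 1 g
  simp only [inv_one, one_mul, inv_mul_cancel, h1, mul_one] at this
  exact (sq_le_one_iff_abs_le_one _).1 this

theorem spectrum_of_spec {y : ℝ} (hy : y ∈ W.spec) : (y : ℂ) ∈ spectrum ℂ (1 - W.op) := by
  have h2 : (1 : L2 G →L[ℂ] L2 G) - W.op = algebraMap ℂ (L2 G →L[ℂ] L2 G) 1 - W.op := by
    rw [map_one]
  rw [h2, ← spectrum.singleton_sub_eq]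
  refine ⟨1, rfl, ((1 - y : ℝ) : ℂ), hy, ?_⟩
  show (1 : ℂ) - ((1 - y : ℝ) : ℂ) = (y : ℂ)
  push_cast
  ring

theorem exists_spec_between (W : Walk G) [Infinite G] (hF : Folner G) {a b : ℝ} (ha : 0 < a)
    (hab : 500 * a ≤ b) (hμ : ∀ s ∈ W.S, 40 * a ≤ W.μ s) : ∃ y ∈ W.spec, a < y ∧ y < b := by
  by_contra hgap
  push Not at hgap
  have hb : 0 < b := by linarith
  have hlt : a < b := by linarith
  set Δ : L2 G →L[ℂ] L2 G := 1 - W.op with hΔdef
  have hΔ : IsSelfAdjoint Δ := (IsSelfAdjoint.one _).sub W.op_selfAdjoint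
  set f : ℝ → ℝ := fun y => max 0 (min 1 ((b - y) / (b - a))) with hf
  have hfcont : Continuous f := by
    rw [hf]
    fun_prop
  have hf1 : ∀ y, y ≤ a → f y = 1 := by
    intro y hy
    have : 1 ≤ (b - y) / (b - a) := by
      rw [le_div_iff₀ (by linarith)]
      linarith
    simp only [hf]
    rw [min_eq_left this, max_eq_right zero_le_one]
  have hf0 : ∀ y, b ≤ y → f y = 0 := by
    intro y hy
    have : (b - y) / (b - a) ≤ 0 := div_nonpos_of_nonpos_of_nonneg (by linarith) (by linarith)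
    simp only [hf]
    rw [max_eq_left ((min_le_right _ _).trans this)]
  have hfspec : ∀ y ∈ W.spec, (y ≤ a ∧ f y = 1) ∨ (b ≤ y ∧ f y = 0) := by
    intro y hy
    rcases le_or_gt y a with h | h
    · exact Or.inl ⟨h, hf1 y h⟩
    · exact Or.inr ⟨hgap y hy h, hf0 y (hgap y hy h)⟩
  obtain ⟨e, hesa, hee, happ, hne⟩ := exists_proj Δ hΔ f hfcont (fun y hy => by
    rcases hfspec y (W.mem_spec_of hy) with h | h
    · exact Or.inr h.2
    · exact Or.inl h.2)
  -- polynomial approximations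
  have hPex : ∀ n : ℕ, ∃ p : ℝ[X], ∀ y ∈ Set.Icc (0 : ℝ) 2,
      0 ≤ p.eval y ∧ |p.eval y - f y| ≤ 2 / ((n : ℝ) + 1) := by
    intro n
    have hn : (0 : ℝ) < 1 / ((n : ℝ) + 1) := by positivity
    obtain ⟨q, hq⟩ := exists_polynomial_near_of_continuousOn 0 2 f hfcont.continuousOn _ hn
    refine ⟨q + C (1 / ((n : ℝ) + 1)), fun y hy => ?_⟩
    have h1 := hq y hy
    rw [abs_lt] at h1
    have h2 : 0 ≤ f y := le_max_left _ _
    have h3 : 2 / ((n : ℝ) + 1) = 1 / ((n : ℝ) + 1) + 1 / ((n : ℝ) + 1) := by ring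
    rw [eval_add, eval_C, abs_le, h3]
    constructor
    · linarith [h1.1]
    · constructor <;> linarith [h1.1, h1.2]
  choose P hP using hPex
  have hPspec : ∀ n, ∀ y ∈ W.spec, 0 ≤ (P n).eval y ∧ |(P n).eval y - f y| ≤ 2 / ((n : ℝ) + 1) :=
    fun n y hy => hP n y (W.spec_mem hy)
  have hlim0 : Tendsto (fun n : ℕ => 2 / ((n : ℝ) + 1)) atTop (𝓝 0) := by
    have h1 := tendsto_one_div_add_atTop_nhds_zero_nat (𝕜 := ℝ)
    have h2 := h1.const_mul 2
    rw [mul_zero] at h2
    exact h2.congr fun n => by ring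
  have hPe : Tendsto (fun n => aeval Δ (P n)) atTop (𝓝 e) := by
    rw [tendsto_iff_norm_sub_tendsto_zero]
    refine squeeze_zero (fun n => norm_nonneg _) (fun n => ?_) hlim0
    rw [← aeval_map_algebraMap ℂ Δ (P n)]
    exact happ (P n) _ (by positivity) fun y hy => (hPspec n y (W.mem_spec_of hy)).2
  have hcflim : ∀ (h h' : L2 G) (g : G),
      Tendsto (fun n => cf (aeval Δ (P n) h) h' g) atTop (𝓝 (cf (e h) h' g)) := by
    intro h h' g
    have hc : Continuous (fun T : L2 G →L[ℂ] L2 G => cf (T h) h' g) := by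
      unfold cf
      have h1 : Continuous (fun T : L2 G →L[ℂ] L2 G => R g (T h)) :=
        (R g).continuous.comp (ContinuousLinearMap.apply ℂ (L2 G) h).continuous
      exact Complex.continuous_re.comp (h1.inner continuous_const)
    exact (hc.tendsto e).comp hPe
  -- inner products with e
  have hadj : ∀ h h' : L2 G, inner ℂ (e h) h' = inner ℂ h (e h') := by
    intro h h'
    exact (ContinuousLinearMap.isSelfAdjoint_iff_isSymmetric.1 hesa) h h'
  have hcf1 : ∀ h h' : L2 G, cf h h' 1 = (inner ℂ h h').re := by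
    intro h h'
    unfold cf
    rw [R_one]
  have hproj : ∀ h : L2 G, (inner ℂ (e h) h).re = ‖e h‖ ^ 2 := by
    intro h
    have h1 : inner ℂ (e h) h = inner ℂ (e h) (e h) := by
      rw [← hadj (e h) h, ← mul_apply_eq_comp, hee]
    rw [h1, inner_self_eq_norm_sq_to_K]
    norm_cast
  set u : L2 G := e (dl 1) with hu
  set c : G → ℝ := cf u (dl 1) with hc
  have hcval : ∀ g, c g = ((u : G → ℂ) g).re := fun g => by rw [hc, cf_dl, one_mul]
  have hcn : ∀ g, Tendsto (fun n => cp W (P n) g) atTop (𝓝 (c g)) := by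
    intro g
    have h1 := hcflim (dl 1) (dl 1) g
    refine h1.congr fun n => ?_
    rw [hΔdef, cf_aeval_dl]
  have hcPD : PD c := PSDk.tendsto (l := atTop)
    (fun n => cp_pd W (p := P n) (fun y hy => (hPspec n y hy).1)) (fun x y => hcn (x⁻¹ * y))
  set t : ℝ := c 1 with ht
  have htnorm : t = ‖u‖ ^ 2 := by
    rw [ht, hc, hcf1, hu, hproj]
  have hnormsum : HasSum (fun g => ‖(u : G → ℂ) g‖ ^ 2) (‖u‖ ^ 2) := by
    have := lp.hasSum_norm (p := 2) (by norm_num) u
    simpa using this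
  have hcsq : ∀ g, c g ^ 2 ≤ ‖(u : G → ℂ) g‖ ^ 2 := by
    intro g
    rw [hcval, ← sq_abs]
    exact pow_le_pow_left₀ (abs_nonneg _) (Complex.abs_re_le_norm _) 2
  have hcsum : Summable (fun g => c g ^ 2) :=
    Summable.of_nonneg_of_le (fun g => sq_nonneg _) hcsq hnormsum.summable
  have hcsumle : ∑' g, c g ^ 2 ≤ t := by
    rw [htnorm, ← hnormsum.tsum_eq]
    exact hcsum.tsum_le_tsum hcsq hnormsum.summable
  -- positivity of t
  have htpos : 0 < t := by
    by_contra hneg
    have ht0 : t = 0 := le_antisymm (not_lt.1 hneg) (htnorm ▸ by positivity)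
    have hx : ∀ x : G, e (dl x) = 0 := by
      intro x
      have h1 := hcflim (dl x) (dl x) 1
      have h2 : ∀ n, cf (aeval Δ (P n) (dl x)) (dl x) 1 = cp W (P n) 1 := by
        intro n
        rw [hΔdef, ← W.aeval_DR_cf]
        have h3 : (cf (dl x) (dl x) : G → ℝ) = ind := by
          funext g
          rw [cf_dl_dl, inv_mul_cancel, one_mul]
        rw [h3]
        rfl
      simp_rw [h2] at h1
      have h4 := tendsto_nhds_unique h1 (hcn 1)
      rw [hcf1, hproj] at h4
      have h5 : ‖e (dl x)‖ ^ 2 = 0 := h4.trans ht0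
      exact norm_eq_zero.1 (pow_eq_zero_iff (two_ne_zero) |>.1 h5)
    have he0 : e = 0 := by
      refine ContinuousLinearMap.ext fun v => lp.ext ?_
      funext x
      classical
      have h6 : inner ℂ (dl x) (e v) = (e v : G → ℂ) x := by
        unfold dl
        rw [lp.inner_single_left]
        simp
      rw [← h6, ← hadj, hx, inner_zero_left]
      rfl
    obtain ⟨δ, hδ, hd⟩ := denseTop W hF 1 one_pos
    obtain ⟨y, hy, hyx⟩ := hd (min (δ / 2) (a / 2)) (lt_min (by positivity) (by positivity))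
      ((min_le_left _ _).trans_lt (by linarith))
    rw [one_mul, abs_le] at hyx
    have hya : y ≤ a := by linarith [hyx.2, min_le_right (δ / 2) (a / 2)]
    exact hne y (spectrum_of_spec W hy) (hf1 y hya) he0
  -- the normalised function
  set φ : G → ℝ := fun g => t⁻¹ * c g with hφ
  have hφPD : PD φ := PSDk.smul hcPD (inv_nonneg.2 htpos.le)
  have hφ1 : φ 1 = 1 := inv_mul_cancel₀ htpos.ne'
  have hφle : ∀ g, φ g ≤ 1 := fun g => (abs_le.1 (pd_abs_le hφPD hφ1 g)).2
  have hφge : ∀ g, -1 ≤ φ g := fun g => (abs_le.1 (pd_abs_le hφPD hφ1 g)).1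
  have hcE : t - W.E c ≤ a * t := by
    have h1 : ∀ n : ℕ, 0 ≤ a * cp W (P n) 1 - (cp W (P n) 1 - W.E (cp W (P n))) +
        2 * (2 / ((n : ℝ) + 1)) := by
      intro n
      have h2 := W.ev_cf_nonneg (P n * (C a - X) + C (2 * (2 / ((n : ℝ) + 1)))) ?_ (dl 1)
      · have h3 : (cf (dl 1) (dl 1) : G → ℝ) = ind := by
          funext g
          rw [cf_dl_dl, inv_mul_cancel, one_mul]
        rw [h3, mul_sub, sub_eq_add_neg, W.ev_add_left, W.ev_add_left] at h2
        have h4 : W.ev (P n * C a) ind = a * cp W (P n) 1 := by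
          rw [mul_comm, W.ev_C_mul]
          rfl
        have h5 : W.ev (-(P n * X)) ind = -(cp W (P n) 1 - W.E (cp W (P n))) := by
          have h6 : -(P n * X) = C (-1) * (X * P n) := by simp [mul_comm]
          rw [h6, W.ev_C_mul]
          unfold Walk.ev
          rw [map_mul, aeval_X, Module.End.mul_apply, W.DR_apply]
          simp only [one_mul, neg_mul]
          rfl
        have h7 : W.ev (C (2 * (2 / ((n : ℝ) + 1)))) ind = 2 * (2 / ((n : ℝ) + 1)) := by
          have h8 : C (2 * (2 / ((n : ℝ) + 1))) = C (2 * (2 / ((n : ℝ) + 1))) * (1 : ℝ[X]) := by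
            rw [mul_one]
          rw [h8, W.ev_C_mul, W.ev_one]
          unfold ind
          simp
        rw [h4, h5, h7] at h2
        linarith
      · intro y hy
        have h3 := hPspec n y hy
        have h4 := W.spec_mem hy
        rw [eval_add, eval_mul, eval_sub, eval_C, eval_X, eval_C]
        rcases hfspec y hy with h | h
        · have : 0 ≤ (P n).eval y * (a - y) := mul_nonneg h3.1 (by linarith [h.1])
          have : (0 : ℝ) ≤ 2 / ((n : ℝ) + 1) := by positivity
          linarith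
        · rw [h.2, sub_zero, abs_of_nonneg h3.1] at h3
          nlinarith [h3.1, h3.2, h4.1, h4.2]
    have hElim : Tendsto (fun n => W.E (cp W (P n))) atTop (𝓝 (W.E c)) := by
      unfold Walk.E
      exact tendsto_finsetSum _ fun s _ => (hcn s).const_mul _
    have h9 : Tendsto (fun n : ℕ => a * cp W (P n) 1 - (cp W (P n) 1 - W.E (cp W (P n))) +
        2 * (2 / ((n : ℝ) + 1))) atTop (𝓝 (a * t - (t - W.E c) + 2 * 0)) :=
      (((hcn 1).const_mul a).sub ((hcn 1).sub hElim)).add (hlim0.const_mul 2)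
    have h10 := ge_of_tendsto' h9 h1
    linarith
  have hφE : 1 - W.E φ ≤ a := by
    have h1 : W.E φ = t⁻¹ * W.E c := W.E_mul t⁻¹ c
    rw [h1]
    have h2 : t⁻¹ * (t - W.E c) ≤ t⁻¹ * (a * t) := mul_le_mul_of_nonneg_left hcE
      (inv_nonneg.2 htpos.le)
    rw [mul_sub, inv_mul_cancel₀ htpos.ne', mul_comm a t, inv_mul_cancel_left₀ htpos.ne'] at h2
    exact h2
  have hφsum : Summable (fun g => φ g ^ 2) := by
    have := hcsum.mul_left (t⁻¹ ^ 2)
    refine this.congr fun g => ?_
    rw [hφ]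
    ring
  have hφsumle : ∑' g, φ g ^ 2 ≤ 1 / t := by
    have h1 : ∑' g, φ g ^ 2 = t⁻¹ ^ 2 * ∑' g, c g ^ 2 := by
      rw [← tsum_mul_left]
      exact tsum_congr fun g => by rw [hφ]; ring
    rw [h1]
    calc t⁻¹ ^ 2 * ∑' g, c g ^ 2 ≤ t⁻¹ ^ 2 * t :=
          mul_le_mul_of_nonneg_left hcsumle (by positivity)
      _ = 1 / t := by field_simp
  -- the square
  set ψ : G → ℝ := fun g => φ g * φ g with hψ
  have hψPD : PD ψ := PSDk.mul hφPD hφPD
  have hψ1 : ψ 1 = 1 := by rw [hψ]; simp only [hφ1, mul_one]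
  have hψsum : Summable (fun g => ψ g ^ 2) := by
    refine Summable.of_nonneg_of_le (fun g => sq_nonneg _) (fun g => ?_) hφsum
    have h1 : φ g ^ 2 ≤ 1 := by
      have := pd_abs_le hφPD hφ1 g
      rwa [sq_le_one_iff_abs_le_one]
    have h2 : ψ g ^ 2 = φ g ^ 2 * φ g ^ 2 := by rw [hψ]; ring
    rw [h2]
    nlinarith [sq_nonneg (φ g)]
  have hψE : 1 - W.E ψ ≤ 2 * a := by
    have h1 : W.E (fun s => 2 * φ s - 1) ≤ W.E ψ := W.E_mono fun s _ => by
      rw [hψ]
      nlinarith [sq_nonneg (φ s - 1)]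
    rw [W.E_sub, W.E_mul, W.E_const] at h1
    linarith
  have hmain : 1 - 2 * a / b ≤ ∑' g, ψ g * c g := by
    have h1 : ∀ n : ℕ, 0 ≤ 1 / b * (2 * a) + (2 / ((n : ℝ) + 1) - 1) +
        cf (aeval Δ (P n) (toL2 ψ hψsum)) (dl 1) 1 := by
      intro n
      have h2 := W.ev_nonneg hF (p := C (1 / b) * X + C (2 / ((n : ℝ) + 1) - 1) * 1 + P n) ?_ hψPD
      · rw [W.ev_add_left, W.ev_add_left, W.ev_C_mul, W.ev_C_mul, W.ev_one, hψ1, mul_one] at h2
        have h3 : W.ev X ψ = 1 - W.E ψ := by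
          have h4 : (X : ℝ[X]) = 1 * X := by rw [one_mul]
          rw [h4, W.ev_mul_X, W.ev_one, W.DR_apply, hψ1]
          simp only [one_mul]
        have h5 : W.ev (P n) ψ = cf (aeval Δ (P n) (toL2 ψ hψsum)) (dl 1) 1 := by
          rw [hΔdef, ← W.aeval_DR_cf, cf_toL2]
          rfl
        rw [h3, h5] at h2
        have h6 : 1 / b * (1 - W.E ψ) ≤ 1 / b * (2 * a) :=
          mul_le_mul_of_nonneg_left hψE (by positivity)
        linarith
      · intro y hy
        have h3 := hPspec n y hy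
        have h4 := W.spec_mem hy
        rw [eval_add, eval_add, eval_mul, eval_mul, eval_C, eval_C, eval_X, eval_one, mul_one]
        rcases hfspec y hy with h | h
        · rw [h.2] at h3
          have h5 := abs_le.1 h3.2
          have h6 : 0 ≤ 1 / b * y := mul_nonneg (by positivity) h4.1
          linarith [h5.1]
        · have h6 : 1 ≤ 1 / b * y := by
            rw [one_div_mul_eq_div, le_div_iff₀ hb]
            linarith [h.1]
          have h7 : (0 : ℝ) ≤ 2 / ((n : ℝ) + 1) := by positivity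
          linarith [h3.1]
    have h8 : Tendsto (fun n : ℕ => 1 / b * (2 * a) + (2 / ((n : ℝ) + 1) - 1) +
        cf (aeval Δ (P n) (toL2 ψ hψsum)) (dl 1) 1) atTop
        (𝓝 (1 / b * (2 * a) + (0 - 1) + cf (e (toL2 ψ hψsum)) (dl 1) 1)) :=
      ((hlim0.sub_const 1).const_add _).add (hcflim _ _ _)
    have h9 := ge_of_tendsto' h8 h1
    have h10 : cf (e (toL2 ψ hψsum)) (dl 1) 1 = ∑' g, ψ g * c g := by
      rw [hcf1, hadj, ← hu, lp.inner_eq_tsum, Complex.re_tsum (lp.summable_inner _ _)]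
      refine tsum_congr fun g => ?_
      rw [toL2_apply, hcval]
      simp [mul_comm]
    rw [h10] at h9
    have h11 : 1 / b * (2 * a) = 2 * a / b := by ring
    linarith
  have hcube : Summable (fun g => φ g ^ 3) := by
    refine Summable.of_norm_bounded hφsum fun g => ?_
    rw [Real.norm_eq_abs, abs_pow, ← sq_abs (φ g)]
    have := pd_abs_le hφPD hφ1 g
    nlinarith [abs_nonneg (φ g), sq_nonneg (|φ g|)]
  have hcubege : (1 - 1 / 250) / t ≤ ∑' g, φ g ^ 3 := by
    have h1 : ∑' g, ψ g * c g = t * ∑' g, φ g ^ 3 := by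
      rw [← tsum_mul_left]
      refine tsum_congr fun g => ?_
      rw [hψ, hφ]
      field_simp
    rw [div_le_iff₀ htpos, mul_comm, ← h1]
    have h2 : 2 * a / b ≤ 1 / 250 := by
      rw [div_le_iff₀ hb]
      linarith
    linarith
  obtain ⟨A, B, hA, hB, hAB⟩ := dbl_count htpos hφle hφsum hφsumle hcube hcubege
  have hfin : Finite G := by
    refine dbl_finite (A := A) (B := B) (fun g hg => ?_) (fun g hg g' hg' => ?_) hAB ?_ ?_
    · rw [hA] at hg ⊢
      rw [pd_inv hφPD]
      exact hg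
    · rw [hA] at hg hg'
      rw [hB]
      have := pd_mul_ge hφPD hφ1 g g'
      linarith
    · rw [hA, hφ1]
      norm_num
    · rw [eq_top_iff, ← W.gen]
      refine Subgroup.closure_mono fun s hs => ?_
      rw [Finset.mem_coe] at hs ⊢
      rw [hA]
      have h1 : W.μ s * (1 - φ s) ≤ W.E (fun s => 1 - φ s) :=
        Finset.single_le_sum (f := fun s => W.μ s * (1 - φ s))
          (fun s hs => mul_nonneg (W.pos s hs).le (by linarith [hφle s])) hs
      rw [W.E_sub, W.E_const] at h1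
      have h2 := hμ s hs
      have h3 := W.pos s hs
      by_contra hlt'
      push Not at hlt'
      nlinarith
  exact not_finite G

end Unif

end Pool.SpecDense
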